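import Mathlib

section

/-!
Definitions and statements of the steps of the sharp bound for the second coefficient.
-/

open Polynomial Finset
open scoped Real ComplexConjugate

namespace Pool.Agent.MP_334d28_an.K

/-- a point of the unit circle -/
noncomputable def ee (t : ℝ) : ℂ := Complex.exp (t * Complex.I)

/-- the cross product -/
def wdg (u v : ℂ) : ℝ := u.re * v.im - u.im * v.re

section words

/-- the denominator of a list of poles and residues -/
noncomputable def PP : List (ℝ × ℂ) → ℂ[X]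
  | [] => 1
  | a :: L => (C (ee a.1) - X) * PP L

/-- the numerator of a list of poles and residues -/
noncomputable def QQ : List (ℝ × ℂ) → ℂ[X]
  | [] => 0
  | a :: L => C a.2 * PP L + (C (ee a.1) - X) * QQ L

/-- moments of the residues -/
noncomputable def mom (L : List (ℝ × ℂ)) (k : ℝ) : ℂ := (L.map fun a => a.2 * ee (k * a.1)).sum

/-- ordered poles and a numerator without zeros in the closed disc -/
def Good (L : List (ℝ × ℂ)) : Prop :=
  (L.map Prod.fst).Pairwise (· < ·) ∧ (∀ a ∈ L, ∀ b ∈ L, b.1 < a.1 + 2 * π) ∧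
    ∀ z : ℂ, ‖z‖ ≤ 1 → (QQ L).eval z ≠ 0

/-- the affine invariant form of the bound -/
def Bd (L : List (ℝ × ℂ)) : Prop :=
  ‖mom L 1‖ < ‖mom L (-1)‖ →
    ‖conj (mom L (-1)) * mom L (-2) - mom L 1 * conj (mom L 2)‖ ≤
      5 * ‖conj (mom L (-1)) * mom L (-1) - mom L 1 * conj (mom L 1)‖

/-- words of residues for which the bound holds -/
def OK (w : List ℂ) : Prop := ∀ L : List (ℝ × ℂ), L.map Prod.snd = w → Good L → Bd L

end words

section geometry

/-- positively triangulated polygons `a, l, b` -/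
inductive Tr : ℂ → List ℂ → ℂ → Prop
  | seg (a b : ℂ) : Tr a [] b
  | glue {a z b : ℂ} {u v : List ℂ} :
      0 < wdg (z - a) (b - z) → Tr a u z → Tr z v b → Tr a (u ++ z :: v) b

/-- all rotations are positively triangulated -/
def TC (P : List ℂ) : Prop := ∀ a l b, P ~r (a :: (l ++ [b])) → Tr a l b

/-- the edges of the path `a, l, b` -/
def pe : ℂ → List ℂ → ℂ → List (ℂ × ℂ)
  | a, [], b => [(a, b)]
  | a, x :: l, b => (a, x) :: pe x l b

/-- the edges of a closed polygon -/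
def ce : List ℂ → List (ℂ × ℂ)
  | [] => []
  | a :: l => pe a l a

/-- the edge vectors -/
def dif (E : List (ℂ × ℂ)) : List ℂ := E.map fun e => e.2 - e.1

/-- vertices and edges without crossings -/
def Sim (V : List ℂ) (E : List (ℂ × ℂ)) : Prop :=
  V.Nodup ∧ (∀ e ∈ E, ∀ v ∈ V, v ∉ openSegment ℝ e.1 e.2) ∧
    ∀ e ∈ E, ∀ f ∈ E, e ≠ f → Disjoint (openSegment ℝ e.1 e.2) (openSegment ℝ f.1 f.2)

/-- simple closed polygons -/
def Simple (P : List ℂ) : Prop := Sim P (ce P)

/-- the total angle seen from a point -/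
noncomputable def wn (E : List (ℂ × ℂ)) (w : ℂ) : ℝ :=
  (E.map fun e => Complex.arg ((e.2 - w) / (e.1 - w))).sum

/-- points off the edges -/
def Off (E : List (ℂ × ℂ)) (w : ℂ) : Prop := ∀ e ∈ E, w ∉ segment ℝ e.1 e.2

/-- barycentric coordinates -/
def bc (v a b : ℂ) (s t : ℝ) : ℂ := v + s * (a - v) + t * (b - v)

end geometry

section gas

variable {N : ℕ}

/-- nested pairs of angles -/
structure Nest (lo hi : Fin N → ℝ) : Prop where
  anti : StrictAnti lo
  mono : StrictMono hi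
  lt : ∀ j k, lo j < hi k
  win : ∀ j k, hi k < lo j + 2 * π

/-- an angle outside all pairs -/
def Out (lo hi : Fin N → ℝ) (p : ℝ) : Prop := ∀ k, p < lo k ∧ hi k < p + 2 * π

/-- the two angles of a pair -/
def pt (lo hi : Fin N → ℝ) (u : Fin N × Bool) : ℝ := bif u.2 then hi u.1 else lo u.1

/-- half the chord, with sign -/
noncomputable def sn (s t : ℝ) : ℝ := Real.sin ((s - t) / 2)

/-- a polynomial on the circle with a half integral twist -/
noncomputable def al (N : ℕ) (A : ℂ[X]) (t : ℝ) : ℂ :=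
  ee (-(((N : ℝ) - 1) * t / 2)) * A.eval (ee t)

/-- monic polynomials annihilated by the two point functionals -/
def Ann (lo hi : Fin N → ℝ) (c : Fin N × Bool → ℝ) (A : ℂ[X]) : Prop :=
  A.Monic ∧ A.natDegree = N ∧
    ∀ k, (c (k, false) : ℂ) * al N A (lo k) + (c (k, true) : ℂ) * al N A (hi k) = 0

/-- the sign condition for the weights -/
def Coh (c : Fin N × Bool → ℝ) : Prop :=
  ∀ k : Fin N, 0 < (-1) ^ (k : ℕ) * (c (k, false) * c (k, true))

/-- the denominator -/
noncomputable def PI (p : Fin 4 → ℝ) (lo hi : Fin N → ℝ) : ℂ[X] :=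
  (∏ i, (C (ee (p i)) - X)) * ∏ u, (C (ee (pt lo hi u)) - X)

/-- opposite residues at the two points of each pair -/
def Pair (p : Fin 4 → ℝ) (lo hi : Fin N → ℝ) (Q : ℂ[X]) : Prop :=
  ∀ k, Q.eval (ee (lo k)) / (PI p lo hi).derivative.eval (ee (lo k)) +
    Q.eval (ee (hi k)) / (PI p lo hi).derivative.eval (ee (hi k)) = 0

/-- the bound for the logarithmic derivative -/
def Five (p : Fin 4 → ℝ) (lo hi : Fin N → ℝ) (Q : ℂ[X]) : Prop :=
  ‖Q.derivative.eval 0 + Q.eval 0 * (∑ i, ee (-p i) + ∑ u, ee (-pt lo hi u))‖ ≤ 5 * ‖Q.eval 0‖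

/-- the weights given by a polynomial with zeros on the circle -/
noncomputable def wt (lo hi : Fin N → ℝ) (τ : Fin (N + 1) → ℝ) (u : Fin N × Bool) : ℝ :=
  (∏ j, sn (pt lo hi u) (τ j)) / ∏ v ∈ univ.erase u, sn (pt lo hi u) (pt lo hi v)

/-- the extremal numerators -/
noncomputable def QX (τ : Fin (N + 1) → ℝ) (w : Fin N → ℂ) : ℂ[X] :=
  (∏ j, (1 - C (ee (-τ j)) * X)) * ∏ j, (1 - C (conj (w j)) * X)

/-- the weight of a configuration -/
noncomputable def Om {n : ℕ} (ψ c : Fin n → Bool → ℝ) (S : Fin n → Bool) : ℝ :=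
  (∏ i, c i (S i)) * ∏ i, ∏ j ∈ Ioi i, sn (ψ j (S j)) (ψ i (S i))

/-- all configurations have weights of one sign -/
def CohS {n : ℕ} (ψ c : Fin n → Bool → ℝ) : Prop := ∀ S S', 0 < Om ψ c S * Om ψ c S'

/-- the bound for `N` pairs -/
def NRM (N : ℕ) : Prop :=
  ∀ (p : Fin 4 → ℝ) (lo hi : Fin N → ℝ) (Q : ℂ[X]), Nest lo hi → (∀ i, Out lo hi (p i)) →
    Q.natDegree ≤ 2 * N + 1 → (∀ z : ℂ, ‖z‖ < 1 → Q.eval z ≠ 0) → Pair p lo hi Q → Five p lo hi Q

/-- residues at the roots of unity -/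
noncomputable def dd (A B : ℂ[X]) (n j : ℕ) : ℂ :=
  (ee (2 * π * j / n) * A.eval (ee (2 * π * j / n)) -
    conj (ee (2 * π * j / n) * B.eval (ee (2 * π * j / n)))) / n

/-- the step map of two polynomials -/
noncomputable def LL (A B : ℂ[X]) (n : ℕ) : List (ℝ × ℂ) :=
  List.ofFn fun j : Fin n => (2 * π * (j : ℕ) / n, dd A B n j)

end gas

section stmts

/-- the trigonometric Vandermonde determinant and the expansion of two point functionals -/
def VDM_st : Prop :=
  (∀ (n : ℕ) (ψ : Fin n → ℝ),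
    (Matrix.of fun i j : Fin n => ee ((((j : ℕ) : ℝ) - ((n : ℝ) - 1) / 2) * ψ i)).det =
      (∏ i : Fin n, ∏ _j ∈ Ioi i, 2 * Complex.I) *
        ((∏ i, ∏ j ∈ Ioi i, sn (ψ j) (ψ i) : ℝ) : ℂ)) ∧
  ∀ (n : ℕ) (ψ c : Fin n → Bool → ℝ) (a : Fin n → ℝ),
    (Matrix.of fun i j : Fin n => ∑ σ, (c i σ : ℂ) * ee (a j * ψ i σ)).det =
      ∑ S : Fin n → Bool, ((∏ i, c i (S i) : ℝ) : ℂ) *
        (Matrix.of fun i j : Fin n => ee (a j * ψ i (S i))).det

/-- laminar systems are coherent -/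
def LAM_st : Prop :=
  ∀ (n : ℕ) (ψ c : Fin n → Bool → ℝ) (inn : Fin n → Finset (Fin n)),
    (∀ i, ∀ j ∈ inn i, ∀ τ, ψ i false < ψ j τ ∧ ψ j τ < ψ i true) →
    (∀ i j, i ≠ j → j ∈ inn i ∨ i ∈ inn j ∨ (∀ σ τ, ψ i σ < ψ j τ) ∨ ∀ σ τ, ψ j τ < ψ i σ) →
    (∀ i j σ τ, ψ j τ < ψ i σ + 2 * π) →
    (∀ i, 0 < (-1) ^ (inn i).card * (c i false * c i true)) → CohS ψ c

/-- the second moment of the sum of the points -/
def ENS_st : Prop :=
  ∀ (N : ℕ) (ψ c : Fin (2 * N + 1) → Bool → ℝ) (R₁ R₂ : ℂ[X]), 1 ≤ N → CohS ψ c →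
    R₁.Monic → R₁.natDegree = 2 * N + 1 → R₂.Monic → R₂.natDegree = 2 * N + 2 →
    R₁.coeff (2 * N) = 0 → R₁.coeff 0 = 0 → R₂.coeff (2 * N + 1) = 0 →
    (∀ i, ∑ σ, (c i σ : ℂ) * (ee (-(N * ψ i σ)) * R₁.eval (ee (ψ i σ))) = 0) →
    (∀ i, ∑ σ, (c i σ : ℂ) * (ee (-(N * ψ i σ)) * R₂.eval (ee (ψ i σ))) = 0) →
    ‖R₁.coeff (2 * N - 1) - R₂.coeff (2 * N)‖ ≤ 1

/-- one more charge moves the mean by at most one -/
def GAS_st : Prop :=
  ∀ (N : ℕ) (lo hi : Fin N → ℝ) (p : ℝ) (c : Fin N × Bool → ℝ) (A A' : ℂ[X]), Nest lo hi →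
    Out lo hi p → Coh c → Ann lo hi c A → Ann lo hi (fun u => c u * sn (pt lo hi u) p) A' →
    ‖ee p - A'.nextCoeff + A.nextCoeff‖ ≤ 1

/-- existence of the annihilated polynomial -/
def EXA_st : Prop :=
  ∀ (N : ℕ) (lo hi : Fin N → ℝ) (c : Fin N × Bool → ℝ), Nest lo hi → Coh c →
    ∃ A, Ann lo hi c A ∧ ‖A.eval 0‖ ≤ 1

/-- the argument of a linear factor is monotone -/
def MON_st : Prop :=
  ∀ (w : ℂ) (s t : ℝ), ‖w‖ ≤ 1 → s ≤ t → ee s ≠ w → ee t ≠ w →
    s / 2 + Complex.arg (1 - w * ee (-s)) ≤ t / 2 + Complex.arg (1 - w * ee (-t))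

/-- the signs are forced -/
def SGN_st : Prop :=
  ∀ (N : ℕ) (lo hi : Fin N → ℝ) (c : Fin N × Bool → ℝ) (w : Fin N → ℂ), Nest lo hi →
    (∀ j, ‖w j‖ ≤ 1) → (∀ u j, ee (pt lo hi u) ≠ w j) → (∀ u, c u ≠ 0) →
    Ann lo hi c (∏ j, (X - C (w j))) → Coh c

/-- the sum of the residues -/
def RES_st : Prop :=
  ∀ (N : ℕ) (lo hi : Fin N → ℝ) (τ : Fin (N + 1) → ℝ) (A : ℂ[X]), Nest lo hi →
    Ann lo hi (wt lo hi τ) A →
    ‖∑ u, ee (pt lo hi u) - ∑ j, ee (τ j) + A.nextCoeff‖ = ‖A.eval 0‖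

/-- the real form of the residue conditions -/
def CONV_st : Prop :=
  ∀ (N : ℕ) (p : Fin 4 → ℝ) (lo hi : Fin N → ℝ) (τ : Fin (N + 1) → ℝ) (w : Fin N → ℂ),
    Nest lo hi → (∀ i, Out lo hi (p i)) → Pair p lo hi (QX τ w) →
    Ann lo hi (fun u => wt lo hi τ u / ∏ i, sn (pt lo hi u) (p i)) (∏ j, (X - C (w j)))

/-- the bound for extremal numerators -/
def FIN_st : Prop :=
  ∀ (N : ℕ) (p : Fin 4 → ℝ) (lo hi : Fin N → ℝ) (τ : Fin (N + 1) → ℝ) (w : Fin N → ℂ),
    Nest lo hi → (∀ i, Out lo hi (p i)) → (∀ j, ‖w j‖ ≤ 1) → Pair p lo hi (QX τ w) →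
    (∀ u, (QX τ w).eval (ee (pt lo hi u)) ≠ 0) → Five p lo hi (QX τ w)

/-- factorisation and a dimension count -/
def FAC_st : Prop :=
  (∀ (N : ℕ) (q : ℂ[X]), q.natDegree ≤ N → (∀ z : ℂ, ‖z‖ < 1 → q.eval z ≠ 0) →
    ∃ w : Fin N → ℂ, (∀ j, ‖w j‖ ≤ 1) ∧ q = C (q.eval 0) * ∏ j, (1 - C (conj (w j)) * X)) ∧
  ∀ (N n : ℕ) (Λ : Fin N → ℂ[X] →ₗ[ℂ] ℂ), N < n →
    ∃ r : ℂ[X], r ≠ 0 ∧ r.natDegree ≤ n ∧ r.eval 0 = 0 ∧ ∀ k, Λ k r = 0

/-- the first time a zero reaches the circle -/
def HIT_st : Prop :=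
  ∀ q r : ℂ[X], (∀ z : ℂ, ‖z‖ ≤ 1 → q.eval z ≠ 0) → r ≠ 0 → r.eval 0 = 0 →
    ∃ t : ℝ, 0 < t ∧ (∀ z : ℂ, ‖z‖ < 1 → (q + C (t : ℂ) * r).eval z ≠ 0) ∧
      ∃ z : ℂ, ‖z‖ = 1 ∧ (q + C (t : ℂ) * r).eval z = 0

/-- removing a pair -/
def DROP_st : Prop :=
  ∀ N : ℕ, NRM N → ∀ (p : Fin 4 → ℝ) (lo hi : Fin (N + 1) → ℝ) (Q : ℂ[X]), Nest lo hi →
    (∀ i, Out lo hi (p i)) → Q.natDegree ≤ 2 * (N + 1) + 1 →
    (∀ z : ℂ, ‖z‖ < 1 → Q.eval z ≠ 0) → Pair p lo hi Q →
    (∃ u, Q.eval (ee (pt lo hi u)) = 0) → Five p lo hi Q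

/-- the normalised bound -/
def NRM_st : Prop := ∀ N, NRM N

/-- coefficients of the numerator -/
def COEF_st : Prop :=
  ∀ L : List (ℝ × ℂ), (QQ L).degree < L.length ∧
    (mom L 0 = 0 → mom L 1 = 0 → (QQ L).natDegree ≤ L.length - 3) ∧
    (QQ L).eval 0 = (PP L).eval 0 * mom L (-1) ∧
    (QQ L).derivative.eval 0 + (QQ L).eval 0 * (L.map fun a => ee (-a.1)).sum =
      (PP L).eval 0 * mom L (-2) ∧ ‖(PP L).eval 0‖ = 1 ∧
    ∀ a ∈ L, (QQ L).eval (ee a.1) = -a.2 * (PP L).derivative.eval (ee a.1)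

/-- affine maps keep the numerator stable -/
def AFF_st : Prop :=
  ∀ (L : List (ℝ × ℂ)) (β : ℂ), Good L → mom L 0 = 0 → ‖β‖ < 1 →
    Good (L.map fun a => (a.1, a.2 - β * conj a.2))

/-- the bound for slit words -/
def ALG_st : Prop :=
  ∀ (e₁ e₂ e₃ e₄ : ℂ) (c : List ℂ), e₁ + e₂ + e₃ + e₄ = 0 →
    OK (e₁ :: e₂ :: e₃ :: e₄ :: ((c.map fun x => -x).reverse ++ c))

/-- adding an ear -/
def EAR_st : Prop :=
  ∀ (u v : List ℂ) (a b : ℂ), 0 < wdg a b → OK (u ++ a :: b :: v) → OK (u ++ (a + b) :: v)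

/-- rotation of words -/
def ROK_st : Prop := ∀ w w' : List ℂ, w ~r w' → OK w → OK w'

/-- the total angle is locally constant -/
def WNC_st : Prop :=
  ∀ (P : List ℂ) (w w' : ℂ), (∀ x ∈ segment ℝ w w', Off (ce P) x) → wn (ce P) w = wn (ce P) w'

/-- the total angle of a triangulated polygon is not negative -/
def WNP_st : Prop :=
  ∀ (a b : ℂ) (l : List ℂ), Tr a l b → ∀ w, Off (ce (a :: (l ++ [b]))) w →
    0 ≤ wn (ce (a :: (l ++ [b]))) w

/-- cutting off an empty ear keeps the orientation -/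
def EARW_st : Prop :=
  ∀ (v a b φ : ℂ) (l : List ℂ), 0 < wdg (b - v) (a - v) →
    (∀ x ∈ b :: (l ++ [a]), 0 < (conj φ * (x - v)).re) →
    (∀ e ∈ pe b l a, ∀ s t : ℝ, 0 ≤ s → 0 ≤ t → s + t ≤ 1 → s < 1 → t < 1 →
      bc v a b s t ∉ segment ℝ e.1 e.2) → ¬ Tr a l.reverse b

/-- a segment that enters a corner meets its sides -/
def CUT_st : Prop :=
  ∀ (v a b x y : ℂ) (h s t : ℝ), wdg (b - v) (a - v) ≠ 0 → 0 ≤ s → 0 ≤ t → s + t < h →
    bc v a b s t ∈ segment ℝ x y →
    (∀ s' t' : ℝ, 0 ≤ s' → 0 ≤ t' → s' + t' < h → bc v a b s' t' ≠ x ∧ bc v a b s' t' ≠ y) →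
    ∃ r : ℝ, 0 ≤ r ∧ r < h ∧ (bc v a b r 0 ∈ segment ℝ x y ∨ bc v a b 0 r ∈ segment ℝ x y)

/-- a diagonal from the corner -/
def DIAGA_st : Prop :=
  ∀ (v a b : ℂ) (l : List ℂ), Simple (v :: b :: (l ++ [a])) → 0 < wdg (b - v) (a - v) →
    (∃ s t : ℝ, 0 ≤ s ∧ 0 ≤ t ∧ s + t ≤ 1 ∧ bc v a b s t ∈ l) →
    ∃ l₁ z l₂, l = l₁ ++ z :: l₂ ∧ Simple (v :: b :: (l₁ ++ [z])) ∧
      Simple (v :: z :: (l₂ ++ [a])) ∧ 0 < wdg (b - v) (z - v) ∧ 0 < wdg (z - v) (a - v)

/-- an empty ear -/
def DIAGB_st : Prop :=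
  ∀ (v a b : ℂ) (l : List ℂ), Simple (v :: b :: (l ++ [a])) → 0 < wdg (b - v) (a - v) → l ≠ [] →
    (∀ s t : ℝ, 0 ≤ s → 0 ≤ t → s + t ≤ 1 → bc v a b s t ∉ l) →
    Simple (b :: (l ++ [a])) ∧ ∀ e ∈ pe b l a, ∀ s t : ℝ, 0 ≤ s → 0 ≤ t → s + t ≤ 1 → s < 1 →
      t < 1 → bc v a b s t ∉ segment ℝ e.1 e.2

/-- simple polygons can be triangulated -/
def TRI_st : Prop := ∀ P : List ℂ, Simple P → 3 ≤ P.length → TC P ∨ TC P.reverse

/-- the region between a chain and a far point -/
def CHAIN_st : Prop :=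
  ∀ (x y B : ℂ) (m : List ℂ), Sim (x :: (m ++ [y])) (pe x m y) →
    (∀ w ∈ m ++ [y], 0 < wdg (B - x) (w - x)) → (∀ w ∈ x :: m, 0 < wdg (y - B) (w - B)) →
    TC (x :: B :: y :: m.reverse)

/-- the exterior of a simple polygon -/
def EXT_st : Prop :=
  ∀ P : List ℂ, Simple P → 3 ≤ P.length → ∃ (v₀ v₁ B C' D : ℂ) (l : List ℂ),
    P ~r (v₀ :: v₁ :: l) ∧ Tr v₀ (B :: C' :: D :: v₀ :: l.reverse) v₁

/-- the bound for simple polygons -/
def GEO_st : Prop := ∀ P : List ℂ, Simple P → 3 ≤ P.length → OK (dif (ce P))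

/-- the step map of two polynomials is stable -/
def PGOOD_st : Prop :=
  ∀ (A B : ℂ[X]) (n : ℕ), (∀ z : ℂ, ‖z‖ ≤ 1 → ‖B.eval z‖ < ‖A.eval z‖) →
    A.natDegree + 3 < n → B.natDegree + 3 < n → Good (LL A B n)

/-- the moments of the step map -/
def PMOM_st : Prop :=
  ∀ (A B : ℂ[X]) (n : ℕ), B.eval 0 = 0 → A.natDegree + 3 < n → B.natDegree + 3 < n →
    ∑ j ∈ range n, dd A B n j = 0 ∧ mom (LL A B n) 1 = 0 ∧ mom (LL A B n) (-1) = A.eval 0 ∧
      mom (LL A B n) (-2) = A.derivative.eval 0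

/-- regular Jordan curves are bi-Lipschitz -/
def BIL_st : Prop :=
  ∀ γ γ' : ℝ → ℂ, (∀ t, HasDerivAt γ (γ' t) t) → Continuous γ' → (∀ t, γ' t ≠ 0) →
    Function.Periodic γ (2 * π) → Set.InjOn γ (Set.Ico 0 (2 * π)) →
    ∃ c : ℝ, 0 < c ∧ ∀ s ∈ Set.Icc 0 (2 * π), ∀ t ∈ Set.Icc 0 (2 * π),
      c * min |s - t| (2 * π - |s - t|) ≤ ‖γ s - γ t‖

/-- polygons close to a regular Jordan curve do not meet themselves -/
def PLI_st : Prop :=
  ∀ (γ γ' : ℝ → ℂ) (c : ℝ), (∀ t, HasDerivAt γ (γ' t) t) → Continuous γ' → γ (2 * π) = γ 0 →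
    0 < c → (∀ s ∈ Set.Icc 0 (2 * π), ∀ t ∈ Set.Icc 0 (2 * π),
      c * min |s - t| (2 * π - |s - t|) ≤ ‖γ s - γ t‖) →
    ∃ ε : ℝ, 0 < ε ∧ ∃ n₀ : ℕ, ∀ n, n₀ ≤ n → ∀ d : ℕ → ℂ, ∑ j ∈ range n, d j = 0 →
      (∀ j < n, ‖n * d j - γ' (2 * π * j / n)‖ ≤ ε) →
      ∀ i < n, ∀ j < n, ∀ s ∈ Set.Ico (0 : ℝ) 1, ∀ t ∈ Set.Ico (0 : ℝ) 1,
        ∑ k ∈ range i, d k + s * d i = ∑ k ∈ range j, d k + t * d j → i = j ∧ s = t

/-- from an injective parametrisation to a simple polygon -/
def SIMP_st : Prop :=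
  ∀ (n : ℕ) (d : ℕ → ℂ), ∑ j ∈ range n, d j = 0 →
    (∀ i < n, ∀ j < n, ∀ s ∈ Set.Ico (0 : ℝ) 1, ∀ t ∈ Set.Ico (0 : ℝ) 1,
      ∑ k ∈ range i, d k + s * d i = ∑ k ∈ range j, d k + t * d j → i = j ∧ s = t) →
    Simple (List.ofFn fun j : Fin n => ∑ k ∈ range j, d k) ∧
      dif (ce (List.ofFn fun j : Fin n => ∑ k ∈ range j, d k)) = List.ofFn fun j : Fin n => d j

/-- approximation by polynomials -/
def APX_st : Prop :=
  ∀ (F : ℂ → ℂ) (R η : ℝ), 1 < R → 0 < η → DifferentiableOn ℂ F (Metric.ball 0 R) →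
    ∃ A : ℂ[X], A.eval 0 = F 0 ∧ A.derivative.eval 0 = deriv F 0 ∧
      ∀ z : ℂ, ‖z‖ ≤ 1 → ‖A.eval z - F z‖ ≤ η

/-- the bound on a smaller disc -/
def KEY_st : Prop :=
  ∀ (F G : ℂ → ℂ) (R : ℝ) (γ : ℝ → ℂ), 1 < R → DifferentiableOn ℂ F (Metric.ball 0 R) →
    DifferentiableOn ℂ G (Metric.ball 0 R) → (∀ z : ℂ, ‖z‖ ≤ 1 → ‖G z‖ < ‖F z‖) → G 0 = 0 →
    (∀ t, HasDerivAt γ (ee t * F (ee t) - conj (ee t * G (ee t))) t) →
    Function.Periodic γ (2 * π) → Set.InjOn γ (Set.Ico 0 (2 * π)) → ‖deriv F 0‖ ≤ 5 * ‖F 0‖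

/-- the theorem -/
def MAIN_st : Prop :=
  ∀ h g : ℂ → ℂ, DifferentiableOn ℂ h (Metric.ball (0 : ℂ) 1) →
    DifferentiableOn ℂ g (Metric.ball (0 : ℂ) 1) → deriv h 0 = 1 → deriv g 0 = 0 →
    Set.InjOn (fun z => h z + (starRingEnd ℂ) (g z)) (Metric.ball (0 : ℂ) 1) →
    (∀ z ∈ Metric.ball (0 : ℂ) 1, ‖deriv g z‖ < ‖deriv h z‖) →
    ‖iteratedDeriv 2 h 0 / 2‖ ≤ 5 / 2

end stmts

end Pool.Agent.MP_334d28_an.K

end

section

/-!
Small shared lemmas.
-/

open Polynomial Finset
open scoped Real ComplexConjugate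

namespace Pool.Agent.MP_334d28_an.K

section circle

@[simp] theorem ee_zero : ee 0 = 1 := by simp [ee]

theorem ee_add (s t : ℝ) : ee (s + t) = ee s * ee t := by
  simp [ee, add_mul, Complex.exp_add]

@[simp] theorem norm_ee (t : ℝ) : ‖ee t‖ = 1 := by
  simp [ee, Complex.norm_exp_ofReal_mul_I]

theorem ee_ne (t : ℝ) : ee t ≠ 0 := Complex.exp_ne_zero _

theorem ee_neg (t : ℝ) : ee (-t) = (ee t)⁻¹ := by
  simp [ee, Complex.exp_neg]

theorem conj_ee (t : ℝ) : conj (ee t) = ee (-t) := by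
  simp [ee, ← Complex.exp_conj]

theorem ee_mul_neg (t : ℝ) : ee t * ee (-t) = 1 := by
  rw [← ee_add]; simp

theorem ee_nat (n : ℕ) (t : ℝ) : ee (n * t) = ee t ^ n := by
  simp [ee, ← Complex.exp_nat_mul, mul_assoc]

theorem ee_int (n : ℤ) (t : ℝ) : ee (n * t) = ee t ^ n := by
  simp [ee, ← Complex.exp_int_mul, mul_assoc]

theorem ee_pi : ee π = -1 := by simp [ee]

theorem ee_two_pi : ee (2 * π) = 1 := by simp [ee]

theorem ee_add_two_pi (t : ℝ) : ee (t + 2 * π) = ee t := by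
  rw [ee_add, ee_two_pi, mul_one]

theorem ee_sum {ι : Type*} (s : Finset ι) (f : ι → ℝ) :
    ee (∑ i ∈ s, f i) = ∏ i ∈ s, ee (f i) := by
  classical
  induction s using Finset.induction_on with
  | empty => simp
  | insert a s ha ih => rw [sum_insert ha, prod_insert ha, ee_add, ih]

theorem ee_eq (t : ℝ) : ee t = (Real.cos t : ℂ) + (Real.sin t : ℂ) * Complex.I := by
  simp [ee, Complex.exp_mul_I]

theorem ee_re (t : ℝ) : (ee t).re = Real.cos t := by
  simp [ee, Complex.exp_ofReal_mul_I_re]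

theorem ee_im (t : ℝ) : (ee t).im = Real.sin t := by
  simp [ee, Complex.exp_ofReal_mul_I_im]

theorem continuous_ee : Continuous ee := by
  unfold ee; fun_prop

theorem hasDerivAt_ee (t : ℝ) : HasDerivAt ee (Complex.I * ee t) t := by
  have h : HasDerivAt (fun s : ℝ => (s : ℂ) * Complex.I) (Complex.I) t := by
    simpa using (Complex.ofRealCLM.hasDerivAt (x := t)).mul_const Complex.I
  have := h.cexp
  rw [mul_comm] at this
  exact this

theorem ee_sub (s t : ℝ) : ee s - ee t = 2 * Complex.I * (sn s t : ℝ) * ee ((s + t) / 2) := by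
  have h1 : ee s = ee ((s - t) / 2) * ee ((s + t) / 2) := by
    rw [← ee_add]; congr 1; ring
  have h2 : ee t = ee (-((s - t) / 2)) * ee ((s + t) / 2) := by
    rw [← ee_add]; congr 1; ring
  rw [h1, h2, ← sub_mul, ee_eq ((s - t) / 2), ee_eq (-((s - t) / 2)), Real.cos_neg, Real.sin_neg, sn]
  push_cast
  ring

theorem sn_swap (s t : ℝ) : sn s t = -sn t s := by
  rw [sn, sn, ← Real.sin_neg]; congr 1; ring

theorem sn_pos {s t : ℝ} (h : t < s) (h' : s < t + 2 * π) : 0 < sn s t :=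
  Real.sin_pos_of_pos_of_lt_pi (by linarith) (by linarith)

theorem sn_ne {s t : ℝ} (h : s ≠ t) (h1 : s < t + 2 * π) (h2 : t < s + 2 * π) : sn s t ≠ 0 := by
  rcases lt_or_gt_of_ne h with h | h
  · rw [sn_swap]; exact neg_ne_zero.2 (sn_pos h h2).ne'
  · exact (sn_pos h h1).ne'

theorem ee_ne_ee {s t : ℝ} (h : s ≠ t) (h1 : s < t + 2 * π) (h2 : t < s + 2 * π) :
    ee s ≠ ee t := by
  rw [← sub_ne_zero, ee_sub]
  have := sn_ne h h1 h2
  simp [this, ee_ne]

theorem exists_ee {z : ℂ} (h : ‖z‖ = 1) : ∃ t, z = ee t :=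
  ⟨Complex.arg z, by simpa [h, ee] using (Complex.norm_mul_exp_arg_mul_I z).symm⟩

variable {N : ℕ} {lo hi : Fin N → ℝ}

theorem Nest.pt_win (h : Nest lo hi) (u v : Fin N × Bool) : pt lo hi u < pt lo hi v + 2 * π := by
  obtain ⟨j, _ | _⟩ := u <;> obtain ⟨k, _ | _⟩ := v <;> simp only [pt, cond_true, cond_false]
  · linarith [h.lt j j, h.win k j]
  · linarith [h.lt j k, Real.pi_pos]
  · exact h.win k j
  · linarith [h.lt k k, h.win k j]

theorem Nest.pt_inj (h : Nest lo hi) : Function.Injective (pt lo hi) := by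
  rintro ⟨j, _ | _⟩ ⟨k, _ | _⟩ e <;> simp only [pt, cond_true, cond_false] at e
  · rw [h.anti.injective e]
  · exact absurd e (h.lt j k).ne
  · exact absurd e (h.lt k j).ne'
  · rw [h.mono.injective e]

theorem Nest.sn_ne (h : Nest lo hi) {u v : Fin N × Bool} (huv : u ≠ v) :
    sn (pt lo hi u) (pt lo hi v) ≠ 0 :=
  K.sn_ne (fun e => huv (h.pt_inj e)) (h.pt_win u v) (h.pt_win v u)

theorem Nest.ee_inj (h : Nest lo hi) : Function.Injective fun u => ee (pt lo hi u) := by
  intro u v e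
  by_contra huv
  exact ee_ne_ee (fun e => huv (h.pt_inj e)) (h.pt_win u v) (h.pt_win v u) e

theorem Out.pt_lt (h : Nest lo hi) {p : ℝ} (hp : Out lo hi p) (u : Fin N × Bool) :
    p < pt lo hi u ∧ pt lo hi u < p + 2 * π := by
  obtain ⟨k, _ | _⟩ := u <;> simp only [pt, cond_true, cond_false]
  · exact ⟨(hp k).1, (h.lt k k).trans (hp k).2⟩
  · exact ⟨(hp k).1.trans (h.lt k k), (hp k).2⟩

theorem Out.sn_pos (h : Nest lo hi) {p : ℝ} (hp : Out lo hi p) (u : Fin N × Bool) :
    0 < sn (pt lo hi u) p :=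
  K.sn_pos (hp.pt_lt h u).1 (hp.pt_lt h u).2

theorem Out.ee_ne (h : Nest lo hi) {p : ℝ} (hp : Out lo hi p) (u : Fin N × Bool) :
    ee p ≠ ee (pt lo hi u) := by
  obtain ⟨h1, h2⟩ := hp.pt_lt h u
  exact ee_ne_ee h1.ne (by linarith [Real.pi_pos]) h2

end circle

section words

theorem PP_append (L M : List (ℝ × ℂ)) : PP (L ++ M) = PP L * PP M := by
  induction L with
  | nil => simp [PP]
  | cons a L ih => simp [PP, ih, mul_assoc]

theorem QQ_append (L M : List (ℝ × ℂ)) : QQ (L ++ M) = QQ L * PP M + PP L * QQ M := by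
  induction L with
  | nil => simp [PP, QQ]
  | cons a L ih => simp only [List.cons_append, QQ, PP, ih, PP_append]; ring

theorem PP_eq (L : List (ℝ × ℂ)) : PP L = (L.map fun a => C (ee a.1) - X).prod := by
  induction L with
  | nil => simp [PP]
  | cons a L ih => simp [PP, ih]

theorem PP_perm {L M : List (ℝ × ℂ)} (h : L.Perm M) : PP L = PP M := by
  rw [PP_eq, PP_eq]; exact (h.map _).prod_eq

theorem QQ_perm {L M : List (ℝ × ℂ)} (h : L.Perm M) : QQ L = QQ M := by
  induction h with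
  | nil => rfl
  | cons a h ih => simp only [QQ, ih, PP_perm h]
  | swap a b l => simp only [QQ, PP]; ring
  | trans _ _ h1 h2 => exact h1.trans h2

@[simp] theorem mom_nil (k : ℝ) : mom [] k = 0 := rfl

theorem mom_cons (a : ℝ × ℂ) (L : List (ℝ × ℂ)) (k : ℝ) :
    mom (a :: L) k = a.2 * ee (k * a.1) + mom L k := by simp [mom]

theorem mom_append (L M : List (ℝ × ℂ)) (k : ℝ) : mom (L ++ M) k = mom L k + mom M k := by
  simp [mom]

theorem mom_perm {L M : List (ℝ × ℂ)} (h : L.Perm M) (k : ℝ) : mom L k = mom M k :=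
  (h.map _).sum_eq

theorem mom_zero (L : List (ℝ × ℂ)) : mom L 0 = (L.map Prod.snd).sum := by
  simp [mom]

theorem eval_div (L : List (ℝ × ℂ)) (z : ℂ) (hz : ∀ a ∈ L, ee a.1 ≠ z) :
    (PP L).eval z ≠ 0 ∧
      (QQ L).eval z = (PP L).eval z * (L.map fun a => a.2 / (ee a.1 - z)).sum := by
  induction L with
  | nil => simp [PP, QQ]
  | cons a L ih =>
    obtain ⟨h1, h2⟩ := ih fun b hb => hz b (List.mem_cons_of_mem _ hb)
    have h3 : ee a.1 - z ≠ 0 := sub_ne_zero.2 (hz a List.mem_cons_self)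
    refine ⟨by simp [PP, h1, h3], ?_⟩
    simp only [QQ, PP, eval_add, eval_mul, eval_C, eval_sub, eval_X, h2, List.map_cons,
      List.sum_cons]
    field_simp

end words

section geometry

theorem wdg_eq (u v : ℂ) : wdg u v = (conj u * v).im := by
  simp [wdg]; ring

theorem wdg_swap (u v : ℂ) : wdg u v = -wdg v u := by simp [wdg]; ring

@[simp] theorem wdg_self (u : ℂ) : wdg u u = 0 := by simp [wdg]; ring

theorem wdg_rot (a z b : ℂ) : wdg (b - z) (a - b) = wdg (z - a) (b - z) := by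
  simp [wdg]; ring

theorem wdg_base (a z b : ℂ) : wdg (z - a) (b - a) = wdg (z - a) (b - z) := by
  simp [wdg]; ring

/-- transitivity of the cross product order in a half plane -/
theorem wdg_trans {φ x y z : ℂ} (hx : 0 < (conj φ * x).re) (hy : 0 < (conj φ * y).re)
    (hz : 0 < (conj φ * z).re) (h1 : 0 < wdg x y) (h2 : 0 < wdg y z) : 0 < wdg x z := by
  have e : (conj φ * y).re * wdg x z =
      (conj φ * z).re * wdg x y + (conj φ * x).re * wdg y z := by
    simp [wdg]; ring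
  have : 0 < (conj φ * y).re * wdg x z := by rw [e]; positivity
  exact (pos_iff_pos_of_mul_pos this).1 hy

theorem bc_a (v a b : ℂ) : bc v a b 1 0 = a := by simp [bc]

theorem bc_b (v a b : ℂ) : bc v a b 0 1 = b := by simp [bc]

theorem bc_v (v a b : ℂ) : bc v a b 0 0 = v := by simp [bc]

theorem wdg_bc_left (v a b : ℂ) (s t : ℝ) :
    wdg (b - v) (bc v a b s t - v) = s * wdg (b - v) (a - v) := by
  simp [wdg, bc]; ring

theorem wdg_bc_right (v a b : ℂ) (s t : ℝ) :
    wdg (bc v a b s t - v) (a - v) = t * wdg (b - v) (a - v) := by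
  simp [wdg, bc]; ring

theorem bc_inj {v a b : ℂ} (h : wdg (b - v) (a - v) ≠ 0) {s t s' t' : ℝ}
    (e : bc v a b s t = bc v a b s' t') : s = s' ∧ t = t' := by
  constructor
  · have := wdg_bc_left v a b s t
    rw [e, wdg_bc_left] at this
    exact (mul_right_cancel₀ h this).symm
  · have := wdg_bc_right v a b s t
    rw [e, wdg_bc_right] at this
    exact (mul_right_cancel₀ h this).symm

theorem bc_surj {v a b : ℂ} (h : wdg (b - v) (a - v) ≠ 0) (x : ℂ) :
    ∃ s t : ℝ, x = bc v a b s t := by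
  refine ⟨wdg (b - v) (x - v) / wdg (b - v) (a - v), wdg (x - v) (a - v) / wdg (b - v) (a - v), ?_⟩
  apply Complex.ext
  · simp only [bc, Complex.add_re, Complex.mul_re, Complex.ofReal_re, Complex.ofReal_im,
      Complex.sub_re, Complex.sub_im]
    field_simp
    simp [wdg]; ring
  · simp only [bc, Complex.add_im, Complex.mul_im, Complex.ofReal_re, Complex.ofReal_im,
      Complex.sub_re, Complex.sub_im]
    field_simp
    simp [wdg]; ring

theorem bc_comb (v a b : ℂ) (s t s' t' p q : ℝ) (h : p + q = 1) :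
    p • bc v a b s t + q • bc v a b s' t' = bc v a b (p * s + q * s') (p * t + q * t') := by
  have : (q : ℂ) = 1 - p := by rw [show q = 1 - p by linarith]; push_cast; ring
  simp only [bc, Complex.real_smul]
  push_cast
  rw [this]; ring

theorem pe_append (a : ℂ) (u : List ℂ) (z : ℂ) (v : List ℂ) (b : ℂ) :
    pe a (u ++ z :: v) b = pe a u z ++ pe z v b := by
  induction u generalizing a with
  | nil => simp [pe]
  | cons x u ih => simp [pe, ih]

theorem pe_reverse (a : ℂ) (l : List ℂ) (b : ℂ) :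
    pe b l.reverse a = ((pe a l b).map Prod.swap).reverse := by
  induction l generalizing a with
  | nil => simp [pe]
  | cons x l ih => rw [List.reverse_cons, pe_append, ih]; simp [pe]

theorem mem_pe {a b : ℂ} {l : List ℂ} {e : ℂ × ℂ} (h : e ∈ pe a l b) :
    e.1 ∈ a :: l ∧ e.2 ∈ l ++ [b] := by
  induction l generalizing a with
  | nil => simp [pe] at h; simp [h]
  | cons x l ih =>
    simp only [pe, List.mem_cons] at h
    rcases h with rfl | h
    · simp
    · obtain ⟨h1, h2⟩ := ih h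
      exact ⟨List.mem_cons_of_mem _ h1, List.mem_cons_of_mem _ h2⟩

theorem map_fst_pe (a : ℂ) (l : List ℂ) (b : ℂ) : (pe a l b).map Prod.fst = a :: l := by
  induction l generalizing a with
  | nil => simp [pe]
  | cons x l ih => simp [pe, ih]

theorem map_snd_pe (a : ℂ) (l : List ℂ) (b : ℂ) : (pe a l b).map Prod.snd = l ++ [b] := by
  induction l generalizing a with
  | nil => simp [pe]
  | cons x l ih => simp [pe, ih]

/-- the edges of a path without repeated vertices are not degenerate -/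
theorem pe_ne {a b : ℂ} {l : List ℂ} (hn : (a :: (l ++ [b])).Nodup) {e : ℂ × ℂ}
    (h : e ∈ pe a l b) : e.1 ≠ e.2 := by
  induction l generalizing a with
  | nil =>
    simp [pe] at h hn
    simpa [h] using hn
  | cons x l ih =>
    simp only [pe, List.mem_cons] at h
    rcases h with rfl | h
    · rintro (rfl : a = x)
      simp at hn
    · exact ih (List.nodup_cons.1 hn).2 h

theorem ce_cons_append (a : ℂ) (l : List ℂ) (b : ℂ) :
    ce (a :: (l ++ [b])) = pe a l b ++ [(b, a)] := by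
  simp [ce, pe_append, pe]

theorem mem_ce {P : List ℂ} {e : ℂ × ℂ} (h : e ∈ ce P) : e.1 ∈ P ∧ e.2 ∈ P := by
  cases P with
  | nil => simp [ce] at h
  | cons a l =>
    obtain ⟨h1, h2⟩ := mem_pe h
    refine ⟨h1, ?_⟩
    simp at h2 ⊢
    tauto

theorem ce_rotate_one (a : ℂ) (l : List ℂ) : ce (l ++ [a]) ~r ce (a :: l) := by
  cases l with
  | nil => exact List.IsRotated.refl _
  | cons x l =>
    rw [List.cons_append, ce_cons_append]
    exact List.isRotated_append

/-- induction along rotations -/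
theorem rot_ind {α : Type*} {p : List α → Prop} (h : ∀ a l, p (a :: l) → p (l ++ [a]))
    {P Q : List α} (hr : P ~r Q) (hp : p P) : p Q := by
  obtain ⟨n, rfl⟩ := hr
  induction n generalizing P with
  | zero => simpa using hp
  | succ n ih =>
    cases P with
    | nil => simpa using hp
    | cons a l => rw [List.rotate_cons_succ]; exact ih (h a l hp)

theorem ce_rot {P Q : List ℂ} (h : P ~r Q) : ce P ~r ce Q :=
  rot_ind (p := fun Q => ce P ~r ce Q) (fun a l h => h.trans (ce_rotate_one a l).symm) h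
    (List.IsRotated.refl _)

theorem ce_reverse (P : List ℂ) : ce P.reverse ~r ((ce P).map Prod.swap).reverse := by
  cases P with
  | nil => exact List.IsRotated.refl _
  | cons a l =>
    rw [List.reverse_cons]
    refine (ce_rotate_one a l.reverse).trans ?_
    simp only [ce, pe_reverse]
    exact List.IsRotated.refl _

theorem dif_append (E F : List (ℂ × ℂ)) : dif (E ++ F) = dif E ++ dif F := by simp [dif]

theorem dif_pe_reverse (a : ℂ) (l : List ℂ) (b : ℂ) :
    dif (pe b l.reverse a) = ((dif (pe a l b)).map fun x => -x).reverse := by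
  simp [pe_reverse, dif, List.map_reverse, Function.comp_def]

theorem Sim.mono {V V' : List ℂ} {E E' : List (ℂ × ℂ)} (h : Sim V E) (hn : V'.Nodup)
    (hV : ∀ v ∈ V', v ∈ V) (hE : ∀ e ∈ E', e ∈ E) : Sim V' E' :=
  ⟨hn, fun e he v hv => h.2.1 e (hE e he) v (hV v hv),
    fun e he f hf => h.2.2 e (hE e he) f (hE f hf)⟩

theorem Sim.swap {V : List ℂ} {E : List (ℂ × ℂ)} (h : Sim V E) : Sim V (E.map Prod.swap) := by
  refine ⟨h.1, ?_, ?_⟩
  · intro e he v hv
    obtain ⟨f, hf, rfl⟩ := List.mem_map.1 he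
    rw [openSegment_symm]
    exact h.2.1 f hf v hv
  · intro e he e' he' hne
    obtain ⟨f, hf, rfl⟩ := List.mem_map.1 he
    obtain ⟨f', hf', rfl⟩ := List.mem_map.1 he'
    rw [openSegment_symm ℝ f.swap.1, openSegment_symm ℝ f'.swap.1]
    exact h.2.2 f hf f' hf' fun e => hne (by rw [e])

theorem Simple.rot {P Q : List ℂ} (h : Simple P) (hr : P ~r Q) : Simple Q :=
  Sim.mono h (hr.nodup_iff.1 h.1) (fun _ hv => hr.mem_iff.2 hv)
    fun _ he => (ce_rot hr).mem_iff.2 he

theorem Simple.rev {P : List ℂ} (h : Simple P) : Simple P.reverse :=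
  Sim.mono (Sim.swap h) (List.nodup_reverse.2 h.1) (fun _ hv => List.mem_reverse.1 hv)
    fun _ he => List.mem_reverse.1 ((ce_reverse P).mem_iff.1 he)

/-- replacing the last edge by a triangulated polygon -/
theorem Tr.sub_last {a b : ℂ} {l : List ℂ} (h : Tr a l b) :
    ∀ {u : List ℂ} {y : ℂ} {w : List ℂ}, l = u ++ [y] → Tr y w b → Tr a (u ++ y :: w) b := by
  induction h with
  | seg a b => intro u y w e; simp at e
  | @glue a z b u₁ v₁ hw h1 h2 _ ih2 =>
    intro u y w e hy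
    rcases List.eq_nil_or_concat v₁ with rfl | ⟨v₂, y', rfl⟩
    · obtain ⟨rfl, e2⟩ := List.append_inj' e rfl
      obtain rfl : z = y := by simpa using e2
      exact Tr.glue hw h1 hy
    · rw [List.concat_eq_append, ← List.cons_append, ← List.append_assoc] at e
      obtain ⟨rfl, e2⟩ := List.append_inj' e rfl
      obtain rfl : y' = y := by simpa using e2
      have := Tr.glue hw h1 (ih2 (u := v₂) (by simp) hy)
      simpa using this

theorem Tr.rot_one {a b : ℂ} {m : List ℂ} (h : Tr a m b) :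
    ∀ {x : ℂ} {l : List ℂ}, m = x :: l → Tr x (l ++ [b]) a := by
  induction h with
  | seg a b => intro x l e; simp at e
  | @glue a z b u v hw h1 h2 ih1 _ =>
    intro x l e
    have hz : Tr z (v ++ [b]) a := Tr.glue (by rwa [wdg_rot]) h2 (Tr.seg b a)
    cases u with
    | nil =>
      obtain ⟨rfl, rfl⟩ : z = x ∧ v = l := by simpa using e
      exact hz
    | cons x' u' =>
      obtain ⟨rfl, rfl⟩ : x' = x ∧ u' ++ z :: v = l := by simpa using e
      simpa using (ih1 rfl).sub_last rfl hz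

/-- a triangulation does not depend on the base edge -/
theorem Tr.tc {a b : ℂ} {l : List ℂ} (h : Tr a l b) : TC (a :: (l ++ [b])) := by
  intro a' l' b' hr
  refine rot_ind (p := fun Q => ∀ a l b, Q = a :: (l ++ [b]) → Tr a l b) ?_ hr ?_ a' l' b' rfl
  · intro x m ih a₁ l₁ b₁ e
    rw [← List.cons_append] at e
    obtain ⟨rfl, e2⟩ := List.append_inj' e rfl
    obtain rfl : x = b₁ := by simpa using e2
    rcases List.eq_nil_or_concat l₁ with rfl | ⟨l₂, y, rfl⟩
    · exact Tr.seg _ _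
    · rw [List.concat_eq_append]
      exact (ih x (a₁ :: l₂) y (by simp)).rot_one rfl
  · intro a₁ l₁ b₁ e
    obtain ⟨rfl, e1⟩ := List.cons.inj e
    obtain ⟨rfl, e2⟩ := List.append_inj' e1 rfl
    obtain rfl : b = b₁ := by simpa using e2
    exact h

theorem TC.rot {P Q : List ℂ} (h : TC P) (hr : P ~r Q) : TC Q :=
  fun a l b h' => h a l b (hr.trans h')

/-- the corner at an exposed vertex turns left -/
theorem Tr.expo {v a φ : ℂ} {m : List ℂ} (h : Tr v m a) :
    ∀ {b : ℂ} {l : List ℂ}, m = b :: l → (∀ x ∈ b :: (l ++ [a]), 0 < (conj φ * (x - v)).re) →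
      0 < wdg (b - v) (a - v) := by
  induction h with
  | seg a b => intro x l e; simp at e
  | @glue v z a u w hw h1 h2 ih1 _ =>
    intro b l e hφ
    rw [← wdg_base] at hw
    cases u with
    | nil =>
      obtain ⟨rfl, rfl⟩ : z = b ∧ w = l := by simpa using e
      exact hw
    | cons x u' =>
      obtain ⟨rfl, rfl⟩ : x = b ∧ u' ++ z :: w = l := by simpa using e
      refine wdg_trans (hφ x (by simp)) (hφ z (by simp)) (hφ a (by simp))
        (ih1 rfl fun y hy => hφ y ?_) hw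
      simp at hy ⊢
      tauto

end geometry

end Pool.Agent.MP_334d28_an.K

end

section

/-!
Laminar systems are coherent.
-/

open Polynomial Finset
open scoped Real ComplexConjugate

namespace Pool.Agent.MP_334d28_an.K

/-- the sign of a choice -/
def sg_lam (b : Bool) : ℝ := bif b then -1 else 1

theorem sg_sq_lam (b : Bool) : sg_lam b ^ 2 = 1 := by
  cases b <;> simp [sg_lam]

theorem sn_neg_lam {s t : ℝ} (h : s < t) (h' : t < s + 2 * π) : sn s t < 0 := by
  rw [sn_swap]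
  exact neg_lt_zero.2 (sn_pos h h')

theorem pair_lam {n : ℕ} {ψ : Fin n → Bool → ℝ} {inn : Fin n → Finset (Fin n)}
    (h1 : ∀ i, ∀ j ∈ inn i, ∀ τ, ψ i false < ψ j τ ∧ ψ j τ < ψ i true)
    (h2 : ∀ i j, i ≠ j → j ∈ inn i ∨ i ∈ inn j ∨ (∀ σ τ, ψ i σ < ψ j τ) ∨ ∀ σ τ, ψ j τ < ψ i σ)
    (h3 : ∀ i j σ τ, ψ j τ < ψ i σ + 2 * π) {i j : Fin n} (hij : i ≠ j) (r t : Bool) :
    0 < sn (ψ j t) (ψ i r) * sn (ψ j false) (ψ i false) *
      ((if j ∈ inn i then sg_lam r else 1) * if i ∈ inn j then sg_lam t else 1) := by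
  by_cases a : j ∈ inn i
  · have b : i ∉ inn j := fun b => lt_asymm (h1 i j a false).1 (h1 j i b false).1
    have p := sn_pos (h1 i j a false).1 (h3 i j false false)
    rw [if_pos a, if_neg b]
    cases r
    · have q := sn_pos (h1 i j a t).1 (h3 i j false t)
      simp only [sg_lam, cond_false]
      positivity
    · have q := sn_neg_lam (h1 i j a t).2 (h3 j i t true)
      simp only [sg_lam, cond_true]
      nlinarith [mul_pos (neg_pos.2 q) p]
  · rw [if_neg a]
    by_cases b : i ∈ inn j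
    · have p := sn_neg_lam (h1 j i b false).1 (h3 j i false false)
      rw [if_pos b]
      cases t
      · have q := sn_neg_lam (h1 j i b r).1 (h3 j i false r)
        simp only [sg_lam, cond_false]
        nlinarith [mul_pos_of_neg_of_neg q p]
      · have q := sn_pos (h1 j i b r).2 (h3 i j r true)
        simp only [sg_lam, cond_true]
        nlinarith [mul_pos q (neg_pos.2 p)]
    · rw [if_neg b, mul_one, mul_one]
      rcases h2 i j hij with h | h | h | h
      · exact absurd h a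
      · exact absurd h b
      · exact mul_pos (sn_pos (h _ _) (h3 _ _ _ _)) (sn_pos (h _ _) (h3 _ _ _ _))
      · exact mul_pos_of_neg_of_neg (sn_neg_lam (h _ _) (h3 _ _ _ _))
          (sn_neg_lam (h _ _) (h3 _ _ _ _))

theorem one_lam {c : Bool → ℝ} {m : ℕ} (h : 0 < (-1) ^ m * (c false * c true)) (r : Bool) :
    0 < c r * c false * sg_lam r ^ m := by
  cases r
  · have : c false ≠ 0 := fun e => by simp [e] at h
    simp only [sg_lam, cond_false, one_pow, mul_one]
    exact mul_self_pos.2 this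
  · simp only [sg_lam, cond_true]
    linarith

theorem lam_st : LAM_st := by
  intro n ψ c inn h1 h2 h3 h4
  have h0 : ∀ i, i ∉ inn i := fun i a => lt_irrefl _ (h1 i i a false).1
  have key : ∀ S, 0 < Om ψ c S * Om ψ c fun _ => false := by
    intro S
    have a : 0 < ∏ i, c i (S i) * c i false * sg_lam (S i) ^ (inn i).card :=
      prod_pos fun i _ => one_lam (h4 i) (S i)
    have b : 0 < ∏ i, ∏ j ∈ Ioi i, sn (ψ j (S j)) (ψ i (S i)) * sn (ψ j false) (ψ i false) *
        ((if j ∈ inn i then sg_lam (S i) else 1) * if i ∈ inn j then sg_lam (S j) else 1) :=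
      prod_pos fun i _ => prod_pos fun j hj => pair_lam h1 h2 h3 (mem_Ioi.1 hj).ne _ _
    have e : ∏ i, ∏ j ∈ Ioi i, ((if j ∈ inn i then sg_lam (S i) else 1) *
        if i ∈ inn j then sg_lam (S j) else 1) = ∏ i, sg_lam (S i) ^ (inn i).card := by
      rw [prod_prod_Ioi_mul_eq_prod_prod_off_diag
        (fun j i => if j ∈ inn i then sg_lam (S i) else 1)]
      refine prod_congr rfl fun i _ => ?_
      rw [prod_ite_mem, prod_const, inter_eq_right.2]
      intro j hj
      rw [mem_compl, mem_singleton]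
      rintro rfl
      exact h0 _ hj
    have s : (∏ i, sg_lam (S i) ^ (inn i).card) ^ 2 = 1 := by
      rw [← prod_pow]
      exact prod_eq_one fun i _ => by rw [← pow_mul, mul_comm, pow_mul, sg_sq_lam, one_pow]
    simp only [prod_mul_distrib (f := fun j => sn (ψ j (S j)) _ * _)] at b
    rw [prod_mul_distrib, e] at b
    simp only [prod_mul_distrib] at a b
    have p := mul_pos a b
    rw [Om, Om]
    refine p.trans_eq ?_
    linear_combination (∏ i, c i (S i)) * (∏ i, c i false) *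
      (∏ i, ∏ j ∈ Ioi i, sn (ψ j (S j)) (ψ i (S i))) *
      (∏ i, ∏ j ∈ Ioi i, sn (ψ j false) (ψ i false)) * s
  intro S S'
  have a := key S
  have b := key S'
  have z : (Om ψ c fun _ => false) ≠ 0 := fun e => by simp [e] at a
  have p := mul_pos a b
  have e : (Om ψ c S * Om ψ c fun _ => false) * (Om ψ c S' * Om ψ c fun _ => false) =
      Om ψ c S * Om ψ c S' * ((Om ψ c fun _ => false) * Om ψ c fun _ => false) := by ring
  rw [e] at p
  exact (mul_pos_iff_of_pos_right (mul_self_pos.2 z)).1 p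

end Pool.Agent.MP_334d28_an.K

end

section

open Polynomial Finset
open scoped Real ComplexConjugate

namespace Pool.Agent.MP_334d28_an.K

section gen

variable {n : ℕ}

/-- determinant with columns chosen from a family -/
noncomputable def Gd_ens (V : ℝ → Fin n → ℂ) (a : Fin n → ℝ) : ℂ :=
  (Matrix.of fun i j : Fin n => V (a j) i).det

theorem zero_ens (V : ℝ → Fin n → ℂ) (a : Fin n → ℝ) {j k : Fin n} (h : j ≠ k)
    (e : a j = a k) : Gd_ens V a = 0 :=
  Matrix.det_zero_of_column_eq h fun i => by simp [e]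

theorem upd_ens (V : ℝ → Fin n → ℂ) (a : Fin n → ℝ) (k : Fin n) (x : ℝ) :
    Gd_ens V (Function.update a k x) =
      ((Matrix.of fun i j : Fin n => V (a j) i).updateCol k (V x)).det := by
  unfold Gd_ens
  congr 1
  ext i j
  by_cases h : j = k
  · subst h; simp
  · simp [Matrix.updateCol_ne h, Function.update_of_ne h]

theorem lin_ens (V : ℝ → Fin n → ℂ) (a : Fin n → ℝ) (k : Fin n) (s : Finset ℕ) (w : ℕ → ℂ)
    (e : ℕ → ℝ) (h : ∑ m ∈ s, w m • V (e m) = 0) :
    ∑ m ∈ s, w m * Gd_ens V (Function.update a k (e m)) = 0 := by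
  have key : ∀ s : Finset ℕ, ∑ m ∈ s, w m * Gd_ens V (Function.update a k (e m)) =
      ((Matrix.of fun i j : Fin n => V (a j) i).updateCol k (∑ m ∈ s, w m • V (e m))).det := by
    intro s
    induction s using Finset.induction_on with
    | empty =>
      simp only [sum_empty]
      exact (Matrix.det_eq_zero_of_column_eq_zero k fun i => by simp).symm
    | insert x s hx ih =>
      rw [sum_insert hx, sum_insert hx, Matrix.det_updateCol_add, Matrix.det_updateCol_smul, ih,
        upd_ens]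
  rw [key, h]
  exact Matrix.det_eq_zero_of_column_eq_zero k fun i => by simp

theorem swap_ens (V : ℝ → Fin n → ℂ) (a : Fin n → ℝ) {j k : Fin n} (h : j ≠ k) :
    Gd_ens V (a ∘ Equiv.swap j k) = -Gd_ens V a := by
  have := Matrix.det_permute' (Equiv.swap j k) (Matrix.of fun i j : Fin n => V (a j) i)
  rw [Equiv.Perm.sign_swap h] at this
  refine Eq.trans this ?_
  simp [Gd_ens]

theorem pieri_ens (ψ : Fin n → ℝ) (a : Fin n → ℝ) (m : ℝ) :
    (∑ i, ee (m * ψ i)) * Gd_ens (fun x i => ee (x * ψ i)) a =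
      ∑ k, Gd_ens (fun x i => ee (x * ψ i)) (Function.update a k (a k + m)) := by
  simp only [Gd_ens, Matrix.det_apply', Matrix.of_apply]
  rw [sum_comm, mul_sum]
  refine sum_congr rfl fun σ _ => ?_
  rw [← Equiv.sum_comp σ, sum_mul]
  refine sum_congr rfl fun k _ => ?_
  rw [← mul_prod_erase univ _ (mem_univ k), ← mul_prod_erase univ _ (mem_univ k)]
  have : ∏ x ∈ univ.erase k, ee (Function.update a k (a k + m) x * ψ (σ x)) =
      ∏ x ∈ univ.erase k, ee (a x * ψ (σ x)) :=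
    prod_congr rfl fun x hx => by rw [Function.update_of_ne (ne_of_mem_erase hx)]
  rw [this, Function.update_self, add_mul, ee_add]
  ring

end gen

section base

variable {N : ℕ}

/-- the base exponents -/
def b_ens (N : ℕ) (j : Fin (2 * N + 1)) : ℝ := ((j : ℕ) : ℝ) - N

/-- the last index -/
def top_ens (N : ℕ) : Fin (2 * N + 1) := ⟨2 * N, by omega⟩

/-- the index before the last -/
def sec_ens (N : ℕ) : Fin (2 * N + 1) := ⟨2 * N - 1, by omega⟩

/-- the first index -/
def bot_ens (N : ℕ) : Fin (2 * N + 1) := ⟨0, by omega⟩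

theorem btop_ens : b_ens N (top_ens N) = N := by simp [b_ens, top_ens]; ring

theorem bsec_ens (hN : 1 ≤ N) : b_ens N (sec_ens N) = N - 1 := by
  simp only [b_ens, sec_ens]
  rw [Nat.cast_sub (by omega)]
  push_cast; ring

theorem p1_ens (ψ : Fin (2 * N + 1) → ℝ) :
    (∑ i, ee (1 * ψ i)) * Gd_ens (fun x i => ee (x * ψ i)) (b_ens N) =
      Gd_ens (fun x i => ee (x * ψ i)) (Function.update (b_ens N) (top_ens N) (N + 1)) := by
  rw [pieri_ens, Fintype.sum_eq_single (top_ens N), btop_ens]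
  intro k hk
  have h1 : (k : ℕ) + 1 < 2 * N + 1 := by
    have := k.2
    have : (k : ℕ) ≠ 2 * N := fun e => hk (Fin.ext e)
    omega
  have h2 : (⟨k + 1, h1⟩ : Fin (2 * N + 1)) ≠ k := by simp [Fin.ext_iff]
  refine zero_ens _ _ h2 ?_
  rw [Function.update_of_ne h2, Function.update_self]
  simp [b_ens]; ring

theorem p2_ens (hN : 1 ≤ N) (ψ : Fin (2 * N + 1) → ℝ) :
    (∑ i, ee (1 * ψ i)) *
        Gd_ens (fun x i => ee (x * ψ i)) (Function.update (b_ens N) (top_ens N) (N + 1)) =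
      Gd_ens (fun x i => ee (x * ψ i)) (Function.update (b_ens N) (top_ens N) (N + 2)) +
        Gd_ens (fun x i => ee (x * ψ i))
          (Function.update (Function.update (b_ens N) (sec_ens N) N) (top_ens N) (N + 1)) := by
  have hts : top_ens N ≠ sec_ens N := by simp [top_ens, sec_ens, Fin.ext_iff]; omega
  rw [pieri_ens, Fintype.sum_eq_add (top_ens N) (sec_ens N) hts]
  · rw [Function.update_self, Function.update_idem, Function.update_of_ne hts.symm, bsec_ens hN,
      Function.update_comm hts]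
    rw [show (N : ℝ) + 1 + 1 = N + 2 by ring, show (N : ℝ) - 1 + 1 = N by ring]
  rintro k ⟨hk, hk'⟩
  have h0 : (k : ℕ) + 1 < 2 * N := by
    have := k.2
    have : (k : ℕ) ≠ 2 * N := fun e => hk (Fin.ext e)
    have : (k : ℕ) ≠ 2 * N - 1 := fun e => hk' (Fin.ext e)
    omega
  have h1 : (k : ℕ) + 1 < 2 * N + 1 := by omega
  have h2 : (⟨k + 1, h1⟩ : Fin (2 * N + 1)) ≠ k := by simp [Fin.ext_iff]
  have h3 : (⟨k + 1, h1⟩ : Fin (2 * N + 1)) ≠ top_ens N := by
    simp [Fin.ext_iff, top_ens]; omega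
  refine zero_ens _ _ h2 ?_
  rw [Function.update_of_ne h2, Function.update_self, Function.update_of_ne h3,
    Function.update_of_ne hk]
  simp [b_ens]; ring

theorem p3_ens (hN : 1 ≤ N) (ψ : Fin (2 * N + 1) → ℝ) :
    (∑ i, ee (-1 * ψ i)) *
        Gd_ens (fun x i => ee (x * ψ i)) (Function.update (b_ens N) (top_ens N) (N + 1)) =
      Gd_ens (fun x i => ee (x * ψ i)) (b_ens N) +
        Gd_ens (fun x i => ee (x * ψ i))
          (Function.update (Function.update (b_ens N) (bot_ens N) (-N - 1)) (top_ens N)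
            (N + 1)) := by
  have htb : top_ens N ≠ bot_ens N := by simp [top_ens, bot_ens, Fin.ext_iff]; omega
  rw [pieri_ens, Fintype.sum_eq_add (top_ens N) (bot_ens N) htb]
  · rw [Function.update_self, Function.update_idem, Function.update_of_ne htb.symm,
      Function.update_comm htb]
    congr 2
    · rw [Function.update_eq_self_iff, btop_ens]; ring
    · congr 2
      simp [b_ens, bot_ens]; ring
  rintro k ⟨hk, hk'⟩
  have h0 : (k : ℕ) ≠ 0 := fun e => hk' (Fin.ext e)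
  have h1 : (k : ℕ) - 1 < 2 * N + 1 := by omega
  have h2 : (⟨k - 1, h1⟩ : Fin (2 * N + 1)) ≠ k := by simp [Fin.ext_iff]; omega
  have h3 : (⟨k - 1, h1⟩ : Fin (2 * N + 1)) ≠ top_ens N := by
    have := k.2
    simp [Fin.ext_iff, top_ens]; omega
  refine zero_ens _ _ h2 ?_
  rw [Function.update_of_ne h2, Function.update_self, Function.update_of_ne h3,
    Function.update_of_ne hk]
  simp only [b_ens]
  rw [Nat.cast_sub (by omega)]
  push_cast; ring

variable (V : ℝ → Fin (2 * N + 1) → ℂ) (w : ℕ → ℂ)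

/-- a column that repeats a base column gives zero -/
theorem rep_ens (a : Fin (2 * N + 1) → ℝ) (m : ℕ) (hm : m < 2 * N)
    (ha : a ⟨m, by omega⟩ = m - N) :
    Gd_ens V (Function.update a (top_ens N) (m - N)) = 0 := by
  have h3 : (⟨m, by omega⟩ : Fin (2 * N + 1)) ≠ top_ens N := by
    simp [Fin.ext_iff, top_ens]; omega
  refine zero_ens _ _ h3 ?_
  rw [Function.update_of_ne h3, Function.update_self, ha]

theorem c1_ens (h : ∑ m ∈ range (2 * N + 2), w m • V (m - N) = 0)
    (h1 : w (2 * N + 1) = 1) (h2 : w (2 * N) = 0) (h0 : w 0 = 0) :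
    Gd_ens V (Function.update (Function.update (b_ens N) (bot_ens N) (-N - 1)) (top_ens N)
      (N + 1)) = 0 := by
  have := lin_ens V (Function.update (b_ens N) (bot_ens N) (-N - 1)) (top_ens N) _ w
    (fun m => m - N) h
  rw [sum_range_succ, sum_range_succ, h1, h2, sum_eq_zero] at this
  · simp only [zero_mul, zero_add, one_mul] at this
    rw [← this]
    congr 2
    push_cast; ring
  intro m hm
  rcases Nat.eq_zero_or_pos m with rfl | hp
  · rw [h0, zero_mul]
  · rw [rep_ens V _ m (mem_range.1 hm), mul_zero]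
    rw [Function.update_of_ne (by simp [Fin.ext_iff, bot_ens]; omega)]
    simp [b_ens]

theorem c2_ens (hN : 1 ≤ N) (h : ∑ m ∈ range (2 * N + 2), w m • V (m - N) = 0)
    (h1 : w (2 * N + 1) = 1) (h2 : w (2 * N) = 0) :
    Gd_ens V (Function.update (Function.update (b_ens N) (sec_ens N) N) (top_ens N) (N + 1)) =
      w (2 * N - 1) * Gd_ens V (b_ens N) := by
  have hts : top_ens N ≠ sec_ens N := by simp [top_ens, sec_ens, Fin.ext_iff]; omega
  have := lin_ens V (Function.update (b_ens N) (sec_ens N) N) (top_ens N) _ w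
    (fun m => m - N) h
  rw [sum_range_succ, sum_range_succ, h1, h2, sum_eq_single (2 * N - 1)] at this
  · have e1 : Function.update (Function.update (b_ens N) (sec_ens N) N) (top_ens N)
        (((2 * N - 1 : ℕ) : ℝ) - N) = b_ens N ∘ Equiv.swap (top_ens N) (sec_ens N) := by
      funext j
      by_cases hj : j = top_ens N
      · subst hj; simp [b_ens, sec_ens]
      · rw [Function.update_of_ne hj]
        by_cases hj' : j = sec_ens N
        · subst hj'; simp [btop_ens]
        · rw [Function.update_of_ne hj', Function.comp_apply, Equiv.swap_apply_of_ne_of_ne hj hj']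
    have e2 : (((2 * N + 1 : ℕ) : ℝ) - N) = N + 1 := by push_cast; ring
    rw [e1, e2, swap_ens _ _ hts] at this
    linear_combination this
  · intro m hm hne
    rw [rep_ens V _ m (mem_range.1 hm), mul_zero]
    rw [Function.update_of_ne (by simpa [Fin.ext_iff, sec_ens] using hne)]
    simp [b_ens]
  · intro hm
    exact absurd (mem_range.2 (by omega)) hm

theorem c3_ens (h : ∑ m ∈ range (2 * N + 3), w m • V (m - N) = 0)
    (h1 : w (2 * N + 2) = 1) (h2 : w (2 * N + 1) = 0) :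
    Gd_ens V (Function.update (b_ens N) (top_ens N) (N + 2)) =
      -w (2 * N) * Gd_ens V (b_ens N) := by
  have := lin_ens V (b_ens N) (top_ens N) _ w (fun m => m - N) h
  rw [sum_range_succ, sum_range_succ, sum_range_succ, h1, h2, sum_eq_zero] at this
  · have e1 : Function.update (b_ens N) (top_ens N) (((2 * N : ℕ) : ℝ) - N) = b_ens N := by
      rw [Function.update_eq_self_iff]; rfl
    have e2 : (((2 * N + 2 : ℕ) : ℝ) - N) = N + 2 := by push_cast; ring
    rw [e1, e2] at this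
    linear_combination this
  · intro m hm
    rw [rep_ens V _ m (mem_range.1 hm), mul_zero]
    simp [b_ens]

end base

theorem ann_ens {n N d : ℕ} (ψ c : Fin n → Bool → ℝ) (R : ℂ[X]) (hd : R.natDegree < d)
    (h : ∀ i, ∑ σ, (c i σ : ℂ) * (ee (-(N * ψ i σ)) * R.eval (ee (ψ i σ))) = 0) :
    ∑ m ∈ range d, R.coeff m • (fun (x : ℝ) i => ∑ σ, (c i σ : ℂ) * ee (x * ψ i σ)) (m - N) = 0 := by
  funext i
  rw [Finset.sum_apply, Pi.zero_apply, ← h i]
  simp only [Pi.smul_apply, smul_eq_mul, mul_sum, eval_eq_sum_range' hd]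
  rw [sum_comm]
  refine sum_congr rfl fun σ _ => sum_congr rfl fun m _ => ?_
  rw [← ee_nat, show ((m : ℝ) - N) * ψ i σ = -(N * ψ i σ) + m * ψ i σ by ring, ee_add]
  ring

theorem ens_st (hvdm : VDM_st) : ENS_st := by
  intro N ψ c R₁ R₂ hN hc m1 d1 m2 d2 z1 z0 z2 a1 a2
  set V : ℝ → Fin (2 * N + 1) → ℂ := fun x i => ∑ σ, (c i σ : ℂ) * ee (x * ψ i σ) with hV
  have hF : ∀ a, Gd_ens V a = ∑ S : Fin (2 * N + 1) → Bool, ((∏ i, c i (S i) : ℝ) : ℂ) *
      Gd_ens (fun x i => ee (x * ψ i (S i))) a := fun a => hvdm.2 _ ψ c a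
  obtain ⟨K, hK, hD⟩ : ∃ K : ℂ, K ≠ 0 ∧ ∀ S : Fin (2 * N + 1) → Bool, ((∏ i, c i (S i) : ℝ) : ℂ) *
      Gd_ens (fun x i => ee (x * ψ i (S i))) (b_ens N) = K * (Om ψ c S : ℝ) := by
    refine ⟨∏ i : Fin (2 * N + 1), ∏ _j ∈ Ioi i, 2 * Complex.I,
      prod_ne_zero_iff.2 fun i _ => prod_ne_zero_iff.2 fun j _ => by simp, fun S => ?_⟩
    have := hvdm.1 (2 * N + 1) fun i => ψ i (S i)
    have e : (((2 * N + 1 : ℕ) : ℝ) - 1) / 2 = N := by push_cast; ring
    rw [e] at this
    rw [show Gd_ens (fun x i => ee (x * ψ i (S i))) (b_ens N) = _ from this, Om]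
    push_cast
    ring
  have r1 := ann_ens ψ c R₁ (d := 2 * N + 2) (by omega) a1
  have r2 := ann_ens ψ c R₂ (d := 2 * N + 3) (by omega) a2
  have l1 : R₁.coeff (2 * N + 1) = 1 := by rw [← d1]; exact m1
  have l2 : R₂.coeff (2 * N + 2) = 1 := by rw [← d2]; exact m2
  have k1 := c1_ens V R₁.coeff r1 l1 z1 z0
  have k2 := c2_ens V R₁.coeff hN r1 l1 z1
  have k3 := c3_ens V R₂.coeff r2 l2 z2
  set p : (Fin (2 * N + 1) → Bool) → ℂ := fun S => ∑ i, ee (1 * ψ i (S i)) with hp
  have hb : Gd_ens V (b_ens N) = K * ∑ S, ((Om ψ c S : ℝ) : ℂ) := by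
    rw [hF, mul_sum]; exact sum_congr rfl fun S _ => hD S
  have s1 : ∑ S, ((Om ψ c S : ℝ) : ℂ) * p S ^ 2 =
      (R₁.coeff (2 * N - 1) - R₂.coeff (2 * N)) * ∑ S, ((Om ψ c S : ℝ) : ℂ) := by
    apply mul_left_cancel₀ hK
    have : K * ∑ S, ((Om ψ c S : ℝ) : ℂ) * p S ^ 2 =
        Gd_ens V (Function.update (b_ens N) (top_ens N) (N + 2)) + Gd_ens V
          (Function.update (Function.update (b_ens N) (sec_ens N) N) (top_ens N) (N + 1)) := by
      rw [hF, hF, ← sum_add_distrib, mul_sum]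
      refine sum_congr rfl fun S _ => ?_
      rw [← mul_add, ← p2_ens hN, ← p1_ens, ← mul_assoc K, ← hD]
      simp only [hp]; ring
    rw [this, k2, k3, hb]; ring
  have s2 : ∑ S, Om ψ c S * ‖p S‖ ^ 2 = ∑ S, Om ψ c S := by
    have : K * ∑ S, ((Om ψ c S : ℝ) : ℂ) * (conj (p S) * p S) =
        Gd_ens V (b_ens N) + Gd_ens V (Function.update
          (Function.update (b_ens N) (bot_ens N) (-N - 1)) (top_ens N) (N + 1)) := by
      rw [hF, hF, ← sum_add_distrib, mul_sum]
      refine sum_congr rfl fun S _ => ?_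
      rw [← mul_add, ← p3_ens hN, ← p1_ens, ← mul_assoc K, ← hD]
      simp only [hp, map_sum, conj_ee, neg_mul, one_mul]; ring
    rw [k1, add_zero, hb] at this
    have := mul_left_cancel₀ hK this
    simp only [Complex.conj_mul'] at this
    exact_mod_cast this
  set S₀ : Fin (2 * N + 1) → Bool := fun _ => false
  have hU : 0 < ∑ S, Om ψ c S * Om ψ c S₀ := sum_pos (fun S _ => hc S S₀) univ_nonempty
  have s3 : (R₁.coeff (2 * N - 1) - R₂.coeff (2 * N)) * ((∑ S, Om ψ c S * Om ψ c S₀ : ℝ) : ℂ) =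
      ∑ S, ((Om ψ c S * Om ψ c S₀ : ℝ) : ℂ) * p S ^ 2 := by
    rw [← sum_mul]
    push_cast
    rw [← mul_assoc, ← s1, sum_mul]
    exact sum_congr rfl fun S _ => by ring
  have s4 : ‖R₁.coeff (2 * N - 1) - R₂.coeff (2 * N)‖ * ∑ S, Om ψ c S * Om ψ c S₀ ≤
      1 * ∑ S, Om ψ c S * Om ψ c S₀ := by
    have := congrArg norm s3
    rw [norm_mul, Complex.norm_real, Real.norm_of_nonneg hU.le] at this
    rw [this, one_mul, ← sum_mul, ← s2, sum_mul]
    refine (norm_sum_le _ _).trans (le_of_eq (sum_congr rfl fun S _ => ?_))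
    rw [norm_mul, Complex.norm_real, Real.norm_of_nonneg (hc S S₀).le, norm_pow]
    ring
  exact le_of_mul_le_mul_right s4 hU

end Pool.Agent.MP_334d28_an.K

end

section

open Polynomial Finset
open scoped Real ComplexConjugate

namespace Pool.Agent.MP_334d28_an.K

theorem re_pos_mon {u : ℂ} (h : ‖u‖ ≤ 1) (h1 : u ≠ 1) : 0 < (1 - u).re := by
  have a := Complex.re_le_norm u
  rcases (a.trans h).eq_or_lt with e | e
  · exfalso
    apply h1
    have b : ‖u‖ ^ 2 ≤ 1 := by nlinarith [norm_nonneg u]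
    rw [Complex.sq_norm, Complex.normSq_apply, e] at b
    exact Complex.ext e (by simp only [Complex.one_im]; nlinarith)
  · simp only [Complex.sub_re, Complex.one_re]
    linarith

theorem nonneg_mon {u : ℂ} (h : ‖u‖ ≤ 1) : 0 ≤ 1 / 2 + (Complex.I * u / (1 - u)).im := by
  by_cases h1 : u = 1
  · simp [h1]
  have h2 : 0 < Complex.normSq (1 - u) := Complex.normSq_pos.mpr (sub_ne_zero.mpr (Ne.symm h1))
  have b : ‖u‖ ^ 2 ≤ 1 := by nlinarith [norm_nonneg u]
  rw [Complex.sq_norm, Complex.normSq_apply] at b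
  have e : 1 / 2 + (Complex.I * u / (1 - u)).im =
      (1 - (u.re * u.re + u.im * u.im)) / (2 * Complex.normSq (1 - u)) := by
    rw [Complex.div_im]
    field_simp
    simp [Complex.normSq_apply]
    ring
  rw [e]
  exact div_nonneg (by linarith) (by linarith)

theorem lt_mon {w : ℂ} (h : ‖w‖ < 1) :
    Monotone fun t : ℝ => t / 2 + Complex.arg (1 - w * ee (-t)) := by
  have hn : ∀ t, ‖w * ee (-t)‖ < 1 := fun t => by rwa [norm_mul, norm_ee, mul_one]
  have hp : ∀ t, 0 < (1 - w * ee (-t)).re := fun t =>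
    re_pos_mon (hn t).le fun e => by have := hn t; rw [e] at this; simp at this
  have hd : ∀ t, HasDerivAt (fun t : ℝ => t / 2 + Complex.arg (1 - w * ee (-t)))
      (1 / 2 + (Complex.I * (w * ee (-t)) / (1 - w * ee (-t))).im) t := by
    intro t
    have a : HasDerivAt (fun t : ℝ => ee (-t)) (-(Complex.I * ee (-t))) t := by
      have := (hasDerivAt_ee (-t)).scomp t (hasDerivAt_neg t)
      rw [neg_one_smul] at this
      exact this
    have b : HasDerivAt (fun t : ℝ => 1 - w * ee (-t)) (Complex.I * (w * ee (-t))) t := by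
      have := (a.const_mul w).const_sub 1
      rwa [show -(w * -(Complex.I * ee (-t))) = Complex.I * (w * ee (-t)) by ring] at this
    have c := b.clog_real (Or.inl (hp t))
    have d := Complex.imCLM.hasFDerivAt.comp_hasDerivAt t c
    have e := ((hasDerivAt_id t).div_const 2).add d
    simp only [Complex.imCLM_apply] at e
    refine e.congr_of_eventuallyEq (Filter.Eventually.of_forall fun s => ?_)
    simp [Complex.log_im]
  exact monotone_of_hasDerivAt_nonneg hd fun t => nonneg_mon (hn t).le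

theorem mon_st : MON_st := by
  intro w s t hw hst hs ht
  have key : ∀ x : ℝ, ee x ≠ w → Filter.Tendsto
      (fun r : ℝ => x / 2 + Complex.arg (1 - (r : ℂ) * w * ee (-x))) (nhdsWithin 1 (Set.Iio 1))
      (nhds (x / 2 + Complex.arg (1 - w * ee (-x)))) := by
    intro x hx
    have hp : 0 < (1 - w * ee (-x)).re := by
      refine re_pos_mon (by rwa [norm_mul, norm_ee, mul_one]) fun e => hx ?_
      rw [← one_mul (ee x), ← e, mul_assoc, mul_comm (ee (-x)), ee_mul_neg, mul_one]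
    have hc : Filter.Tendsto (fun r : ℝ => 1 - (r : ℂ) * w * ee (-x)) (nhds 1)
        (nhds (1 - w * ee (-x))) := by
      have : Continuous fun r : ℝ => 1 - (r : ℂ) * w * ee (-x) := by fun_prop
      simpa using this.tendsto 1
    exact (((Complex.continuousAt_arg (Or.inl hp)).tendsto.comp hc).const_add _).mono_left
      nhdsWithin_le_nhds
  refine le_of_tendsto_of_tendsto (key s hs) (key t ht) ?_
  filter_upwards [Ioo_mem_nhdsLT (show (0 : ℝ) < 1 by norm_num)] with r hr
  refine lt_mon (w := r * w) ?_ hst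
  rw [norm_mul, Complex.norm_real, Real.norm_eq_abs, abs_of_pos hr.1]
  nlinarith [hr.1, hr.2, norm_nonneg w]

end Pool.Agent.MP_334d28_an.K

end

section

/-!
The signs of the weights are forced.
-/

open Polynomial Finset
open scoped Real ComplexConjugate

namespace Pool.Agent.MP_334d28_an.K

/-- the phase -/
noncomputable def ph_sgn {N : ℕ} (w : Fin N → ℂ) (t : ℝ) : ℝ :=
  t / 2 + ∑ j, (t / 2 + Complex.arg (1 - w j * ee (-t)))

/-- the modulus -/
noncomputable def rho_sgn {N : ℕ} (w : Fin N → ℂ) (t : ℝ) : ℝ := ∏ j, ‖1 - w j * ee (-t)‖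

theorem fac_sgn (w : ℂ) (t : ℝ) : ee t - w =
    ee (t / 2) * ((‖1 - w * ee (-t)‖ : ℝ) * ee (t / 2 + Complex.arg (1 - w * ee (-t)))) := by
  have h1 : ((‖1 - w * ee (-t)‖ : ℝ) : ℂ) * ee (Complex.arg (1 - w * ee (-t))) =
      1 - w * ee (-t) := Complex.norm_mul_exp_arg_mul_I _
  have h2 : ee (t / 2) * ee (t / 2) = ee t := by rw [← ee_add, add_halves]
  rw [ee_add]
  linear_combination (-(ee (t / 2) * ee (t / 2))) * h1 + (w * ee (-t) - 1) * h2 + w * ee_mul_neg t

theorem al_sgn {N : ℕ} (w : Fin N → ℂ) (t : ℝ) :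
    al N (∏ j, (X - C (w j))) t = (rho_sgn w t : ℝ) * ee (ph_sgn w t) := by
  have h1 : ee (-(((N : ℝ) - 1) * t / 2)) * ee (t / 2) ^ N = ee (t / 2) := by
    rw [← ee_nat, ← ee_add]
    congr 1
    ring
  rw [al, eval_prod]
  simp only [eval_sub, eval_X, eval_C]
  rw [prod_congr rfl fun j _ => fac_sgn (w j) t, prod_mul_distrib, prod_mul_distrib, prod_const,
    card_univ, Fintype.card_fin, ← mul_assoc, h1, ph_sgn, ee_add, ee_sum, rho_sgn,
    Complex.ofReal_prod]
  ring

theorem rho_pos_sgn {N : ℕ} {w : Fin N → ℂ} {t : ℝ} (h : ∀ j, ee t ≠ w j) : 0 < rho_sgn w t := by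
  refine prod_pos fun j _ => norm_pos_iff.2 fun e => h j ?_
  linear_combination ee t * e + w j * ee_mul_neg t

theorem ph_lt_sgn (hmon : MON_st) {N : ℕ} {w : Fin N → ℂ} (hw : ∀ j, ‖w j‖ ≤ 1) {s t : ℝ}
    (h : s < t) (hs : ∀ j, ee s ≠ w j) (ht : ∀ j, ee t ≠ w j) : ph_sgn w s < ph_sgn w t :=
  add_lt_add_of_lt_of_le (by linarith)
    (sum_le_sum fun j _ => hmon (w j) s t (hw j) h.le (hs j) (ht j))

theorem ph_per_sgn {N : ℕ} (w : Fin N → ℂ) (t : ℝ) :
    ph_sgn w (t + 2 * π) = ph_sgn w t + (N + 1) * π := by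
  have h1 : ee (-(t + 2 * π)) = ee (-t) := by rw [ee_neg, ee_add_two_pi, ee_neg]
  simp only [ph_sgn, h1, sum_add_distrib, sum_const, card_univ, Fintype.card_fin, nsmul_eq_mul]
  ring

theorem id_sgn {N : ℕ} (n : Fin N → ℤ) (hn : StrictMono n) (h0 : ∀ k, 0 < n k)
    (h1 : ∀ k, n k < N + 1) (k : Fin N) : n k = ((k : ℕ) + 1 : ℕ) := by
  have hf : StrictMono fun k => (⟨(n k - 1).toNat, by
      have := h0 k
      have := h1 k
      omega⟩ : Fin N) := fun a b hab => by
    have := hn hab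
    have := h0 a
    show (n a - 1).toNat < (n b - 1).toNat
    omega
  have a : (k : ℕ) ≤ (n k - 1).toNat := hf.le_apply (x := k)
  have b : (n k - 1).toNat ≤ (k : ℕ) := hf.apply_le (x := k)
  have := h0 k
  omega

theorem sgn_st (hmon : MON_st) : SGN_st := by
  intro N lo hi c w hN hw hne hc hA
  have hlo : ∀ k j, ee (lo k) ≠ w j := fun k => hne (k, false)
  have hhi : ∀ k j, ee (hi k) ≠ w j := fun k => hne (k, true)
  have key : ∀ k, ((c (k, false) * rho_sgn w (lo k) : ℝ) : ℂ) +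
      ((c (k, true) * rho_sgn w (hi k) : ℝ) : ℂ) * ee (ph_sgn w (hi k) - ph_sgn w (lo k)) = 0 :=
    fun k => by
      have h1 := hA.2.2 k
      rw [al_sgn, al_sgn] at h1
      rw [sub_eq_add_neg, ee_add]
      push_cast
      linear_combination ee (-ph_sgn w (lo k)) * h1 -
        (c (k, false) : ℂ) * rho_sgn w (lo k) * ee_mul_neg (ph_sgn w (lo k))
  have hs : ∀ k, ∃ n : ℤ, n * π = ph_sgn w (hi k) - ph_sgn w (lo k) := fun k => by
    have h1 := congrArg Complex.im (key k)
    rw [Complex.add_im, Complex.ofReal_im, Complex.im_ofReal_mul, ee_im, zero_add,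
      Complex.zero_im] at h1
    exact Real.sin_eq_zero_iff.1 ((mul_eq_zero.1 h1).resolve_left
      (mul_ne_zero (hc _) (rho_pos_sgn (hhi k)).ne'))
  choose n hn using hs
  have hp := Real.pi_pos
  have hid := id_sgn n (fun a b hab => by
      have h1 := ph_lt_sgn hmon hw (hN.anti hab) (hlo b) (hlo a)
      have h2 := ph_lt_sgn hmon hw (hN.mono hab) (hhi a) (hhi b)
      have h3 : (n a : ℝ) * π < n b * π := by rw [hn, hn]; linarith
      exact_mod_cast lt_of_mul_lt_mul_right h3 hp.le)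
    (fun k => by
      have h1 := ph_lt_sgn hmon hw (hN.lt k k) (hlo k) (hhi k)
      have h3 : (0 : ℝ) * π < n k * π := by rw [hn]; linarith
      exact_mod_cast lt_of_mul_lt_mul_right h3 hp.le)
    (fun k => by
      have h1 := ph_lt_sgn hmon hw (hN.win k k) (hhi k) (by rw [ee_add_two_pi]; exact hlo k)
      rw [ph_per_sgn] at h1
      have h3 : (n k : ℝ) * π < (N + 1) * π := by rw [hn]; linarith
      exact_mod_cast lt_of_mul_lt_mul_right h3 hp.le)
  intro k
  have h1 := congrArg Complex.re (key k)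
  rw [Complex.add_re, Complex.ofReal_re, Complex.re_ofReal_mul, ee_re, Complex.zero_re, ← hn, hid,
    Int.cast_natCast, Real.cos_nat_mul_pi, pow_succ] at h1
  have h2 : (-1) ^ (k : ℕ) * (c (k, false) * c (k, true)) * rho_sgn w (lo k) =
      ((-1) ^ (k : ℕ) * c (k, true)) ^ 2 * rho_sgn w (hi k) := by
    linear_combination (-1) ^ (k : ℕ) * c (k, true) * h1
  have h3 : 0 < ((-1 : ℝ) ^ (k : ℕ) * c (k, true)) ^ 2 * rho_sgn w (hi k) :=
    mul_pos (sq_pos_of_ne_zero (mul_ne_zero (pow_ne_zero _ (by norm_num)) (hc _)))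
      (rho_pos_sgn (hhi k))
  rw [← h2] at h3
  exact (pos_iff_pos_of_mul_pos h3).2 (rho_pos_sgn (hlo k))

end Pool.Agent.MP_334d28_an.K

end

section

/-!
The bound for the extremal numerators.
-/

open Polynomial Finset
open scoped Real ComplexConjugate

namespace Pool.Agent.MP_334d28_an.K

theorem prod_zero_fin {ι : Type*} (s : Finset ι) (a : ι → ℂ) :
    (∏ j ∈ s, (1 - C (a j) * X : ℂ[X])).eval 0 = 1 ∧
      (derivative (∏ j ∈ s, (1 - C (a j) * X : ℂ[X]))).eval 0 = -∑ j ∈ s, a j := by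
  classical
  induction s using Finset.induction_on with
  | empty => simp
  | insert i s hi ih =>
    rw [prod_insert hi, sum_insert hi, derivative_mul, eval_add, eval_mul, eval_mul, eval_mul, ih.1,
      ih.2]
    simp
    ring

theorem coh_mul_fin {N : ℕ} {lo hi : Fin N → ℝ} (hn : Nest lo hi) {p : ℝ} (hp : Out lo hi p)
    {c : Fin N × Bool → ℝ} (hc : Coh c) : Coh fun u => c u * sn (pt lo hi u) p := by
  intro k
  have h := mul_pos (hc k) (mul_pos (hp.sn_pos hn (k, false)) (hp.sn_pos hn (k, true)))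
  exact h.trans_eq (by ring)

theorem fin_st (hconv : CONV_st) (hsgn : SGN_st) (hexa : EXA_st) (hgas : GAS_st)
    (hres : RES_st) : FIN_st := by
  intro N p lo hi τ w hn ho hw hP hQ
  have a0 := hconv N p lo hi τ w hn ho hP
  have hQ' : ∀ u, (∀ j, 1 - ee (-τ j) * ee (pt lo hi u) ≠ 0) ∧
      ∀ j, 1 - conj (w j) * ee (pt lo hi u) ≠ 0 := by
    intro u
    have h := hQ u
    simp only [QX, eval_mul, eval_prod, eval_sub, eval_one, eval_C, eval_X, mul_ne_zero_iff,
      prod_ne_zero_iff, mem_univ, forall_true_left] at h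
    exact h
  have hs : ∀ i u, 0 < sn (pt lo hi u) (p i) := fun i u => (ho i).sn_pos hn u
  have c0 : Coh fun u => wt lo hi τ u / ∏ i, sn (pt lo hi u) (p i) := by
    refine hsgn N lo hi _ w hn hw (fun u j e => (hQ' u).2 j ?_) (fun u => ?_) a0
    · rw [← e, conj_ee, mul_comm, ee_mul_neg, sub_self]
    · refine div_ne_zero (div_ne_zero (prod_ne_zero_iff.2 fun j _ e => (hQ' u).1 j ?_)
        (prod_ne_zero_iff.2 fun v hv => hn.sn_ne (ne_of_mem_erase hv).symm))
        (prod_ne_zero_iff.2 fun i _ => (hs i u).ne')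
      have h := ee_sub (pt lo hi u) (τ j)
      rw [e, Complex.ofReal_zero, mul_zero, zero_mul, sub_eq_zero] at h
      rw [h, mul_comm, ee_mul_neg, sub_self]
  have c1 := coh_mul_fin hn (ho 0) c0
  have c2 := coh_mul_fin hn (ho 1) c1
  have c3 := coh_mul_fin hn (ho 2) c2
  have c4 := coh_mul_fin hn (ho 3) c3
  obtain ⟨A1, a1, -⟩ := hexa N lo hi _ hn c1
  obtain ⟨A2, a2, -⟩ := hexa N lo hi _ hn c2
  obtain ⟨A3, a3, -⟩ := hexa N lo hi _ hn c3
  obtain ⟨A4, a4, b4⟩ := hexa N lo hi _ hn c4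
  have g1 := hgas N lo hi (p 0) _ _ _ hn (ho 0) c0 a0 a1
  have g2 := hgas N lo hi (p 1) _ _ _ hn (ho 1) c1 a1 a2
  have g3 := hgas N lo hi (p 2) _ _ _ hn (ho 2) c2 a2 a3
  have g4 := hgas N lo hi (p 3) _ _ _ hn (ho 3) c3 a3 a4
  have e4 : (fun u => (wt lo hi τ u / ∏ i, sn (pt lo hi u) (p i)) * sn (pt lo hi u) (p 0) *
      sn (pt lo hi u) (p 1) * sn (pt lo hi u) (p 2) * sn (pt lo hi u) (p 3)) = wt lo hi τ := by
    funext u
    have h0 := (hs 0 u).ne'
    have h1 := (hs 1 u).ne'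
    have h2 := (hs 2 u).ne'
    have h3 := (hs 3 u).ne'
    rw [Fin.prod_univ_four]
    field_simp
  rw [e4] at a4
  have g5 := (hres N lo hi τ A4 hn a4).trans_le b4
  rw [prod_X_sub_C_nextCoeff] at g1
  have q1 := prod_zero_fin univ fun j => ee (-τ j)
  have q2 := prod_zero_fin univ fun j => conj (w j)
  have hS : (derivative (QX τ w)).eval 0 +
      (QX τ w).eval 0 * (∑ i, ee (-p i) + ∑ u, ee (-pt lo hi u)) =
      conj ((ee (p 0) - A1.nextCoeff + -∑ j, w j) + (ee (p 1) - A2.nextCoeff + A1.nextCoeff) +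
        (ee (p 2) - A3.nextCoeff + A2.nextCoeff) + (ee (p 3) - A4.nextCoeff + A3.nextCoeff) +
        (∑ u, ee (pt lo hi u) - ∑ j, ee (τ j) + A4.nextCoeff)) := by
    rw [QX, derivative_mul, eval_add, eval_mul, eval_mul, eval_mul, q1.1, q1.2, q2.1, q2.2,
      Fin.sum_univ_four]
    simp only [map_add, map_sub, map_neg, map_sum, conj_ee]
    ring
  have hz : (QX τ w).eval 0 = 1 := by rw [QX, eval_mul, q1.1, q2.1, mul_one]
  unfold Five
  rw [hS, hz, Complex.norm_conj, norm_one]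
  refine (norm_add_le _ _).trans ?_
  have t1 := norm_add_le ((ee (p 0) - A1.nextCoeff + -∑ j, w j) +
    (ee (p 1) - A2.nextCoeff + A1.nextCoeff) + (ee (p 2) - A3.nextCoeff + A2.nextCoeff))
    (ee (p 3) - A4.nextCoeff + A3.nextCoeff)
  have t2 := norm_add_le ((ee (p 0) - A1.nextCoeff + -∑ j, w j) +
    (ee (p 1) - A2.nextCoeff + A1.nextCoeff)) (ee (p 2) - A3.nextCoeff + A2.nextCoeff)
  have t3 := norm_add_le (ee (p 0) - A1.nextCoeff + -∑ j, w j)
    (ee (p 1) - A2.nextCoeff + A1.nextCoeff)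
  linarith

end Pool.Agent.MP_334d28_an.K

end

section

/-!
Factorisation of polynomials without zeros in the disc, and a dimension count.
-/

open Polynomial Finset
open scoped Real ComplexConjugate

namespace Pool.Agent.MP_334d28_an.K

theorem one_fac (N : ℕ) : ∀ q : ℂ[X], q.natDegree ≤ N → (∀ z : ℂ, ‖z‖ < 1 → q.eval z ≠ 0) →
    ∃ w : Fin N → ℂ, (∀ j, ‖w j‖ ≤ 1) ∧ q = C (q.eval 0) * ∏ j, (1 - C (conj (w j)) * X) := by
  induction N with
  | zero =>
    intro q hq _
    refine ⟨Fin.elim0, fun j => j.elim0, ?_⟩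
    rw [Fin.prod_univ_zero, mul_one, ← coeff_zero_eq_eval_zero]
    exact eq_C_of_natDegree_le_zero hq
  | succ N ih =>
    intro q hq hz
    rcases hq.eq_or_lt with h | h
    · have hd : q.degree ≠ 0 := fun h0 => by
        rw [natDegree_eq_of_degree_eq_some (n := 0) h0] at h
        omega
      obtain ⟨ρ, hρ⟩ := IsAlgClosed.exists_root q hd
      have h1 : 1 ≤ ‖ρ‖ := not_lt.1 fun h => hz ρ h hρ
      have h0 : ρ ≠ 0 := norm_pos_iff.1 (zero_lt_one.trans_le h1)
      obtain ⟨q₁, rfl⟩ := dvd_iff_isRoot.2 hρ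
      have hq₁ : q₁ ≠ 0 := fun h => hz 0 (by simp) (by simp [h])
      rw [natDegree_mul (X_sub_C_ne_zero ρ) hq₁, natDegree_X_sub_C] at h
      obtain ⟨w, hw, he⟩ := ih q₁ (by omega) fun z hz' h' => hz z hz' (by simp [h'])
      refine ⟨Fin.cons (conj ρ⁻¹) w, fun j => ?_, ?_⟩
      · refine Fin.cases ?_ (fun i => ?_) j
        · rw [Fin.cons_zero, Complex.norm_conj, norm_inv]
          exact inv_le_one_of_one_le₀ h1
        · rw [Fin.cons_succ]
          exact hw i
      · rw [Fin.prod_univ_succ]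
        simp only [Fin.cons_zero, Fin.cons_succ, Complex.conj_conj, eval_mul, eval_sub, eval_X,
          eval_C, zero_sub, map_mul, map_neg]
        have e : (X - C ρ : ℂ[X]) = -C ρ * (1 - C ρ⁻¹ * X) := by
          rw [mul_sub, mul_one, ← mul_assoc, neg_mul, ← C_mul, mul_inv_cancel₀ h0, C_1]
          ring
        rw [e]
        conv_lhs => rw [he]
        ring
    · obtain ⟨w, hw, he⟩ := ih q (by omega) hz
      refine ⟨Fin.cons 0 w, fun j => ?_, ?_⟩
      · refine Fin.cases ?_ (fun i => ?_) j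
        · simp
        · rw [Fin.cons_succ]
          exact hw i
      · rw [Fin.prod_univ_succ]
        simpa using he

theorem two_fac (N n : ℕ) (Λ : Fin N → ℂ[X] →ₗ[ℂ] ℂ) (h : N < n) :
    ∃ r : ℂ[X], r ≠ 0 ∧ r.natDegree ≤ n ∧ r.eval 0 = 0 ∧ ∀ k, Λ k r = 0 := by
  let p : (Fin n → ℂ) →ₗ[ℂ] ℂ[X] := Fintype.linearCombination ℂ fun j : Fin n => X ^ (j.1 + 1)
  have hp : ∀ a, p a = ∑ j : Fin n, a j • (X : ℂ[X]) ^ (j.1 + 1) := fun a =>
    Fintype.linearCombination_apply ..
  obtain ⟨a, ha, h0⟩ := (Submodule.ne_bot_iff _).1 (LinearMap.ker_ne_bot_of_finrank_lt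
    (f := LinearMap.pi fun k => (Λ k).comp p) (by simpa using h))
  refine ⟨p a, fun hr => h0 (funext fun j => ?_), ?_, ?_, fun k => congrFun ha k⟩
  · have := congrArg (fun r : ℂ[X] => r.coeff (j.1 + 1)) hr
    simpa [hp, coeff_X_pow, Fin.val_inj] using this
  · rw [hp]
    refine natDegree_sum_le_of_forall_le _ _ fun j _ => (natDegree_smul_le _ _).trans ?_
    rw [natDegree_X_pow]
    exact j.2
  · simp [hp, eval_finsetSum]

theorem fac_st : FAC_st := ⟨one_fac, two_fac⟩

end Pool.Agent.MP_334d28_an.K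

end

section

open Polynomial Finset
open scoped Real ComplexConjugate

namespace Pool.Agent.MP_334d28_an.K

theorem der_drop (z : ℂ) (R : ℂ[X]) : ((C z - X) * R).derivative.eval z = -R.eval z := by
  simp [derivative_mul]

theorem PI_ne_drop {N : ℕ} {p : Fin 4 → ℝ} {lo hi : Fin N → ℝ} (h : Nest lo hi)
    (hp : ∀ i, Out lo hi (p i)) (v : Fin N × Bool) :
    (PI p lo hi).derivative.eval (ee (pt lo hi v)) ≠ 0 := by
  have e : PI p lo hi = (C (ee (pt lo hi v)) - X) *
      ((∏ i, (C (ee (p i)) - X)) * ∏ u ∈ univ.erase v, (C (ee (pt lo hi u)) - X)) := by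
    rw [PI, ← mul_prod_erase univ (fun u => (C (ee (pt lo hi u)) - X : ℂ[X])) (mem_univ v)]
    ring
  rw [e, der_drop, neg_ne_zero, eval_mul, eval_prod, eval_prod]
  refine mul_ne_zero (prod_ne_zero_iff.2 fun i _ => ?_) (prod_ne_zero_iff.2 fun u hu => ?_)
  · simp only [eval_sub, eval_C, eval_X]
    exact sub_ne_zero.2 ((hp i).ee_ne h v)
  · simp only [eval_sub, eval_C, eval_X]
    exact sub_ne_zero.2 fun e => (mem_erase.1 hu).1 (h.ee_inj e)

theorem prod_drop {N : ℕ} {M : Type} [CommMonoid M] (f : ℝ → M) (lo hi : Fin (N + 1) → ℝ)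
    (k : Fin (N + 1)) : ∏ u, f (pt lo hi u) = f (lo k) * f (hi k) *
      ∏ u, f (pt (fun j => lo (k.succAbove j)) (fun j => hi (k.succAbove j)) u) := by
  rw [Fintype.prod_prod_type, Fintype.prod_prod_type, Fin.prod_univ_succAbove _ k]
  simp only [Fintype.prod_bool, pt, cond_true, cond_false]
  rw [mul_comm (f (hi k))]

theorem sum_drop {N : ℕ} (f : ℝ → ℂ) (lo hi : Fin (N + 1) → ℝ)
    (k : Fin (N + 1)) : ∑ u, f (pt lo hi u) = f (lo k) + f (hi k) +
      ∑ u, f (pt (fun j => lo (k.succAbove j)) (fun j => hi (k.succAbove j)) u) := by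
  rw [Fintype.sum_prod_type, Fintype.sum_prod_type, Fin.sum_univ_succAbove _ k]
  simp only [Fintype.sum_bool, pt, cond_true, cond_false]
  rw [add_comm (f (hi k))]

theorem PI_root_drop {N : ℕ} (p : Fin 4 → ℝ) (lo hi : Fin N → ℝ) (v : Fin N × Bool) :
    (PI p lo hi).eval (ee (pt lo hi v)) = 0 := by
  rw [PI, eval_mul, eval_prod, eval_prod]
  exact mul_eq_zero_of_right _ (prod_eq_zero (mem_univ v) (by simp))

theorem fac_drop {Q : ℂ[X]} {z z' : ℂ} (h : z ≠ z') (h1 : Q.eval z = 0) (h2 : Q.eval z' = 0) :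
    ∃ Q₁ : ℂ[X], Q = (C z - X) * (C z' - X) * Q₁ := by
  obtain ⟨R, rfl⟩ := dvd_iff_isRoot.2 h1
  rw [eval_mul, eval_sub, eval_X, eval_C] at h2
  have h3 : R.eval z' = 0 := (mul_eq_zero.1 h2).resolve_left (sub_ne_zero.2 h.symm)
  obtain ⟨S, rfl⟩ := dvd_iff_isRoot.2 h3
  exact ⟨S, by ring⟩

theorem quot_drop (z z' x : ℂ) (Q P : ℂ[X]) (h : z ≠ x) (h' : z' ≠ x) (hP : P.eval x = 0) :
    ((C z - X) * (C z' - X) * Q).eval x / ((C z - X) * (C z' - X) * P).derivative.eval x =
      Q.eval x / P.derivative.eval x := by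
  rw [derivative_mul, eval_add, eval_mul (q := P), hP, mul_zero, zero_add, eval_mul (q := Q),
    eval_mul (q := derivative P)]
  refine mul_div_mul_left _ _ ?_
  simp only [eval_mul, eval_sub, eval_C, eval_X]
  exact mul_ne_zero (sub_ne_zero.2 h) (sub_ne_zero.2 h')

theorem drop_st : DROP_st := by
  intro N hN p lo hi Q h hp hd hz hP ⟨⟨k, s⟩, hu⟩
  have n0 := PI_ne_drop h hp (k, false)
  have n1 := PI_ne_drop h hp (k, true)
  have hk := hP k
  have hboth : Q.eval (ee (lo k)) = 0 ∧ Q.eval (ee (hi k)) = 0 := by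
    cases s
    · have e : Q.eval (ee (lo k)) = 0 := hu
      rw [e, zero_div, zero_add] at hk
      exact ⟨e, (div_eq_zero_iff.1 hk).resolve_right n1⟩
    · have e : Q.eval (ee (hi k)) = 0 := hu
      rw [e, zero_div, add_zero] at hk
      exact ⟨(div_eq_zero_iff.1 hk).resolve_right n0, e⟩
  have hne : ee (lo k) ≠ ee (hi k) := fun e => by
    have := h.ee_inj (a₁ := (k, false)) (a₂ := (k, true)) e
    simp at this
  obtain ⟨Q₁, rfl⟩ := fac_drop hne hboth.1 hboth.2
  have h' : Nest (fun j => lo (k.succAbove j)) fun j => hi (k.succAbove j) :=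
    ⟨h.anti.comp_strictMono (Fin.strictMono_succAbove k),
      h.mono.comp (Fin.strictMono_succAbove k), fun _ _ => h.lt _ _, fun _ _ => h.win _ _⟩
  have hQ : Q₁ ≠ 0 := fun e => hz 0 (by simp) (by simp [e])
  have hd' : Q₁.natDegree ≤ 2 * N + 1 := by
    have d : ∀ w : ℂ, (C w - X : ℂ[X]) ≠ 0 ∧ (C w - X : ℂ[X]).natDegree = 1 := fun w => by
      rw [← neg_sub, natDegree_neg, neg_ne_zero]
      exact ⟨X_sub_C_ne_zero w, natDegree_X_sub_C w⟩
    rw [natDegree_mul (mul_ne_zero (d _).1 (d _).1) hQ, natDegree_mul (d _).1 (d _).1, (d _).2,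
      (d _).2] at hd
    omega
  have ePI : PI p lo hi = (C (ee (lo k)) - X) * (C (ee (hi k)) - X) *
      PI p (fun j => lo (k.succAbove j)) fun j => hi (k.succAbove j) := by
    rw [PI, PI, prod_drop (fun t => (C (ee t) - X : ℂ[X])) lo hi k]
    ring
  have hsep : ∀ (j : Fin N) (σ τ : Bool),
      ee (pt lo hi (k, σ)) ≠ ee (pt lo hi (k.succAbove j, τ)) := fun j σ τ e => by
    have := congrArg Prod.fst (h.ee_inj e)
    exact k.succAbove_ne j this.symm
  have hF := hN p _ _ Q₁ h' (fun i j => hp i _) hd'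
    (fun z hz' e => hz z hz' (by rw [eval_mul, e, mul_zero])) fun j => by
      have e := hP (k.succAbove j)
      rw [ePI, quot_drop (ee (lo k)) (ee (hi k)) (ee (lo (k.succAbove j))) Q₁ _
        (hsep j false false) (hsep j true false) (PI_root_drop p (fun j => lo (k.succAbove j))
          (fun j => hi (k.succAbove j)) (j, false)),
        quot_drop (ee (lo k)) (ee (hi k)) (ee (hi (k.succAbove j))) Q₁ _
        (hsep j false true) (hsep j true true) (PI_root_drop p (fun j => lo (k.succAbove j))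
          (fun j => hi (k.succAbove j)) (j, true))] at e
      exact e
  unfold Five at hF ⊢
  rw [sum_drop (fun t => ee (-t)) lo hi k]
  have m0 := ee_mul_neg (lo k)
  have m1 := ee_mul_neg (hi k)
  have e0 : ((C (ee (lo k)) - X) * (C (ee (hi k)) - X) * Q₁).eval 0 =
      ee (lo k) * ee (hi k) * Q₁.eval 0 := by simp
  have e1 : ((C (ee (lo k)) - X) * (C (ee (hi k)) - X) * Q₁).derivative.eval 0 =
      ee (lo k) * ee (hi k) * Q₁.derivative.eval 0 - (ee (lo k) + ee (hi k)) * Q₁.eval 0 := by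
    simp [derivative_mul]
    ring
  have e2 : ∀ S T : ℂ,
      ee (lo k) * ee (hi k) * Q₁.derivative.eval 0 - (ee (lo k) + ee (hi k)) * Q₁.eval 0 +
        ee (lo k) * ee (hi k) * Q₁.eval 0 * (S + (ee (-lo k) + ee (-hi k) + T)) =
      ee (lo k) * ee (hi k) * (Q₁.derivative.eval 0 + Q₁.eval 0 * (S + T)) := fun S T => by
    linear_combination (ee (hi k) * Q₁.eval 0) * m0 + (ee (lo k) * Q₁.eval 0) * m1
  rw [e0, e1, e2]
  simpa only [norm_mul, norm_ee, one_mul] using hF

end Pool.Agent.MP_334d28_an.K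

end

section

open Polynomial Finset
open scoped Real ComplexConjugate

namespace Pool.Agent.MP_334d28_an.K

/-- the polynomial with given zeros on the circle -/
noncomputable def T_nrm {m : ℕ} (τ : Fin m → ℝ) : ℂ[X] := ∏ j, (1 - C (ee (-τ j)) * X)

theorem T_zero_nrm {m : ℕ} (τ : Fin m → ℝ) : (T_nrm τ).eval 0 = 1 := by
  simp [T_nrm, eval_prod]

theorem T_ne_nrm {m : ℕ} (τ : Fin m → ℝ) {z : ℂ} (hz : ‖z‖ < 1) : (T_nrm τ).eval z ≠ 0 := by
  rw [T_nrm, eval_prod, prod_ne_zero_iff]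
  intro j _ h
  have h1 : ee (-τ j) * z = 1 := by
    simp only [eval_sub, eval_one, eval_mul, eval_C, eval_X] at h
    linear_combination -h
  have h2 := congrArg norm h1
  rw [norm_mul, norm_one, ee, Complex.norm_exp_ofReal_mul_I, one_mul] at h2
  exact hz.ne h2

theorem T_deg_nrm {m : ℕ} (τ : Fin m → ℝ) : (T_nrm τ).natDegree ≤ m := by
  refine (natDegree_prod_le _ _).trans ((sum_le_card_nsmul _ _ 1 fun j _ => ?_).trans (by simp))
  compute_degree

theorem T_cons_nrm {m : ℕ} (t : ℝ) (τ : Fin m → ℝ) :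
    T_nrm (Fin.cons t τ : Fin (m + 1) → ℝ) = (1 - C (ee (-t)) * X) * T_nrm τ := by
  simp [T_nrm, Fin.prod_univ_succ]

theorem norm_le_nrm {V s : ℂ} {t : ℝ} (ht : 0 ≤ t) (h : 0 ≤ (conj V * s).re) :
    ‖V‖ ≤ ‖V + t * s‖ := by
  rw [← sq_le_sq₀ (norm_nonneg _) (norm_nonneg _), Complex.sq_norm, Complex.sq_norm,
    Complex.normSq_apply, Complex.normSq_apply]
  simp only [Complex.mul_re, Complex.conj_re, Complex.conj_im, Complex.add_re, Complex.add_im,
    Complex.mul_im, Complex.ofReal_re, Complex.ofReal_im, zero_mul, sub_zero, add_zero] at h ⊢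
  have h1 := mul_nonneg ht h
  have h2 := mul_self_nonneg (t * s.re)
  have h3 := mul_self_nonneg (t * s.im)
  linarith

variable {N : ℕ} {p : Fin 4 → ℝ} {lo hi : Fin N → ℝ}

theorem pair_C_nrm {a : ℂ} (ha : a ≠ 0) {Q : ℂ[X]} (h : Pair p lo hi (C a * Q)) :
    Pair p lo hi Q := fun k => by
  have := h k
  simp only [eval_mul, eval_C, mul_div_assoc, ← mul_add] at this
  exact (mul_eq_zero.1 this).resolve_left ha

theorem five_C_nrm (a : ℂ) {Q : ℂ[X]} (h : Five p lo hi Q) : Five p lo hi (C a * Q) := by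
  unfold Five at h ⊢
  rw [derivative_C_mul, eval_mul, eval_mul, eval_C, mul_assoc, ← mul_add, norm_mul, norm_mul,
    mul_left_comm]
  exact mul_le_mul_of_nonneg_left h (norm_nonneg a)

/-- the claim with `m` zeros on the circle -/
def Cl_nrm (p : Fin 4 → ℝ) (lo hi : Fin N → ℝ) (m : ℕ) : Prop :=
  ∀ (τ : Fin m → ℝ) (q : ℂ[X]), q.natDegree + m ≤ 2 * N + 1 →
    (∀ z : ℂ, ‖z‖ < 1 → q.eval z ≠ 0) → Pair p lo hi (T_nrm τ * q) → Five p lo hi (T_nrm τ * q)

theorem root_nrm {m : ℕ} (H : Cl_nrm p lo hi (m + 1)) (τ : Fin m → ℝ) (q : ℂ[X])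
    (hd : q.natDegree + m ≤ 2 * N + 1) (hq : ∀ z : ℂ, ‖z‖ < 1 → q.eval z ≠ 0)
    (hp : Pair p lo hi (T_nrm τ * q)) {z : ℂ} (hz : ‖z‖ = 1) (h0 : q.eval z = 0) :
    Five p lo hi (T_nrm τ * q) := by
  obtain ⟨t, rfl⟩ := exists_ee hz
  obtain ⟨q₀, rfl⟩ := dvd_iff_isRoot.2 h0
  have h1 : q₀ ≠ 0 := by
    rintro rfl
    exact hq 0 (by simp) (by simp)
  have h2 : C (ee (-t)) * C (ee t) = (1 : ℂ[X]) := by rw [← C_mul, ← ee_add]; simp
  have h3 : T_nrm τ * ((X - C (ee t)) * q₀) =
      T_nrm (Fin.cons t τ : Fin (m + 1) → ℝ) * (C (-ee t) * q₀) := by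
    rw [T_cons_nrm, C_neg]
    linear_combination (-(T_nrm τ * X * q₀)) * h2
  rw [natDegree_mul (X_sub_C_ne_zero _) h1, natDegree_X_sub_C] at hd
  rw [h3] at hp ⊢
  refine H _ _ ?_ (fun w hw => ?_) hp
  · have := natDegree_C_mul_le (-ee t) q₀
    omega
  · have := hq w hw
    rw [eval_mul] at this ⊢
    rw [eval_C]
    exact mul_ne_zero (neg_ne_zero.2 (ee_ne t)) (right_ne_zero_of_mul this)

theorem step_nrm (hfac : FAC_st) (hhit : HIT_st) {m : ℕ} (hm : m ≤ N)
    (H : Cl_nrm p lo hi (m + 1)) : Cl_nrm p lo hi m := by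
  intro τ q hd hq hp
  by_cases h : ∃ z : ℂ, ‖z‖ = 1 ∧ q.eval z = 0
  · obtain ⟨z, hz, h0⟩ := h
    exact root_nrm H τ q hd hq hp hz h0
  have hq' : ∀ z : ℂ, ‖z‖ ≤ 1 → q.eval z ≠ 0 := fun z hz =>
    hz.lt_or_eq.elim (hq z) fun h1 h2 => h ⟨z, h1, h2⟩
  obtain ⟨V, hV⟩ : ∃ V, V = (T_nrm τ * q).derivative.eval 0 +
    (T_nrm τ * q).eval 0 * (∑ i, ee (-p i) + ∑ u, ee (-pt lo hi u)) := ⟨_, rfl⟩
  obtain ⟨r, r0, r1, r2, r3, r4⟩ : ∃ r : ℂ[X], r ≠ 0 ∧ r.natDegree ≤ 2 * N + 1 - m ∧
      r.eval 0 = 0 ∧ Pair p lo hi (T_nrm τ * r) ∧ 0 ≤ (conj V * r.derivative.eval 0).re := by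
    obtain ⟨r, r0, r1, r2, r3⟩ := hfac.2 N (2 * N + 1 - m) (fun k =>
      ((T_nrm τ).eval (ee (lo k)) / (PI p lo hi).derivative.eval (ee (lo k))) • leval (ee (lo k)) +
      ((T_nrm τ).eval (ee (hi k)) / (PI p lo hi).derivative.eval (ee (hi k))) • leval (ee (hi k)))
      (by omega)
    simp only [LinearMap.add_apply, LinearMap.smul_apply, leval_apply, smul_eq_mul] at r3
    rcases le_total 0 (conj V * r.derivative.eval 0).re with h1 | h1
    · refine ⟨r, r0, r1, r2, fun k => ?_, h1⟩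
      rw [eval_mul, eval_mul]
      linear_combination r3 k
    · refine ⟨-r, neg_ne_zero.2 r0, by rwa [natDegree_neg], by rw [eval_neg, r2, neg_zero],
        fun k => ?_, ?_⟩
      · rw [eval_mul, eval_mul, eval_neg, eval_neg]
        linear_combination -r3 k
      · rw [derivative_neg, eval_neg, mul_neg, Complex.neg_re]
        linarith
  obtain ⟨t, t0, t1, z, hz, h0⟩ := hhit q r hq' r0 r2
  have h5 := root_nrm H τ (q + C (t : ℂ) * r) (by
      have h1 := natDegree_add_le q (C (t : ℂ) * r)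
      have h2 := natDegree_C_mul_le (t : ℂ) r
      omega) t1 (fun k => by
      have h1 := hp k
      have h2 := r3 k
      simp only [eval_mul, eval_add, eval_C] at h1 h2 ⊢
      linear_combination h1 + t * h2) hz h0
  unfold Five at h5 ⊢
  have e0 : (T_nrm τ * (q + C (t : ℂ) * r)).eval 0 = (T_nrm τ * q).eval 0 := by
    simp [r2]
  have e1 : (T_nrm τ * (q + C (t : ℂ) * r)).derivative.eval 0 =
      (T_nrm τ * q).derivative.eval 0 + t * r.derivative.eval 0 := by
    simp [r2, T_zero_nrm, add_assoc]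
  rw [e0, e1, add_right_comm, ← hV] at h5
  rw [← hV]
  exact (norm_le_nrm t0.le r4).trans h5

theorem nrm_st (hfin : FIN_st) (hfac : FAC_st) (hhit : HIT_st) (hdrop : DROP_st) : NRM_st := by
  have key : ∀ N, (∀ M, N = M + 1 → NRM M) → NRM N := by
    intro N IH p lo hi Q hn ho hd hQ hp
    have top : Cl_nrm p lo hi (N + 1) := by
      intro τ q hd hq hp
      obtain ⟨w, hw, e⟩ := hfac.1 N q (by omega) hq
      have e' : T_nrm τ * q = C (q.eval 0) * QX τ w := by
        conv_lhs => rw [e]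
        rw [QX, T_nrm]
        ring
      by_cases h : ∃ u, (T_nrm τ * q).eval (ee (pt lo hi u)) = 0
      · obtain ⟨M, rfl⟩ : ∃ M, N = M + 1 := by
          obtain ⟨u, -⟩ := h
          exact Nat.exists_eq_succ_of_ne_zero u.1.pos.ne'
        refine hdrop M (IH M rfl) p lo hi _ hn ho ?_ (fun z hz => ?_) hp h
        · have h1 := natDegree_mul_le (p := T_nrm τ) (q := q)
          have h2 := T_deg_nrm τ
          omega
        · rw [eval_mul]
          exact mul_ne_zero (T_ne_nrm τ hz) (hq z hz)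
      · rw [e'] at hp h ⊢
        refine five_C_nrm _ (hfin N p lo hi τ w hn ho hw (pair_C_nrm (hq 0 (by simp)) hp)
          fun u hu => h ⟨u, ?_⟩)
        rw [eval_mul, hu, mul_zero]
    have all : ∀ j m, m + j = N + 1 → Cl_nrm p lo hi m := by
      intro j
      induction j with
      | zero =>
        rintro m rfl
        exact top
      | succ j ih => exact fun m hm => step_nrm hfac hhit (by omega) (ih _ (by omega))
    have e : T_nrm (Fin.elim0 : Fin 0 → ℝ) * Q = Q := by simp [T_nrm]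
    have := all (N + 1) 0 (by omega) Fin.elim0 Q hd hQ (by rwa [e])
    rwa [e] at this
  intro N
  induction N with
  | zero => exact key 0 fun M h => absurd h (by omega)
  | succ N ih => exact key _ fun M h => by rwa [← Nat.succ_injective h]

end Pool.Agent.MP_334d28_an.K

end

section

/-!
Affine maps keep the numerator stable.
-/

open Polynomial Finset
open scoped Real ComplexConjugate

namespace Pool.Agent.MP_334d28_an.K

theorem PP_map_aff (g : ℝ × ℂ → ℂ) (L : List (ℝ × ℂ)) :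
    PP (L.map fun a => (a.1, g a)) = PP L := by
  induction L with
  | nil => rfl
  | cons a L ih => simp only [List.map_cons, PP, ih]

theorem QQ_map_aff (β : ℂ) (L : List (ℝ × ℂ)) :
    QQ (L.map fun a => (a.1, a.2 - β * conj a.2)) =
      QQ L - C β * QQ (L.map fun a => (a.1, conj a.2)) := by
  induction L with
  | nil => simp [QQ]
  | cons a L ih =>
    simp only [List.map_cons, QQ, ih, PP_map_aff, map_sub, map_mul]
    ring

theorem conj_aff (L : List (ℝ × ℂ)) {z : ℂ} (hz : ‖z‖ = 1) :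
    ∃ u : ℂ, ‖u‖ = 1 ∧ conj ((PP L).eval z) * u = (PP L).eval z ∧
      conj ((QQ L).eval z) * u = -z * conj (mom L 0) * (PP L).eval z -
        z ^ 2 * (QQ (L.map fun a => (a.1, conj a.2))).eval z := by
  induction L with
  | nil => exact ⟨1, norm_one, by simp [PP], by simp [QQ]⟩
  | cons a L ih =>
    obtain ⟨u, h1, h2, h3⟩ := ih
    have e0 : ‖ee a.1‖ = 1 := Complex.norm_exp_ofReal_mul_I _
    have e1 : conj z * z = 1 := by rw [Complex.conj_mul', hz]; simp
    have e2 : conj (ee a.1) * ee a.1 = 1 := by rw [Complex.conj_mul', e0]; simp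
    have e3 : (conj (ee a.1) - conj z) * -(ee a.1 * z) = ee a.1 - z := by
      linear_combination (-z) * e2 + ee a.1 * e1
    have e4 : mom (a :: L) 0 = a.2 + mom L 0 := by simp [mom_zero]
    refine ⟨-(ee a.1 * z) * u, by rw [norm_mul, norm_neg, norm_mul, e0, hz, h1]; simp, ?_, ?_⟩
    · simp only [PP, eval_mul, eval_sub, eval_C, eval_X, map_mul, map_sub]
      linear_combination (conj ((PP L).eval z) * u) * e3 + (ee a.1 - z) * h2
    · simp only [List.map_cons, QQ, PP, PP_map_aff, eval_add, eval_mul, eval_sub, eval_C, eval_X,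
        map_mul, map_sub, map_add, e4]
      linear_combination (conj ((QQ L).eval z) * u) * e3 + (ee a.1 - z) * h3 -
        conj a.2 * ee a.1 * z * h2

theorem aff_st : AFF_st := by
  intro L β ⟨h1, h2, h3⟩ h0 hβ
  refine ⟨by rw [List.map_map]; exact h1, fun a ha b hb => ?_, fun z hz => ?_⟩
  · obtain ⟨a', ha', rfl⟩ := List.mem_map.1 ha
    obtain ⟨b', hb', rfl⟩ := List.mem_map.1 hb
    exact h2 a' ha' b' hb'
  · set R := QQ (L.map fun a => (a.1, conj a.2)) with hR
    have hd : DiffContOnCl ℂ (fun w => R.eval w / (QQ L).eval w) (Metric.ball 0 1) := by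
      refine DifferentiableOn.diffContOnCl ?_
      rw [closure_ball _ one_ne_zero]
      exact R.differentiableOn.div (QQ L).differentiableOn fun w hw =>
        h3 w (mem_closedBall_zero_iff.1 hw)
    have hb : ‖R.eval z / (QQ L).eval z‖ ≤ 1 := by
      refine Complex.norm_le_of_forall_mem_frontier_norm_le Metric.isBounded_ball hd
        (fun w hw => ?_) (by rw [closure_ball _ one_ne_zero]; exact mem_closedBall_zero_iff.2 hz)
      rw [frontier_ball _ one_ne_zero, mem_sphere_zero_iff_norm] at hw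
      obtain ⟨u, u1, -, u2⟩ := conj_aff L hw
      have u3 := congrArg norm u2
      rw [h0, map_zero, mul_zero, zero_mul, zero_sub, norm_neg, norm_mul, norm_mul, norm_pow, hw,
        u1, one_pow, one_mul, mul_one, Complex.norm_conj] at u3
      rw [norm_div, u3]
      exact div_self_le_one _
    have hq := norm_pos_iff.2 (h3 z hz)
    rw [norm_div, div_le_one hq] at hb
    rw [QQ_map_aff, eval_sub, eval_mul, eval_C, sub_ne_zero]
    intro e
    have e' := congrArg norm e
    rw [norm_mul] at e'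
    nlinarith [norm_nonneg β]

end Pool.Agent.MP_334d28_an.K

end

section

/-!
The total angle of a closed polygon is constant along segments which avoid the edges.
-/

open Polynomial Finset
open scoped Real ComplexConjugate

namespace Pool.Agent.MP_334d28_an.K

theorem ne_left_wnc {p q x : ℂ} (h : x ∉ segment ℝ p q) : p - x ≠ 0 := by
  intro e
  exact h (sub_eq_zero.1 e ▸ left_mem_segment ℝ p q)

theorem ne_right_wnc {p q x : ℂ} (h : x ∉ segment ℝ p q) : q - x ≠ 0 := by
  intro e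
  exact h (sub_eq_zero.1 e ▸ right_mem_segment ℝ p q)

theorem slit_wnc {p q x : ℂ} (h : x ∉ segment ℝ p q) : (q - x) / (p - x) ∈ Complex.slitPlane := by
  by_contra hc
  rw [Complex.mem_slitPlane_iff_not_le_zero, not_not] at hc
  obtain ⟨hre, him⟩ := Complex.nonpos_iff.1 hc
  set r : ℝ := -((q - x) / (p - x)).re with hr
  have hr0 : 0 ≤ r := by linarith
  have h1 : (q - x) / (p - x) = -(r : ℂ) := by
    apply Complex.ext
    · simp [hr]
    · simp [him]
  have h2 : q - x = -(r : ℂ) * (p - x) := by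
    rw [← h1, div_mul_cancel₀ _ (ne_left_wnc h)]
  have h3 : (1 + (r : ℂ)) ≠ 0 := by
    have : (0 : ℝ) < 1 + r := by linarith
    exact_mod_cast this.ne'
  refine h ⟨r / (1 + r), 1 / (1 + r), by positivity, by positivity, ?_, ?_⟩
  · field_simp; ring
  · simp only [Complex.real_smul]
    push_cast
    field_simp
    linear_combination h2

theorem contAt_wnc (E : List (ℂ × ℂ)) {x : ℂ} (h : Off E x) : ContinuousAt (wn E) x := by
  induction E with
  | nil => exact continuousAt_const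
  | cons e E ih =>
    have he : x ∉ segment ℝ e.1 e.2 := h e List.mem_cons_self
    have h1 : ContinuousAt (fun w : ℂ => (e.2 - w) / (e.1 - w)) x :=
      (continuousAt_const.sub continuousAt_id).div (continuousAt_const.sub continuousAt_id)
        (ne_left_wnc he)
    have h2 : ContinuousAt (fun w : ℂ => Complex.arg ((e.2 - w) / (e.1 - w))) x :=
      ContinuousAt.comp (f := fun w : ℂ => (e.2 - w) / (e.1 - w))
        (Complex.continuousAt_arg (slit_wnc he)) h1
    exact h2.add (ih fun f hf => h f (List.mem_cons_of_mem _ hf))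

theorem angle_pe_wnc (l : List ℂ) (a b x : ℂ) (h : Off (pe a l b) x) :
    ((wn (pe a l b) x : ℝ) : Real.Angle) =
      (Complex.arg (b - x) : Real.Angle) - (Complex.arg (a - x) : Real.Angle) := by
  induction l generalizing a with
  | nil =>
    have he : x ∉ segment ℝ a b := h (a, b) (by simp [pe])
    simp only [wn, pe, List.map_cons, List.map_nil, List.sum_cons, List.sum_nil, add_zero]
    exact Complex.arg_div_coe_angle (ne_right_wnc he) (ne_left_wnc he)
  | cons y l ih =>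
    have he : x ∉ segment ℝ a y := h (a, y) (by simp [pe])
    have h1 := ih y fun f hf => h f (by simp [pe, hf])
    have h2 : wn (pe a (y :: l) b) x = Complex.arg ((y - x) / (a - x)) + wn (pe y l b) x := by
      simp [wn, pe]
    rw [h2, Real.Angle.coe_add, h1, Complex.arg_div_coe_angle (ne_right_wnc he) (ne_left_wnc he)]
    abel

theorem int_wnc (P : List ℂ) {x : ℂ} (h : Off (ce P) x) : ∃ n : ℤ, wn (ce P) x = n * (2 * π) := by
  cases P with
  | nil => exact ⟨0, by simp [wn, ce]⟩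
  | cons a l =>
    have h1 := angle_pe_wnc l a a x h
    rw [sub_self, Real.Angle.coe_eq_zero_iff] at h1
    obtain ⟨n, hn⟩ := h1
    exact ⟨n, by rw [ce, ← hn, zsmul_eq_mul]⟩

theorem const_wnc (P : List ℂ) {S : Set ℂ} (hS : IsPreconnected S) (h : ∀ x ∈ S, Off (ce P) x)
    {w w' : ℂ} (hw : w ∈ S) (hw' : w' ∈ S) : wn (ce P) w = wn (ce P) w' := by
  have hc : ContinuousOn (wn (ce P)) S := fun x hx => (contAt_wnc _ (h x hx)).continuousWithinAt
  have key : ∀ u ∈ S, ∀ v ∈ S, ¬ wn (ce P) u < wn (ce P) v := by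
    intro u hu v hv huv
    obtain ⟨m, hm⟩ := int_wnc P (h u hu)
    obtain ⟨n, hn⟩ := int_wnc P (h v hv)
    have hp := Real.pi_pos
    have hmn : m < n := by
      rw [hm, hn] at huv
      exact_mod_cast lt_of_mul_lt_mul_right huv (by positivity)
    have hmn' : (m : ℝ) + 1 ≤ n := by exact_mod_cast hmn
    obtain ⟨x, hx, e⟩ := hS.intermediate_value hu hv hc
      (show wn (ce P) u + π ∈ Set.Icc (wn (ce P) u) (wn (ce P) v) from
        ⟨by linarith, by rw [hm, hn]; nlinarith⟩)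
    obtain ⟨k, hk⟩ := int_wnc P (h x hx)
    rw [hk, hm] at e
    have h2 : (2 * k : ℝ) = 2 * m + 1 := by
      apply mul_right_cancel₀ hp.ne'
      linarith
    have h3 : 2 * k = 2 * m + 1 := by exact_mod_cast h2
    omega
  exact le_antisymm (not_lt.1 (key w' hw' w hw)) (not_lt.1 (key w hw w' hw'))

theorem wnc_st : WNC_st := fun P w w' h =>
  const_wnc P (convex_segment w w').isPreconnected h (left_mem_segment ℝ w w')
    (right_mem_segment ℝ w w')

end Pool.Agent.MP_334d28_an.K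

end

section

/-!
Simple polygons can be triangulated.
-/

open Polynomial Finset
open scoped Real ComplexConjugate

namespace Pool.Agent.MP_334d28_an.K

theorem rot_tri (v : ℂ) (m : List ℂ) : (v :: m) ~r (m ++ [v]) :=
  List.isRotated_append (l := [v]) (l' := m)

theorem rev_tri (v b a : ℂ) (l : List ℂ) :
    (v :: b :: (l ++ [a])).reverse ~r (v :: a :: (l.reverse ++ [b])) := by
  have := (rot_tri v (a :: (l.reverse ++ [b]))).symm
  simpa using this

theorem norev_tri {v b z φ : ℂ} {m : List ℂ}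
    (hφ : ∀ x ∈ b :: (m ++ [z]), 0 < (conj φ * (x - v)).re) (hw : 0 < wdg (b - v) (z - v)) :
    ¬ TC (v :: b :: (m ++ [z])).reverse := by
  intro h
  have h1 : Tr v (z :: m.reverse) b := h v _ b (rev_tri v b z m)
  have h2 := h1.expo (φ := φ) rfl (fun x hx => hφ x (by simp at hx ⊢; tauto))
  rw [wdg_swap] at h2
  linarith

theorem core_tri (hearw : EARW_st) (hdiaga : DIAGA_st) (hdiagb : DIAGB_st) (v a b φ : ℂ)
    (l : List ℂ)
    (ih : ∀ Q : List ℂ, Q.length < l.length + 3 → Simple Q → 3 ≤ Q.length → TC Q ∨ TC Q.reverse)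
    (hs : Simple (v :: b :: (l ++ [a])))
    (hφ : ∀ x ∈ b :: (l ++ [a]), 0 < (conj φ * (x - v)).re)
    (hw : 0 < wdg (b - v) (a - v)) : TC (v :: b :: (l ++ [a])) := by
  have hw' : 0 < wdg (b - v) (a - b) := by rwa [← wdg_base]
  by_cases hl : l = []
  · subst hl
    exact (Tr.glue (u := []) (v := []) hw' (Tr.seg v b) (Tr.seg b a)).tc
  by_cases hex : ∃ s t : ℝ, 0 ≤ s ∧ 0 ≤ t ∧ s + t ≤ 1 ∧ bc v a b s t ∈ l
  · obtain ⟨l₁, z, l₂, rfl, h1, h2, w1, w2⟩ := hdiaga v a b l hs hw hex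
    have t1 : TC (v :: b :: (l₁ ++ [z])) :=
      (ih _ (by simp) h1 (by simp)).resolve_right
        (norev_tri (φ := φ) (fun x hx => hφ x (by simp at hx ⊢; tauto)) w1)
    have t2 : TC (v :: z :: (l₂ ++ [a])) :=
      (ih _ (by simp) h2 (by simp)).resolve_right
        (norev_tri (φ := φ) (fun x hx => hφ x (by simp at hx ⊢; tauto)) w2)
    have r1 : Tr b (l₁ ++ [z]) v := t1 b _ v (rot_tri v (b :: (l₁ ++ [z])))
    have r2 : Tr z (l₂ ++ [a]) v := t2 z _ v (rot_tri v (z :: (l₂ ++ [a])))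
    have r3 := (r1.sub_last rfl r2).tc
    refine r3.rot ?_
    have := (rot_tri v (b :: (l₁ ++ z :: (l₂ ++ [a])))).symm
    simpa using this
  · obtain ⟨h1, h2⟩ := hdiagb v a b l hs hw hl
      (fun s t h1 h2 h3 h4 => hex ⟨s, t, h1, h2, h3, h4⟩)
    have hlen : 0 < l.length := List.length_pos_iff.2 hl
    have t1 : Tr b l a := by
      rcases ih _ (by simp) h1 (by simp; omega) with h | h
      · exact h b l a (List.IsRotated.refl _)
      · exact absurd (h a l.reverse b (by simpa using List.IsRotated.refl _))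
          (hearw v a b φ l hw hφ h2)
    exact (Tr.glue (u := []) hw' (Tr.seg v b) t1).tc

theorem expo_tri {v x : ℂ} (h : ‖x‖ ≤ ‖v‖) (hne : x ≠ v) : 0 < (conj (-v) * (x - v)).re := by
  have h1 : Complex.normSq x ≤ Complex.normSq v := by
    rw [Complex.normSq_eq_norm_sq, Complex.normSq_eq_norm_sq]
    exact pow_le_pow_left₀ (norm_nonneg _) h 2
  have h2 : 0 < Complex.normSq (x - v) := Complex.normSq_pos.2 (sub_ne_zero.2 hne)
  simp only [Complex.normSq_apply, Complex.sub_re, Complex.sub_im] at h1 h2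
  simp only [map_neg, Complex.mul_re, Complex.neg_re, Complex.neg_im, Complex.conj_re,
    Complex.conj_im, Complex.sub_re, Complex.sub_im]
  nlinarith

theorem seg_tri {v a b : ℂ} {p q : ℝ} (hq : 0 < q) (hp : q < p)
    (e : (p : ℂ) * (a - v) = (q : ℂ) * (b - v)) : a ∈ openSegment ℝ v b := by
  have hp0 : 0 < p := hq.trans hp
  refine ⟨1 - q / p, q / p, ?_, by positivity, by ring, ?_⟩
  · rw [sub_pos, div_lt_one hp0]; exact hp
  · have hc : (p : ℂ) ≠ 0 := by exact_mod_cast hp0.ne'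
    simp only [Complex.real_smul]
    push_cast
    field_simp
    linear_combination -e

theorem wne_tri {v a b φ : ℂ} {l : List ℂ} (hs : Simple (v :: b :: (l ++ [a])))
    (hφ : ∀ x ∈ b :: (l ++ [a]), 0 < (conj φ * (x - v)).re) : wdg (b - v) (a - v) ≠ 0 := by
  intro h0
  have hp := hφ b (by simp)
  have hq := hφ a (by simp)
  have e : (((conj φ * (b - v)).re : ℝ) : ℂ) * (a - v) =
      (((conj φ * (a - v)).re : ℝ) : ℂ) * (b - v) := by
    simp only [wdg] at h0
    apply Complex.ext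
    · simp only [Complex.mul_re, Complex.ofReal_re, Complex.ofReal_im, Complex.conj_re,
        Complex.conj_im]
      linear_combination (-φ.im) * h0
    · simp only [Complex.mul_re, Complex.mul_im, Complex.ofReal_re, Complex.ofReal_im,
        Complex.conj_re, Complex.conj_im]
      linear_combination φ.re * h0
  rcases lt_trichotomy (conj φ * (a - v)).re (conj φ * (b - v)).re with h | h | h
  · exact hs.2.1 (v, b) (by simp [ce, pe]) a (by simp) (seg_tri hq h e)
  · rw [h] at e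
    have hc : (((conj φ * (b - v)).re : ℝ) : ℂ) ≠ 0 := by exact_mod_cast hp.ne'
    have hab : a = b := by simpa using mul_left_cancel₀ hc e
    have hn := hs.1
    simp [hab] at hn
  · have he : (a, v) ∈ ce (v :: b :: (l ++ [a])) := by
      rw [← List.cons_append, ce_cons_append]; simp
    refine hs.2.1 (a, v) he b (by simp) ?_
    rw [openSegment_symm]
    exact seg_tri hp h e.symm

theorem tri_st (hearw : EARW_st) (hdiaga : DIAGA_st) (hdiagb : DIAGB_st) : TRI_st := by
  intro P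
  induction hn : P.length using Nat.strong_induction_on generalizing P with
  | _ n ih =>
  intro hs h3
  have hne : P.toFinset.Nonempty := by
    cases P with
    | nil => simp at hn; omega
    | cons x l => exact ⟨x, by simp⟩
  obtain ⟨v, hv, hmax⟩ := P.toFinset.exists_max_image (fun x => ‖x‖) hne
  obtain ⟨s, t, rfl⟩ := List.append_of_mem (List.mem_toFinset.1 hv)
  have hr : (s ++ v :: t) ~r (v :: (t ++ s)) := List.isRotated_append
  have hlen : (t ++ s).length + 1 = n := by rw [← hn]; simp; omega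
  obtain ⟨b, m, hm⟩ : ∃ b m, t ++ s = b :: m := by
    cases h : t ++ s with
    | nil => rw [h] at hlen; simp at hlen; omega
    | cons b m => exact ⟨b, m, rfl⟩
  rw [hm] at hr hlen
  rcases List.eq_nil_or_concat m with rfl | ⟨l, a, rfl⟩
  · simp at hlen; omega
  rw [List.concat_eq_append] at hr hlen
  have hs' := hs.rot hr
  have hφ : ∀ x ∈ b :: (l ++ [a]), 0 < (conj (-v) * (x - v)).re := by
    intro x hx
    refine expo_tri (hmax x (List.mem_toFinset.2 (hr.mem_iff.2 (List.mem_cons_of_mem _ hx)))) ?_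
    rintro rfl
    exact (List.nodup_cons.1 hs'.1).1 hx
  have hih : ∀ Q : List ℂ, Q.length < l.length + 3 → Simple Q → 3 ≤ Q.length →
      TC Q ∨ TC Q.reverse := fun Q hQ h1 h2 =>
    ih Q.length (by simp at hlen; omega) Q rfl h1 h2
  rcases lt_or_gt_of_ne (wne_tri hs' hφ) with h | h
  · right
    have h' : 0 < wdg (a - v) (b - v) := by rw [wdg_swap]; linarith
    have := core_tri hearw hdiaga hdiagb v b a (-v) l.reverse (by simpa using hih)
      (hs'.rev.rot (rev_tri v b a l)) (fun x hx => hφ x (by simp at hx ⊢; tauto)) h'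
    exact (this.rot (rev_tri v b a l).symm).rot hr.reverse.symm
  · exact Or.inl ((core_tri hearw hdiaga hdiagb v a b (-v) l hih hs' hφ h).rot hr.symm)

end Pool.Agent.MP_334d28_an.K

end

section

open Polynomial Finset
open scoped Real ComplexConjugate

namespace Pool.Agent.MP_334d28_an.K

theorem deg_pgood (L : List (ℝ × ℂ)) :
    (PP L).degree ≤ L.length ∧ (QQ L).degree < L.length := by
  induction L with
  | nil => simp [PP, QQ]
  | cons a L ih =>
    have h1 : (C (ee a.1) - X : ℂ[X]).degree = 1 := by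
      rw [← neg_sub, degree_neg, degree_X_sub_C]
    have h2 : ((a :: L).length : WithBot ℕ) = 1 + L.length := by
      rw [List.length_cons, add_comm]; push_cast; rfl
    refine ⟨?_, ?_⟩
    · rw [PP, degree_mul, h1, h2]
      exact add_le_add le_rfl ih.1
    · rw [QQ]
      refine (degree_add_le _ _).trans_lt (max_lt ?_ ?_)
      · refine ((degree_mul_le _ _).trans (add_le_add degree_C_le ih.1)).trans_lt ?_
        rw [zero_add, List.length_cons]
        exact_mod_cast Nat.lt_succ_self _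
      · rw [degree_mul, h1, h2]
        exact WithBot.add_lt_add_left (by simp) ih.2

theorem val_pgood (L : List (ℝ × ℂ)) : ∀ a ∈ L, (PP L).eval (ee a.1) = 0 ∧
    (QQ L).eval (ee a.1) = -a.2 * (PP L).derivative.eval (ee a.1) := by
  induction L with
  | nil => simp
  | cons b L ih =>
    intro a ha
    rcases List.mem_cons.1 ha with rfl | ha
    · simp [PP, QQ]
    · obtain ⟨h1, h2⟩ := ih a ha
      simp only [PP, QQ, derivative_mul, derivative_sub, derivative_C, derivative_X, eval_add,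
        eval_mul, eval_sub, eval_C, eval_X, h1, h2]
      constructor <;> ring

theorem refl_pgood (B : ℂ[X]) (N : ℕ) (hN : B.natDegree ≤ N) :
    ∃ S : ℂ[X], S.natDegree ≤ N ∧ ∀ z : ℂ, ‖z‖ = 1 → S.eval z = z ^ N * conj (B.eval z) := by
  refine ⟨∑ m ∈ range (N + 1), C (conj (B.coeff m)) * X ^ (N - m),
    natDegree_sum_le_of_forall_le _ _ fun m _ => (natDegree_C_mul_X_pow_le _ _).trans (Nat.sub_le _ _),
    fun z hz => ?_⟩
  have h1 : z * conj z = 1 := by rw [Complex.mul_conj, Complex.normSq_eq_norm_sq, hz]; simp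
  rw [eval_eq_sum_range' (Nat.lt_succ_of_le hN), map_sum, mul_sum, eval_finsetSum]
  refine sum_congr rfl fun m hm => ?_
  have h2 : z ^ N = z ^ (N - m) * z ^ m := by
    rw [← pow_add, Nat.sub_add_cancel (Nat.lt_succ_iff.1 (mem_range.1 hm))]
  have h3 : z ^ m * conj z ^ m = 1 := by rw [← mul_pow, h1, one_pow]
  simp only [eval_mul, eval_C, eval_pow, eval_X, map_mul, map_pow]
  rw [h2]
  linear_combination (-(conj (B.coeff m) * z ^ (N - m))) * h3

theorem max_pgood {A S : ℂ[X]} (hA : ∀ z : ℂ, ‖z‖ ≤ 1 → A.eval z ≠ 0)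
    (h : ∀ z : ℂ, ‖z‖ = 1 → ‖S.eval z‖ < ‖A.eval z‖) (z : ℂ) (hz : ‖z‖ ≤ 1) :
    (A - S).eval z ≠ 0 := by
  have hd : DiffContOnCl ℂ (fun z => S.eval z / A.eval z) (Metric.ball 0 1) := by
    refine DifferentiableOn.diffContOnCl ?_
    rw [closure_ball _ one_ne_zero]
    exact S.differentiable.differentiableOn.div A.differentiable.differentiableOn
      fun w hw => hA w (by simpa using hw)
  obtain ⟨w, hw, hm⟩ := Complex.exists_mem_frontier_isMaxOn_norm Metric.isBounded_ball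
    (Metric.nonempty_ball.2 one_pos) hd
  rw [frontier_ball _ one_ne_zero] at hw
  rw [closure_ball _ one_ne_zero] at hm
  have hw1 : ‖w‖ = 1 := by simpa using hw
  have h1 : ‖S.eval z / A.eval z‖ ≤ ‖S.eval w / A.eval w‖ := hm (by simpa using hz)
  have h2 : ‖S.eval w / A.eval w‖ < 1 := by
    rw [norm_div, div_lt_one (norm_pos_iff.2 (hA w hw1.le))]
    exact h w hw1
  intro h0
  rw [eval_sub, sub_eq_zero] at h0
  rw [← h0, div_self (hA z hz), norm_one] at h1
  linarith

theorem pp_pgood (A B : ℂ[X]) {n : ℕ} (hn : 0 < n) : PP (LL A B n) = (-1) ^ n * (X ^ n - 1) := by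
  have h1 := X_pow_sub_C_eq_prod (Complex.isPrimitiveRoot_exp n hn.ne') hn (one_pow n)
  rw [C_1] at h1
  rw [h1, PP_eq, LL, List.map_ofFn, List.prod_ofFn, prod_range]
  have h2 : ((-1 : ℂ[X])) ^ n = ∏ _j : Fin n, (-1 : ℂ[X]) := by simp
  rw [h2, ← prod_mul_distrib]
  refine prod_congr rfl fun j _ => ?_
  have h3 : ee (2 * π * (j : ℕ) / n) = Complex.exp (2 * π * Complex.I / n) ^ (j : ℕ) := by
    rw [ee, ← Complex.exp_nat_mul]
    congr 1
    push_cast
    ring
  simp only [Function.comp, h3, mul_one]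
  ring

theorem pgood_st : PGOOD_st := by
  intro A B n h hA hB
  have hn : 0 < n := by omega
  have n0 : (0 : ℝ) < n := by exact_mod_cast hn
  have hp := Real.pi_pos
  have mono : ∀ i j : Fin n, i < j → 2 * π * (i : ℕ) / n < 2 * π * (j : ℕ) / n := by
    intro i j hij
    have : ((i : ℕ) : ℝ) < (j : ℕ) := by exact_mod_cast hij
    gcongr
  have win : ∀ i j : Fin n, 2 * π * (j : ℕ) / n < 2 * π * (i : ℕ) / n + 2 * π := by
    intro i j
    have h1 : ((j : ℕ) : ℝ) < n := by exact_mod_cast j.2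
    have h2 : 0 ≤ 2 * π * (i : ℕ) / n := by positivity
    have h3 : 2 * π * (j : ℕ) / n < 2 * π := by
      rw [div_lt_iff₀ n0]
      gcongr
    linarith
  refine ⟨?_, ?_, ?_⟩
  · rw [LL, List.map_ofFn, List.pairwise_ofFn]
    exact fun i j hij => mono i j hij
  · intro a ha b hb
    obtain ⟨i, rfl⟩ := List.mem_ofFn.1 ha
    obtain ⟨j, rfl⟩ := List.mem_ofFn.1 hb
    exact win i j
  · obtain ⟨N, rfl⟩ : ∃ N, n = N + 2 := ⟨n - 2, by omega⟩
    obtain ⟨S, s1, s2⟩ := refl_pgood B N (by omega)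
    have key : QQ (LL A B (N + 2)) = C ((-1) ^ (N + 1)) * (A - S) := by
      refine eq_of_degrees_lt_of_eval_index_eq (univ : Finset (Fin (N + 2)))
        (v := fun j : Fin (N + 2) => ee (2 * π * (j : ℕ) / (N + 2 : ℕ))) (fun i _ j _ e => ?_) ?_ ?_ fun j _ => ?_
      · by_contra hij
        refine ee_ne_ee (fun e' => ?_) (win j i) (win i j) e
        rcases lt_or_gt_of_ne hij with h' | h'
        · exact (mono i j h').ne e'
        · exact (mono j i h').ne' e'
      · have := (deg_pgood (LL A B (N + 2))).2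
        rw [show (LL A B (N + 2)).length = N + 2 from List.length_ofFn] at this
        rwa [card_univ, Fintype.card_fin]
      · refine degree_le_natDegree.trans_lt ?_
        have := (natDegree_C_mul_le ((-1 : ℂ) ^ (N + 1)) (A - S)).trans (natDegree_sub_le A S)
        rw [card_univ, Fintype.card_fin]
        exact_mod_cast this.trans_lt (max_lt (by omega) (by omega))
      · have h1 := (val_pgood (LL A B (N + 2)) _ (List.mem_ofFn.2 ⟨j, rfl⟩))
        obtain ⟨z, hz⟩ : ∃ z, z = ee (2 * π * (j : ℕ) / (N + 2 : ℕ)) := ⟨_, rfl⟩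
        have z1 : ‖z‖ = 1 := by rw [hz, norm_ee]
        have z2 : z * conj z = 1 := by
          rw [Complex.mul_conj, Complex.normSq_eq_norm_sq, z1]; simp
        simp only [pp_pgood A B hn, dd, ← hz] at h1 ⊢
        obtain ⟨h1, h2⟩ := h1
        have z3 : z ^ (N + 2) = 1 := by simpa [sub_eq_zero] using h1
        have n1 : ((N + 2 : ℕ) : ℂ) ≠ 0 := Nat.cast_ne_zero.2 (by omega)
        have h3 : (derivative ((-1) ^ (N + 2) * (X ^ (N + 2) - 1) : ℂ[X])).eval z =
            (-1) ^ (N + 2) * ((N + 2 : ℕ) * z ^ (N + 1)) := by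
          rw [show ((-1 : ℂ[X])) ^ (N + 2) = C ((-1) ^ (N + 2)) by simp, derivative_C_mul,
            derivative_sub, derivative_one, derivative_X_pow]
          simp
        rw [h2, h3, eval_mul, eval_C, eval_sub, s2 z z1, map_mul]
        field_simp
        linear_combination (-(-1) ^ N * A.eval z) * z3 + ((-1) ^ N * z ^ N * conj (B.eval z)) * z2
    intro z hz
    rw [key, eval_mul, eval_C]
    refine mul_ne_zero (by simp) (max_pgood (fun w hw => ?_) (fun w hw => ?_) z hz)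
    · exact norm_pos_iff.1 ((norm_nonneg _).trans_lt (h w hw))
    · rw [s2 w hw, norm_mul, norm_pow, hw, one_pow, one_mul, Complex.norm_conj]
      exact h w hw.le

end Pool.Agent.MP_334d28_an.K

end

section

/-!
The moments of the step map.
-/

open Polynomial Finset
open scoped Real ComplexConjugate

namespace Pool.Agent.MP_334d28_an.K

theorem orth_pmom (n : ℕ) (e : ℤ) (h1 : -(n : ℤ) < e) (h2 : e < n) :
    ∑ j ∈ range n, ee (e * (2 * π * j / n)) = if e = 0 then (n : ℂ) else 0 := by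
  have hn : (0 : ℝ) < n := by
    have : (0 : ℤ) < n := by omega
    exact_mod_cast this
  split_ifs with he
  · simp [he]
  · have hw : ∀ j : ℕ, ee (e * (2 * π * j / n)) = ee (e * (2 * π) / n) ^ j := by
      intro j
      rw [← ee_nat]; congr 1; ring
    simp only [hw]
    have h1' : -(n : ℝ) < e := by exact_mod_cast h1
    have h2' : (e : ℝ) < n := by exact_mod_cast h2
    have he' : (e : ℝ) ≠ 0 := by exact_mod_cast he
    have hp := Real.pi_pos
    have hne : ee (e * (2 * π) / n) ≠ 1 := by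
      rw [← ee_zero]
      apply ee_ne_ee
      · positivity
      · rw [zero_add, div_lt_iff₀ hn]; nlinarith
      · have : -(2 * π) < e * (2 * π) / n := by
          rw [lt_div_iff₀ hn]; nlinarith
        linarith
    have hpow : ee (e * (2 * π) / n) ^ n = 1 := by
      rw [← ee_nat]
      have : (n : ℝ) * (e * (2 * π) / n) = e * (2 * π) := by field_simp
      rw [this, ee_int, ee_two_pi, one_zpow]
    rw [geom_sum_eq hne, hpow, sub_self, zero_div]

theorem poly_pmom (A : ℂ[X]) (n : ℕ) (e : ℤ) (h1 : -1 ≤ e) (h2 : e ≤ 3)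
    (hA : A.natDegree + 3 < n) :
    ∑ j ∈ range n, ee (e * (2 * π * j / n)) * A.eval (ee (2 * π * j / n)) =
      ∑ i ∈ range (A.natDegree + 2), A.coeff i * (if e + i = 0 then (n : ℂ) else 0) := by
  have hev : ∀ z : ℂ, A.eval z = ∑ i ∈ range (A.natDegree + 1), A.coeff i * z ^ i :=
    fun z => eval_eq_sum_range z
  rw [sum_range_succ, coeff_eq_zero_of_natDegree_lt (Nat.lt_succ_self _), zero_mul, add_zero]
  simp only [hev, mul_sum]
  rw [sum_comm]
  refine sum_congr rfl fun i hi => ?_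
  have hi' := mem_range.1 hi
  rw [← orth_pmom n (e + i) (by omega) (by omega), mul_sum]
  refine sum_congr rfl fun j _ => ?_
  rw [← ee_nat, mul_left_comm, ← ee_add]
  congr 2
  push_cast
  ring

theorem pos_pmom (A : ℂ[X]) (n : ℕ) (e : ℤ) (h1 : 1 ≤ e) (h2 : e ≤ 3)
    (hA : A.natDegree + 3 < n) :
    ∑ j ∈ range n, ee (e * (2 * π * j / n)) * A.eval (ee (2 * π * j / n)) = 0 := by
  rw [poly_pmom A n e (by omega) h2 hA]
  refine sum_eq_zero fun i _ => ?_
  rw [if_neg (by omega), mul_zero]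

theorem neg_pmom (A : ℂ[X]) (n k : ℕ) (hk : k ≤ 1) (hA : A.natDegree + 3 < n) :
    ∑ j ∈ range n, ee ((-(k : ℤ) : ℤ) * (2 * π * j / n)) * A.eval (ee (2 * π * j / n)) =
      A.coeff k * n := by
  rw [poly_pmom A n (-(k : ℤ)) (by omega) (by omega) hA, sum_eq_single k]
  · rw [if_pos (by omega)]
  · intro i _ hi
    rw [if_neg (by omega), mul_zero]
  · intro h
    exact absurd (mem_range.2 (by omega)) h

theorem gen_pmom (A B : ℂ[X]) (n : ℕ) (m : ℤ) :
    ∑ j ∈ range n, dd A B n j * ee (m * (2 * π * j / n)) =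
      (∑ j ∈ range n, ee ((1 + m : ℤ) * (2 * π * j / n)) * A.eval (ee (2 * π * j / n)) -
        conj (∑ j ∈ range n, ee ((1 - m : ℤ) * (2 * π * j / n)) * B.eval (ee (2 * π * j / n)))) /
          n := by
  rw [map_sum, ← sum_sub_distrib, sum_div]
  refine sum_congr rfl fun j _ => ?_
  set t : ℝ := 2 * π * j / n with ht
  have e1 : ee ((1 + m : ℤ) * t) = ee t * ee (m * t) := by
    rw [← ee_add]; congr 1; push_cast; ring
  have e2 : ee ((1 - m : ℤ) * t) = ee t * ee (-(m * t)) := by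
    rw [← ee_add]; congr 1; push_cast; ring
  have e3 : conj (ee (-(m * t))) = ee (m * t) := by rw [conj_ee, neg_neg]
  rw [dd, ← ht, e1, e2]
  simp only [map_mul, e3]
  ring

theorem mom_pmom (A B : ℂ[X]) (n : ℕ) (m : ℤ) :
    mom (LL A B n) m = ∑ j ∈ range n, dd A B n j * ee (m * (2 * π * j / n)) := by
  rw [mom, LL, List.map_ofFn, List.sum_ofFn,
    ← Fin.sum_univ_eq_sum_range (fun j => dd A B n j * ee (m * (2 * π * j / n))) n]
  rfl

theorem pmom_st : PMOM_st := by
  intro A B n hB0 hA hB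
  have hn : (n : ℂ) ≠ 0 := by
    have : n ≠ 0 := by omega
    exact_mod_cast this
  refine ⟨?_, ?_, ?_, ?_⟩
  · have h := gen_pmom A B n 0
    rw [pos_pmom A n _ (by norm_num) (by norm_num) hA,
      pos_pmom B n _ (by norm_num) (by norm_num) hB] at h
    simpa using h
  · have h := gen_pmom A B n 1
    have h0 := neg_pmom B n 0 (by norm_num) hB
    have e : (1 - 1 : ℤ) = -((0 : ℕ) : ℤ) := by norm_num
    rw [pos_pmom A n _ (by norm_num) (by norm_num) hA, e, h0, coeff_zero_eq_eval_zero, hB0,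
      ← mom_pmom] at h
    simpa using h
  · have h := gen_pmom A B n (-1)
    have h0 := neg_pmom A n 0 (by norm_num) hA
    have e : (1 + -1 : ℤ) = -((0 : ℕ) : ℤ) := by norm_num
    rw [pos_pmom B n _ (by norm_num) (by norm_num) hB, e, h0, coeff_zero_eq_eval_zero,
      ← mom_pmom, map_zero, sub_zero, mul_div_cancel_right₀ _ hn] at h
    simpa using h
  · have h := gen_pmom A B n (-2)
    have h0 := neg_pmom A n 1 (by norm_num) hA
    have e : (1 + -2 : ℤ) = -((1 : ℕ) : ℤ) := by norm_num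
    rw [pos_pmom B n _ (by norm_num) (by norm_num) hB, e, h0,
      ← mom_pmom, map_zero, sub_zero, mul_div_cancel_right₀ _ hn] at h
    rw [← coeff_zero_eq_eval_zero, coeff_derivative]
    simpa using h

end Pool.Agent.MP_334d28_an.K

end

section

open Polynomial Finset
open scoped Real ComplexConjugate

namespace Pool.Agent.MP_334d28_an.K

theorem apx_st : APX_st := by
  intro F R η hR hη hF
  obtain ⟨r1, a1, a2⟩ := exists_between hR
  obtain ⟨r2, b1, b2⟩ := exists_between a1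
  let s1 : NNReal := ⟨r1, by linarith⟩
  let s2 : NNReal := ⟨r2, by linarith⟩
  have hd : DifferentiableOn ℂ F (Metric.closedBall 0 (s1 : ℝ)) :=
    hF.mono (Metric.closedBall_subset_ball a2)
  have h0 : 0 < s1 := by
    show (0 : ℝ) < r1
    linarith
  have hp := hd.hasFPowerSeriesOnBall h0
  set p := cauchyPowerSeries F 0 (s1 : ℝ) with hpd
  have hlt : (s2 : ENNReal) < s1 := by
    rw [ENNReal.coe_lt_coe]
    exact b2
  have hu := hp.tendstoUniformlyOn hlt
  rw [Metric.tendstoUniformlyOn_iff] at hu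
  obtain ⟨n, hn, hn2⟩ := ((hu η hη).and (Filter.eventually_ge_atTop 2)).exists
  have c0 : p.coeff 0 = F 0 := hp.coeff_zero _
  have c1 : deriv F 0 = p.coeff 1 := hp.hasFPowerSeriesAt.deriv
  refine ⟨∑ k ∈ range n, C (p.coeff k) * X ^ k, ?_, ?_, fun z hz => ?_⟩
  · rw [← coeff_zero_eq_eval_zero, finsetSum_coeff, ← c0]
    simp only [coeff_C_mul_X_pow]
    rw [sum_ite_eq, if_pos (mem_range.2 (by omega))]
  · rw [← coeff_zero_eq_eval_zero, coeff_derivative, finsetSum_coeff, c1]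
    simp only [coeff_C_mul_X_pow, zero_add]
    rw [sum_ite_eq, if_pos (mem_range.2 (by omega))]
    simp
  · have hz2 : z ∈ Metric.ball (0 : ℂ) (s2 : ℝ) := by
      rw [mem_ball_zero_iff]
      exact hz.trans_lt b1
    have h := hn z hz2
    rw [zero_add, dist_comm, dist_eq_norm] at h
    have e : (∑ k ∈ range n, C (p.coeff k) * X ^ k).eval z = p.partialSum n z := by
      rw [eval_finsetSum, FormalMultilinearSeries.partialSum]
      refine sum_congr rfl fun k _ => ?_
      rw [FormalMultilinearSeries.apply_eq_pow_smul_coeff, eval_mul, eval_C, eval_pow, eval_X,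
        smul_eq_mul, mul_comm]
    rw [e]
    exact h.le

end Pool.Agent.MP_334d28_an.K

end

section

open Polynomial Finset
open scoped Real ComplexConjugate

namespace Pool.Agent.MP_334d28_an.K

theorem circ_main {h : ℂ → ℂ} (hh : DifferentiableOn ℂ h (Metric.ball (0 : ℂ) 1)) {r : ℝ}
    (r0 : 0 < r) (r1 : r < 1) (t : ℝ) :
    HasDerivAt (fun s => h (r * ee s)) (deriv h (r * ee t) * (r * (Complex.I * ee t))) t := by
  have hm : (r : ℂ) * ee t ∈ Metric.ball (0 : ℂ) 1 := by
    simpa [abs_of_pos r0] using r1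
  have h1 := (hh.differentiableAt (Metric.isOpen_ball.mem_nhds hm)).hasDerivAt
  have h2 : HasDerivAt (fun s => (r : ℂ) * ee s) (r * (Complex.I * ee t)) t :=
    (hasDerivAt_ee t).const_mul _
  simpa [Function.comp_def, mul_comm] using
    (h1.hasFDerivAt.restrictScalars ℝ).comp_hasDerivAt t h2

theorem scale_main {h : ℂ → ℂ} (hh : DifferentiableOn ℂ h (Metric.ball (0 : ℂ) 1)) {r : ℝ}
    (r0 : 0 < r) : DifferentiableOn ℂ (fun z => deriv h (r * z)) (Metric.ball 0 (1 / r)) := by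
  refine (hh.deriv Metric.isOpen_ball).comp (by fun_prop) fun z hz => ?_
  rw [mem_ball_zero_iff] at hz ⊢
  rw [norm_mul, Complex.norm_real, Real.norm_eq_abs, abs_of_pos r0]
  rwa [lt_div_iff₀ r0, mul_comm] at hz

theorem main_st (hkey : KEY_st) : MAIN_st := by
  intro h g hh hg h1 g1 hi hlt
  have key : ∀ r : ℝ, 0 < r → r < 1 → r * ‖deriv (deriv h) 0‖ ≤ 5 := by
    intro r r0 r1
    have rc : (r : ℂ) ≠ 0 := by exact_mod_cast r0.ne'
    have hm : ∀ z : ℂ, ‖z‖ ≤ 1 → (r : ℂ) * z ∈ Metric.ball (0 : ℂ) 1 := fun z hz => by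
      rw [mem_ball_zero_iff, norm_mul, Complex.norm_real, Real.norm_eq_abs, abs_of_pos r0]
      exact (mul_le_of_le_one_right r0.le hz).trans_lt r1
    have := hkey (fun z => deriv h (r * z)) (fun z => deriv g (r * z)) (1 / r)
      (fun t => (h (r * ee t) + conj (g (r * ee t))) / (Complex.I * r))
      (one_lt_one_div r0 r1) (scale_main hh r0) (scale_main hg r0) (fun z hz => hlt _ (hm z hz))
      (by simpa using g1) (fun t => ?_) (fun t => by simp only [ee_add_two_pi]) ?_
    · have h2 : HasDerivAt (deriv h) (deriv (deriv h) 0) ((r : ℂ) * 0) := by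
        rw [mul_zero]
        exact ((hh.deriv Metric.isOpen_ball).differentiableAt
          (Metric.ball_mem_nhds _ one_pos)).hasDerivAt
      have h3 : HasDerivAt (fun z => deriv h (r * z)) (deriv (deriv h) 0 * r) 0 := by
        simpa [Function.comp_def] using h2.comp (0 : ℂ) ((hasDerivAt_id (0 : ℂ)).const_mul (r : ℂ))
      rw [h3.deriv, norm_mul, Complex.norm_real, Real.norm_eq_abs, abs_of_pos r0, mul_zero, h1,
        norm_one, mul_one, mul_comm] at this
      exact this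
    · have h2 := ((circ_main hh r0 r1 t).add (circ_main hg r0 r1 t).star).div_const (Complex.I * r)
      refine HasDerivAt.congr_deriv h2 ?_
      rw [div_eq_iff (mul_ne_zero Complex.I_ne_zero rc)]
      simp only [Complex.star_def, map_mul, Complex.conj_ofReal, Complex.conj_I]
      ring
    · intro s hs t ht e
      by_contra hne
      have e1 := (div_left_inj' (mul_ne_zero Complex.I_ne_zero rc)).1 e
      have e2 := hi (hm _ (norm_ee s).le) (hm _ (norm_ee t).le) e1
      exact ee_ne_ee hne (by linarith [hs.2, ht.1]) (by linarith [hs.1, ht.2])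
        (mul_left_cancel₀ rc e2)
  have h5 : ‖deriv (deriv h) 0‖ ≤ 5 := by
    by_contra hc
    have hc := not_le.1 hc
    have h6 := key ((5 / ‖deriv (deriv h) 0‖ + 1) / 2) (by positivity)
      (by have := (div_lt_one (by linarith)).2 hc; linarith)
    have h7 : (5 / ‖deriv (deriv h) 0‖ + 1) / 2 * ‖deriv (deriv h) 0‖ =
        (5 + ‖deriv (deriv h) 0‖) / 2 := by
      have : ‖deriv (deriv h) 0‖ ≠ 0 := by linarith
      field_simp
    linarith
  rw [norm_div, iteratedDeriv_succ, iteratedDeriv_one]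
  simp only [Complex.norm_ofNat]
  linarith

end Pool.Agent.MP_334d28_an.K

end
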