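import Pool.Agent.Mg.F334d28p.G17fa7d

section

open Polynomial Finset
open scoped Real ComplexConjugate

namespace Pool.Agent.MP_334d28_an.K

theorem prod_res {ι : Type*} (s : Finset ι) (f : ι → ℝ) (θ : ℝ) :
    ∏ j ∈ s, (ee θ - ee (f j)) = (2 * Complex.I) ^ s.card * ((∏ j ∈ s, sn θ (f j) : ℝ) : ℂ) *
      ee ((s.card * θ + ∑ j ∈ s, f j) / 2) := by
  have e : (s.card * θ + ∑ j ∈ s, f j) / 2 = ∑ j ∈ s, (θ + f j) / 2 := by
    rw [← sum_div, sum_add_distrib, sum_const, nsmul_eq_mul]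
  rw [e, ee_sum, Complex.ofReal_prod, ← prod_const, ← prod_mul_distrib, ← prod_mul_distrib]
  exact prod_congr rfl fun j _ => ee_sub θ (f j)

theorem erase_res {N : ℕ} (θ : Fin N × Bool → ℝ) (u : Fin N × Bool) :
    ∏ v ∈ univ.erase u, (ee (θ u) - ee (θ v)) = (2 * Complex.I) ^ (2 * N - 1) *
      ((∏ v ∈ univ.erase u, sn (θ u) (θ v) : ℝ) : ℂ) *
      ee (((2 * N - 2) * θ u + ∑ v, θ v) / 2) := by
  have hN : 0 < N := u.1.pos
  have hc : (univ.erase u).card = 2 * N - 1 := by
    rw [card_erase_of_mem (mem_univ u), card_univ, Fintype.card_prod, Fintype.card_fin,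
      Fintype.card_bool, mul_comm]
  rw [prod_res, hc, ← add_sum_erase univ θ (mem_univ u), Nat.cast_sub (by omega)]
  congr 2
  push_cast
  ring

theorem ite_res {ι : Type*} [Fintype ι] [DecidableEq ι] (i : ι) (g : ι → ℂ) :
    ∏ j ∈ univ.erase i, g j = ∏ j, if j = i then 1 else g j := by
  rw [← filter_ne', prod_filter]
  exact prod_congr rfl fun j _ => ite_not _ _ _

theorem lag_res {ι : Type*} [Fintype ι] [DecidableEq ι] (z : ι → ℂ) (hz : Function.Injective z)
    (h0 : ∀ u, z u ≠ 0) (G : ℂ[X]) (hG : G.degree < (Fintype.card ι + 1 : ℕ)) :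
    G.coeff (Fintype.card ι) = G.eval 0 / ∏ u, (0 - z u) +
      ∑ u, G.eval (z u) / (z u * ∏ v ∈ univ.erase u, (z u - z v)) := by
  let y : Option ι → ℂ := fun o => o.elim 0 z
  have hy : Function.Injective y := by
    rintro (_ | a) (_ | b) e
    · rfl
    · exact absurd e.symm (h0 b)
    · exact absurd e (h0 a)
    · exact congrArg some (hz e)
  have h := Lagrange.coeff_eq_sum (s := univ) (v := y) hy.injOn (P := G)
    (by rwa [card_univ, Fintype.card_option])
  rw [card_univ, Fintype.card_option, Nat.add_sub_cancel] at h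
  rw [h, Fintype.sum_option]
  simp only [ite_res, Fintype.prod_option, y, Option.elim, if_true, one_mul, reduceCtorEq,
    if_false, sub_zero, Option.some.injEq]

theorem res_st : RES_st := by
  intro N lo hi τ A hN hA
  let z : Fin N × Bool → ℂ := fun u => ee (pt lo hi u)
  let T : ℂ[X] := ∏ j, (X - C (ee (τ j)))
  let D : ℂ[X] := ∏ u, (X - C (z u))
  have hT : T.Monic := monic_prod_of_monic _ _ fun j _ => monic_X_sub_C _
  have hD : D.Monic := monic_prod_of_monic _ _ fun j _ => monic_X_sub_C _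
  have hc : Fintype.card (Fin N × Bool) = 2 * N := by simp [mul_comm]
  have dT : T.natDegree = N + 1 := by
    rw [natDegree_finsetProd_X_sub_C_eq_card, card_univ, Fintype.card_fin]
  have dD : D.natDegree = 2 * N := by
    rw [natDegree_finsetProd_X_sub_C_eq_card, card_univ, hc]
  have m1 : (T * A).Monic := hT.mul hA.1
  have m2 : (X * D).Monic := monic_X.mul hD
  have d1 : (T * A).natDegree = 2 * N + 1 := by
    rw [hT.natDegree_mul hA.1, dT, hA.2.1]; ring
  have d2 : (X * D).natDegree = 2 * N + 1 := by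
    rw [monic_X.natDegree_mul hD, dD, natDegree_X]; ring
  have hG : degree (T * A - X * D) <
      ((Fintype.card (Fin N × Bool) + 1 : ℕ) : WithBot ℕ) := by
    rw [hc, ← d1, ← degree_eq_natDegree m1.ne_zero]
    refine degree_sub_lt_left ?_ m1.ne_zero (m1.leadingCoeff.trans m2.leadingCoeff.symm)
    rw [degree_eq_natDegree m1.ne_zero, degree_eq_natDegree m2.ne_zero, d1, d2]
  have key := lag_res z hN.ee_inj (fun u => ee_ne _) _ hG
  have c1 : (T * A).coeff (2 * N) = -∑ j, ee (τ j) + A.nextCoeff := by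
    rw [← prod_X_sub_C_nextCoeff, ← hT.nextCoeff_mul hA.1,
      nextCoeff_of_natDegree_pos (by omega), d1, Nat.add_sub_cancel]
  have c2 : (X * D).coeff (2 * N) = -∑ u, z u := by
    have a : (X * D).nextCoeff = D.nextCoeff := by
      rw [monic_X.nextCoeff_mul hD]
      simp [nextCoeff]
    rw [← prod_X_sub_C_nextCoeff, ← a, nextCoeff_of_natDegree_pos (by omega), d2,
      Nat.add_sub_cancel]
  have hu : ∀ u, (T * A - X * D).eval (z u) / (z u * ∏ v ∈ univ.erase u, (z u - z v)) =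
      (2 * Complex.I) ^ (N + 1) / (2 * Complex.I) ^ (2 * N - 1) *
        ee ((∑ j, τ j - ∑ v, pt lo hi v) / 2) * ((wt lo hi τ u : ℂ) * al N A (pt lo hi u)) := by
    intro u
    have a : D.eval (z u) = 0 := by
      rw [eval_prod]
      exact prod_eq_zero (mem_univ u) (by simp)
    have b : T.eval (z u) = ∏ j, (z u - ee (τ j)) := by
      rw [eval_prod]
      simp
    have e : ee ((((N + 1 : ℕ) : ℝ) * pt lo hi u + ∑ j, τ j) / 2) =
        ee (pt lo hi u) * ee (((2 * N - 2) * pt lo hi u + ∑ v, pt lo hi v) / 2) *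
          ee ((∑ j, τ j - ∑ v, pt lo hi v) / 2) * ee (-(((N : ℝ) - 1) * pt lo hi u / 2)) := by
      rw [← ee_add, ← ee_add, ← ee_add]
      congr 1
      push_cast
      ring
    rw [eval_sub, eval_mul, eval_mul, a, mul_zero, sub_zero, b]
    simp only [z]
    rw [erase_res, prod_res, card_univ, Fintype.card_fin, e, wt, al, Complex.ofReal_div]
    have n1 := ee_ne (pt lo hi u)
    have n2 := ee_ne (((2 * N - 2) * pt lo hi u + ∑ v, pt lo hi v) / 2)
    generalize ee (((2 * N - 2) * pt lo hi u + ∑ v, pt lo hi v) / 2) = x at n2 ⊢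
    field_simp
  have hs : ∑ u, (wt lo hi τ u : ℂ) * al N A (pt lo hi u) = 0 := by
    rw [Fintype.sum_prod_type]
    refine sum_eq_zero fun k _ => ?_
    rw [Fintype.sum_bool, add_comm]
    exact hA.2.2 k
  simp only [hu] at key
  rw [← mul_sum, hs, mul_zero, add_zero, hc, coeff_sub, c1, c2] at key
  have e : ∑ u, ee (pt lo hi u) - ∑ j, ee (τ j) + A.nextCoeff =
      -∑ j, ee (τ j) + A.nextCoeff - -∑ u, z u := by ring
  rw [e, key, eval_sub, eval_mul, eval_mul, eval_X, zero_mul, sub_zero, norm_div, norm_mul,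
    eval_prod, norm_prod, norm_prod]
  simp [z]

end Pool.Agent.MP_334d28_an.K

end

section

open Polynomial Finset
open scoped Real ComplexConjugate

namespace Pool.Agent.MP_334d28_an.K

theorem neg_conv {ι : Type*} (s : Finset ι) (f : ι → ℂ) (z : ℂ) :
    ∏ j ∈ s, (f j - z) = (-1) ^ s.card * ∏ j ∈ s, (z - f j) := by
  rw [← prod_const, ← prod_mul_distrib]
  exact prod_congr rfl fun j _ => by ring

theorem der_conv {N : ℕ} (p : Fin 4 → ℝ) (lo hi : Fin N → ℝ) (u : Fin N × Bool) :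
    (PI p lo hi).derivative.eval (ee (pt lo hi u)) =
      -((∏ i, (ee (p i) - ee (pt lo hi u))) *
        ∏ v ∈ univ.erase u, (ee (pt lo hi v) - ee (pt lo hi u))) := by
  rw [PI, ← mul_prod_erase univ _ (mem_univ u), mul_left_comm, derivative_mul]
  simp [eval_prod]

theorem al_conv {N : ℕ} (w : Fin N → ℂ) (θ : ℝ) :
    conj (al N (∏ j, (X - C (w j))) θ) =
      ee (-((N + 1) * θ / 2)) * ∏ j, (1 - conj (w j) * ee θ) := by
  have e : ee (((N : ℝ) - 1) * θ / 2) * ee (-θ) ^ N = ee (-((N + 1) * θ / 2)) := by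
    rw [← ee_nat, ← ee_add]
    congr 1
    ring
  have e2 : ∏ j, conj (ee θ - w j) = ee (-θ) ^ N * ∏ j, (1 - conj (w j) * ee θ) := by
    rw [← Fin.prod_const, ← prod_mul_distrib]
    refine prod_congr rfl fun j _ => ?_
    rw [map_sub, conj_ee]
    linear_combination conj (w j) * ee_mul_neg θ
  rw [al, map_mul, conj_ee, neg_neg, eval_prod, map_prod, ← e, mul_assoc, ← e2]
  simp

theorem qx_conv {N : ℕ} (τ : Fin (N + 1) → ℝ) (w : Fin N → ℂ) (z : ℂ) :
    (QX τ w).eval z = (-1) ^ (N + 1) * ee (-∑ j, τ j) * (∏ j, (z - ee (τ j))) *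
      ∏ j, (1 - conj (w j) * z) := by
  have e : ∏ j, (1 - ee (-τ j) * z) = ee (-∑ j, τ j) * ∏ j, (ee (τ j) - z) := by
    rw [← sum_neg_distrib, ee_sum, ← prod_mul_distrib]
    refine prod_congr rfl fun j _ => ?_
    linear_combination -ee_mul_neg (τ j)
  rw [QX, eval_mul, eval_prod, eval_prod]
  simp only [eval_sub, eval_mul, eval_one, eval_C, eval_X]
  rw [e, neg_conv, card_univ, Fintype.card_fin]
  ring

theorem conv_st : CONV_st := by
  intro N p lo hi τ w hN hp hP
  refine ⟨monic_prod_of_monic _ _ fun j _ => monic_X_sub_C _, by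
    rw [natDegree_finsetProd_X_sub_C_eq_card, card_univ, Fintype.card_fin], fun k => ?_⟩
  let K : ℂ := -((-1) ^ (N + 1) * (2 * Complex.I) ^ (N + 1) *
    ee ((-∑ j, τ j - ∑ i, p i - ∑ v, pt lo hi v) / 2) /
      ((-1) ^ (2 * N - 1) * (2 * Complex.I) ^ 4 * (2 * Complex.I) ^ (2 * N - 1)))
  have hI : (2 * Complex.I : ℂ) ≠ 0 := mul_ne_zero two_ne_zero Complex.I_ne_zero
  have hK : K ≠ 0 := neg_ne_zero.mpr (div_ne_zero
    (mul_ne_zero (mul_ne_zero (pow_ne_zero _ (by norm_num)) (pow_ne_zero _ hI)) (ee_ne _))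
    (mul_ne_zero (mul_ne_zero (pow_ne_zero _ (by norm_num)) (pow_ne_zero _ hI)) (pow_ne_zero _ hI)))
  have hu : ∀ u, (QX τ w).eval (ee (pt lo hi u)) / (PI p lo hi).derivative.eval (ee (pt lo hi u)) =
      K * conj (((wt lo hi τ u / ∏ i, sn (pt lo hi u) (p i) : ℝ) : ℂ) *
        al N (∏ j, (X - C (w j))) (pt lo hi u)) := by
    intro u
    have hc : (univ.erase u).card = 2 * N - 1 := by
      rw [card_erase_of_mem (mem_univ u), card_univ, Fintype.card_prod, Fintype.card_fin,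
        Fintype.card_bool, mul_comm]
    have e : ee ((((N + 1 : ℕ) : ℝ) * pt lo hi u + ∑ j, τ j) / 2) =
        ee (∑ j, τ j) * ee ((((4 : ℕ) : ℝ) * pt lo hi u + ∑ i, p i) / 2) *
          ee (((2 * N - 2) * pt lo hi u + ∑ v, pt lo hi v) / 2) *
          ee ((-∑ j, τ j - ∑ i, p i - ∑ v, pt lo hi v) / 2) *
          ee (-((N + 1) * pt lo hi u / 2)) := by
      rw [← ee_add, ← ee_add, ← ee_add, ← ee_add]
      congr 1
      push_cast
      ring
    rw [map_mul, Complex.conj_ofReal, al_conv, der_conv, qx_conv, neg_conv univ,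
      neg_conv (univ.erase u), hc, erase_res, prod_res, prod_res, card_univ, card_univ,
      Fintype.card_fin, Fintype.card_fin, e, ee_neg (∑ j, τ j), wt, Complex.ofReal_div,
      Complex.ofReal_div]
    simp only [K]
    have n1 := ee_ne (∑ j, τ j)
    have n2 := ee_ne (((2 * N - 2) * pt lo hi u + ∑ v, pt lo hi v) / 2)
    have n3 := ee_ne ((((4 : ℕ) : ℝ) * pt lo hi u + ∑ i, p i) / 2)
    generalize ee (((2 * N - 2) * pt lo hi u + ∑ v, pt lo hi v) / 2) = x at n2 ⊢
    generalize ee ((((4 : ℕ) : ℝ) * pt lo hi u + ∑ i, p i) / 2) = y at n3 ⊢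
    generalize ee ((-∑ j, τ j - ∑ i, p i - ∑ v, pt lo hi v) / 2) = a
    generalize ee (-((N + 1) * pt lo hi u / 2)) = b
    generalize (2 * Complex.I : ℂ) = i at hI ⊢
    generalize ∏ j, (1 - conj (w j) * ee (pt lo hi u)) = c
    field_simp
  have h := hP k
  have h1 := hu (k, false)
  have h2 := hu (k, true)
  simp only [pt, cond_true, cond_false] at h1 h2
  rw [h1, h2, ← mul_add, ← map_add] at h
  exact (map_eq_zero _).mp ((mul_eq_zero.mp h).resolve_left hK)

end Pool.Agent.MP_334d28_an.K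

end

section

open Polynomial Finset
open scoped Real ComplexConjugate

namespace Pool.Agent.MP_334d28_an.K

theorem arg_div_earw {p q : ℂ} (hp : 0 < p.re) (hq : 0 < q.re) :
    Complex.arg (p / q) = Complex.arg p - Complex.arg q := by
  have h1 := abs_lt.1 (Complex.abs_arg_lt_pi_div_two_iff.2 (Or.inl hp))
  have h2 := abs_lt.1 (Complex.abs_arg_lt_pi_div_two_iff.2 (Or.inl hq))
  have p0 : p ≠ 0 := by rintro rfl; simp at hp
  have q0 : q ≠ 0 := by rintro rfl; simp at hq
  have h3 : Complex.arg q⁻¹ = -Complex.arg q := by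
    rw [Complex.arg_inv, if_neg (by linarith [Real.pi_pos])]
  rw [div_eq_mul_inv, (Complex.arg_mul_eq_add_arg_iff p0 (inv_ne_zero q0)).2, h3, sub_eq_add_neg]
  rw [h3]
  constructor <;> linarith

theorem edge_earw {v φ x y : ℂ} (hx : 0 < (conj φ * (x - v)).re) (hy : 0 < (conj φ * (y - v)).re) :
    Complex.arg ((y - v) / (x - v)) =
      Complex.arg (conj φ * (y - v)) - Complex.arg (conj φ * (x - v)) := by
  have h0 : conj φ ≠ 0 := by
    intro h
    rw [h] at hx
    simp at hx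
  rw [← arg_div_earw hy hx, mul_div_mul_left _ _ h0]

theorem tele_earw {v φ : ℂ} (a : ℂ) (l : List ℂ) (b : ℂ)
    (h : ∀ x ∈ a :: (l ++ [b]), 0 < (conj φ * (x - v)).re) :
    wn (pe a l b) v = Complex.arg (conj φ * (b - v)) - Complex.arg (conj φ * (a - v)) := by
  induction l generalizing a with
  | nil => simpa [wn, pe] using edge_earw (h a (by simp)) (h b (by simp))
  | cons x l ih =>
    have h1 := ih x fun y hy => h y (List.mem_cons_of_mem _ hy)
    have h2 := edge_earw (h a (by simp)) (h x (by simp))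
    simp only [wn, pe, List.map_cons, List.sum_cons] at h1 ⊢
    rw [h1, h2]
    ring

theorem slit_earw {x y w : ℂ} (h : w ∉ segment ℝ x y) : (y - w) / (x - w) ∈ Complex.slitPlane := by
  have hx : x - w ≠ 0 := by
    intro e
    exact h (sub_eq_zero.1 e ▸ left_mem_segment ℝ x y)
  rw [Complex.mem_slitPlane_iff]
  by_contra h1
  rw [not_or, not_lt, not_not] at h1
  set t : ℝ := -((y - w) / (x - w)).re with ht
  have t0 : 0 ≤ t := by linarith [h1.1]
  have h2 : (y - w) / (x - w) = -(t : ℂ) := by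
    apply Complex.ext <;> simp [ht, h1.2]
  rw [div_eq_iff hx] at h2
  have h3 : (0 : ℝ) < 1 + t := by linarith
  have h4 : (1 + t : ℂ) ≠ 0 := by exact_mod_cast h3.ne'
  refine h ⟨t / (1 + t), 1 / (1 + t), by positivity, by positivity, by field_simp; ring, ?_⟩
  simp only [Complex.real_smul]
  push_cast
  field_simp
  linear_combination h2

theorem cont_earw (E : List (ℂ × ℂ)) {w : ℂ} (h : Off E w) :
    ContinuousAt (wn E) w ∧ ∀ᶠ z in nhds w, Off E z := by
  induction E with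
  | nil => exact ⟨continuousAt_const, Filter.Eventually.of_forall fun z e he => by simp at he⟩
  | cons e E ih =>
    obtain ⟨h1, h2⟩ := ih fun f hf => h f (List.mem_cons_of_mem _ hf)
    have h3 := h e List.mem_cons_self
    have hx : e.1 - w ≠ 0 := by
      intro e'
      exact h3 (sub_eq_zero.1 e' ▸ left_mem_segment ℝ e.1 e.2)
    constructor
    · have h4 : ContinuousAt (fun z : ℂ => (e.2 - z) / (e.1 - z)) w :=
        (continuousAt_const.sub continuousAt_id).div (continuousAt_const.sub continuousAt_id) hx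
      exact (ContinuousAt.comp (f := fun z : ℂ => (e.2 - z) / (e.1 - z))
        (Complex.continuousAt_arg (slit_earw h3)) h4).add h1
    · have h5 : IsClosed (segment ℝ e.1 e.2) := by
        rw [segment_eq_image]
        exact (isCompact_Icc.image (by fun_prop)).isClosed
      filter_upwards [h2, h5.isOpen_compl.mem_nhds h3] with z h6 h7 f hf
      rcases List.mem_cons.1 hf with rfl | hf
      · exact h7
      · exact h6 f hf

theorem im_earw (v a b : ℂ) (s : ℝ) :
    ((a - bc v a b s s) / (b - bc v a b s s)).im =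
      (1 - 2 * s) * wdg (b - v) (a - v) / Complex.normSq (b - bc v a b s s) := by
  rw [Complex.div_im, ← sub_div]
  congr 1
  simp [bc, wdg]
  ring

theorem earw_st (hwnc : WNC_st) (hwnp : WNP_st) : EARW_st := by
  intro v a b φ l hw hφ hE hT
  have hne := hw.ne'
  have hP : ∀ s : ℝ, 0 ≤ s → s ≤ 1 / 2 → Off (pe a l.reverse b) (bc v a b s s) := by
    intro s h0 h1 e he
    rw [pe_reverse, List.mem_reverse] at he
    obtain ⟨f, hf, rfl⟩ := List.mem_map.1 he
    rw [segment_symm]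
    exact hE f hf s s h0 h0 (by linarith) (by linarith) (by linarith)
  have hC : ∀ s : ℝ, s ≠ 1 / 2 → bc v a b s s ∉ segment ℝ b a := by
    rintro s hs ⟨p, q, -, -, hpq, e⟩
    have h1 := bc_comb v a b 0 1 1 0 p q hpq
    rw [bc_a, bc_b, e] at h1
    obtain ⟨h2, h3⟩ := bc_inj hne h1
    apply hs
    linarith
  have hQ : ∀ w, Off (pe a l.reverse b) w → w ∉ segment ℝ b a →
      Off (ce (a :: (l.reverse ++ [b]))) w := by
    intro w h1 h2 e he
    rw [ce_cons_append, List.mem_append, List.mem_singleton] at he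
    rcases he with he | rfl
    · exact h1 e he
    · exact h2
  have hW : ∀ w, wn (ce (a :: (l.reverse ++ [b]))) w =
      wn (pe a l.reverse b) w + Complex.arg ((a - w) / (b - w)) := by
    intro w
    rw [ce_cons_append]
    simp [wn]
  have h0 : wn (ce (a :: (l.reverse ++ [b]))) v = 0 := by
    rw [hW, tele_earw (φ := φ) a l.reverse b fun x hx => hφ x (by simp at hx ⊢; tauto),
      edge_earw (hφ b (by simp)) (hφ a (by simp))]
    ring
  have h1 : ∀ s : ℝ, 0 ≤ s → s < 1 / 2 →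
      wn (ce (a :: (l.reverse ++ [b]))) (bc v a b s s) = 0 := by
    intro s s0 s1
    rw [← h0]
    refine (hwnc _ _ _ ?_).symm
    rintro x ⟨p, q, hp, hq, hpq, rfl⟩
    have h2 := bc_comb v a b 0 0 s s p q hpq
    rw [bc_v] at h2
    have h3 : p * 0 + q * s ≤ s := by nlinarith
    have h4 : 0 ≤ p * 0 + q * s := by positivity
    rw [h2]
    exact hQ _ (hP _ h4 (by linarith)) (hC _ (by linarith))
  obtain ⟨c1, c2⟩ := cont_earw _ (hP (1 / 2) (by norm_num) le_rfl)
  have hm : Continuous fun s : ℝ => bc v a b s s := by unfold bc; fun_prop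
  have hab : b - a ≠ 0 := by
    intro e
    rw [sub_eq_zero.1 e] at hw
    simp at hw
  have e1 : b - bc v a b (1 / 2) (1 / 2) = (b - a) / 2 := by simp only [bc]; push_cast; ring
  have e2 : a - bc v a b (1 / 2) (1 / 2) = -((b - a) / 2) := by simp only [bc]; push_cast; ring
  have hb0 : b - bc v a b (1 / 2) (1 / 2) ≠ 0 := by rw [e1]; exact div_ne_zero hab two_ne_zero
  have c3 : ContinuousAt (fun s : ℝ => ((a - bc v a b s s) / (b - bc v a b s s)).re) (1 / 2) :=
    Complex.continuous_re.continuousAt.comp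
      ((continuousAt_const.sub hm.continuousAt).div (continuousAt_const.sub hm.continuousAt) hb0)
  have c4 : ∀ᶠ s : ℝ in nhds (1 / 2), ((a - bc v a b s s) / (b - bc v a b s s)).re < 0 := by
    refine c3.eventually_lt continuousAt_const ?_
    rw [e1, e2, neg_div, div_self (div_ne_zero hab two_ne_zero)]
    simp
  have c5 : ContinuousAt (fun s : ℝ => wn (pe a l.reverse b) (bc v a b s s)) (1 / 2) :=
    ContinuousAt.comp (f := fun s : ℝ => bc v a b s s) c1 hm.continuousAt
  have c6 := (Metric.tendsto_nhds.1 c5 (π / 4) (by positivity)).and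
    (c4.and (hm.continuousAt.eventually c2))
  obtain ⟨δ, δ0, hδ⟩ := Metric.eventually_nhds_iff.1 c6
  set d : ℝ := min δ 1 / 2 with hd
  have d0 : 0 < d := by positivity
  have d1 : d < δ := by linarith [min_le_left δ 1]
  have d2 : d ≤ 1 / 2 := by linarith [min_le_right δ 1]
  obtain ⟨a1, a2, -⟩ := hδ (y := 1 / 2 - d) (by
    rw [Real.dist_eq, sub_sub_cancel_left, abs_neg, abs_of_pos d0]; exact d1)
  obtain ⟨b1, -, b3⟩ := hδ (y := 1 / 2 + d) (by
    rw [Real.dist_eq, add_sub_cancel_left, abs_of_pos d0]; exact d1)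
  have a3 := h1 (1 / 2 - d) (by linarith) (by linarith)
  have b4 := hwnp a b l.reverse hT _ (hQ _ b3 (hC _ (by linarith)))
  rw [hW] at a3 b4
  have a4 : 0 ≤ Complex.arg ((a - bc v a b (1 / 2 - d) (1 / 2 - d)) /
      (b - bc v a b (1 / 2 - d) (1 / 2 - d))) := by
    rw [Complex.arg_nonneg_iff, im_earw]
    exact div_nonneg (mul_nonneg (by linarith) hw.le) (Complex.normSq_nonneg _)
  have a5 := mt Complex.abs_arg_le_pi_div_two_iff.1 (not_le.2 a2)
  rw [abs_of_nonneg a4, not_le] at a5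
  have b5 : Complex.arg ((a - bc v a b (1 / 2 + d) (1 / 2 + d)) /
      (b - bc v a b (1 / 2 + d) (1 / 2 + d))) < 0 := by
    rw [Complex.arg_neg_iff, im_earw]
    refine div_neg_of_neg_of_pos (mul_neg_of_neg_of_pos (by linarith) hw)
      (Complex.normSq_pos.2 fun e => hC (1 / 2 + d) (by linarith) ?_)
    exact sub_eq_zero.1 e ▸ left_mem_segment ℝ b a
  rw [Real.dist_eq, abs_lt] at a1 b1
  linarith [a1.1, b1.2]

end Pool.Agent.MP_334d28_an.K

end

section

open Polynomial Finset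
open scoped Real ComplexConjugate

namespace Pool.Agent.MP_334d28_an.K

theorem add_diaga {V : List ℂ} {E : List (ℂ × ℂ)} (h : Sim V E) (d : ℂ × ℂ)
    (h1 : ∀ w ∈ V, w ∉ openSegment ℝ d.1 d.2)
    (h2 : ∀ e ∈ E, Disjoint (openSegment ℝ d.1 d.2) (openSegment ℝ e.1 e.2)) :
    Sim V (d :: E) := by
  refine ⟨h.1, fun e he => ?_, fun e he f hf hne => ?_⟩
  · rcases List.mem_cons.1 he with rfl | he
    · exact h1
    · exact h.2.1 e he
  · rcases List.mem_cons.1 he with rfl | he'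
    · rcases List.mem_cons.1 hf with rfl | hf'
      · exact absurd rfl hne
      · exact h2 f hf'
    · rcases List.mem_cons.1 hf with rfl | hf'
      · exact (h2 e he').symm
      · exact h.2.2 e he' f hf' hne

theorem os_diaga (v a b : ℂ) (s t : ℝ) (x : ℂ) :
    x ∈ openSegment ℝ v (bc v a b s t) ↔ ∃ r : ℝ, 0 < r ∧ r < 1 ∧ x = bc v a b (r * s) (r * t) := by
  have e : ∀ p q : ℝ, p + q = 1 → p • v + q • bc v a b s t = bc v a b (q * s) (q * t) := by
    intro p q h
    have := bc_comb v a b 0 0 s t p q h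
    rwa [bc_v, mul_zero, zero_add, zero_add] at this
  constructor
  · rintro ⟨p, q, hp, hq, hpq, rfl⟩
    exact ⟨q, hq, by linarith, e p q hpq⟩
  · rintro ⟨r, h0, h1, rfl⟩
    exact ⟨1 - r, r, by linarith, h0, by ring, e _ _ (by ring)⟩

theorem osa_diaga (v a b x : ℂ) :
    x ∈ openSegment ℝ a v ↔ ∃ r : ℝ, 0 < r ∧ r < 1 ∧ x = bc v a b r 0 := by
  have := os_diaga v a b 1 0 x
  rw [bc_a, openSegment_symm] at this
  simpa only [mul_one, mul_zero] using this

theorem osb_diaga (v a b x : ℂ) :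
    x ∈ openSegment ℝ v b ↔ ∃ r : ℝ, 0 < r ∧ r < 1 ∧ x = bc v a b 0 r := by
  have := os_diaga v a b 0 1 x
  rw [bc_b] at this
  simpa only [mul_one, mul_zero] using this

theorem min_diaga {v a b : ℂ} (h : wdg (b - v) (a - v) ≠ 0) (l : List ℂ)
    (hl : ∃ s t : ℝ, 0 ≤ s ∧ 0 ≤ t ∧ s + t ≤ 1 ∧ bc v a b s t ∈ l) :
    ∃ s t : ℝ, 0 ≤ s ∧ 0 ≤ t ∧ s + t ≤ 1 ∧ bc v a b s t ∈ l ∧
      ∀ s' t' : ℝ, 0 ≤ s' → 0 ≤ t' → s' + t' < s + t → bc v a b s' t' ∉ l := by
  classical
  choose σ τ e using bc_surj h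
  have key : ∀ s t : ℝ, σ (bc v a b s t) = s ∧ τ (bc v a b s t) = t := fun s t =>
    bc_inj h (e _).symm
  have mem : ∀ s t : ℝ, 0 ≤ s → 0 ≤ t → s + t ≤ 1 → bc v a b s t ∈ l → bc v a b s t ∈
      l.toFinset.filter fun x => 0 ≤ σ x ∧ 0 ≤ τ x ∧ σ x + τ x ≤ 1 := fun s t h1 h2 h3 h4 =>
    mem_filter.2 ⟨List.mem_toFinset.2 h4, by rw [(key s t).1, (key s t).2]; exact ⟨h1, h2, h3⟩⟩
  obtain ⟨s₀, t₀, a1, a2, a3, a4⟩ := hl
  obtain ⟨z, hz, hm⟩ := exists_min_image _ (fun x => σ x + τ x) ⟨_, mem s₀ t₀ a1 a2 a3 a4⟩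
  obtain ⟨b0, b1, b2, b3⟩ := mem_filter.1 hz
  refine ⟨σ z, τ z, b1, b2, b3, by rw [← e z]; exact List.mem_toFinset.1 b0,
    fun s t h1 h2 h3 h4 => ?_⟩
  have := hm _ (mem s t h1 h2 (by linarith) h4)
  rw [(key s t).1, (key s t).2] at this
  linarith

theorem ce_diaga (v a b : ℂ) (l : List ℂ) :
    ce (v :: b :: (l ++ [a])) = (v, b) :: (pe b l a ++ [(a, v)]) :=
  ce_cons_append v (b :: l) a

theorem diaga_st (hcut : CUT_st) : DIAGA_st := by
  intro v a b l hS hw hl
  obtain ⟨s, t, s0, t0, st, hz, hm⟩ := min_diaga hw.ne' l hl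
  have hn := hS.1
  have hv : v ∉ b :: (l ++ [a]) := (List.nodup_cons.1 hn).1
  have hn' := (List.nodup_cons.1 hn).2
  have hb : b ∉ l := fun h => (List.nodup_cons.1 hn').1 (List.mem_append_left _ h)
  have ha : a ∉ l := fun h =>
    (List.nodup_append.1 (List.nodup_cons.1 hn').2).2.2 a h a (List.mem_singleton_self a) rfl
  have hzP : bc v a b s t ∈ v :: b :: (l ++ [a]) := by simp [hz]
  have eb : (v, b) ∈ ce (v :: b :: (l ++ [a])) := by simp [ce_diaga]
  have ea : (a, v) ∈ ce (v :: b :: (l ++ [a])) := by simp [ce_diaga]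
  have hvl : v ∉ l := fun h => hv (by simp [h])
  have sp : 0 < s := by
    refine s0.lt_of_ne' fun h => ?_
    subst h
    rcases t0.eq_or_lt with rfl | t1
    · exact hvl (by rwa [bc_v] at hz)
    · rcases (show t ≤ 1 by linarith).eq_or_lt with rfl | t2
      · exact hb (by rwa [bc_b] at hz)
      · exact hS.2.1 _ eb _ hzP ((osb_diaga v a b _).2 ⟨t, t1, t2, rfl⟩)
  have tp : 0 < t := by
    refine t0.lt_of_ne' fun h => ?_
    subst h
    rcases (show s ≤ 1 by linarith).eq_or_lt with rfl | s2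
    · exact ha (by rwa [bc_a] at hz)
    · exact hS.2.1 _ ea _ hzP ((osa_diaga v a b _).2 ⟨s, sp, s2, rfl⟩)
  have k1 : ∀ s' t' : ℝ, 0 ≤ s' → 0 ≤ t' → s' + t' < s + t →
      ∀ w ∈ b :: (l ++ [a]), bc v a b s' t' ≠ w := by
    intro s' t' h1 h2 h3 w hw' e
    subst e
    rcases List.mem_cons.1 hw' with h | h
    · have := (bc_inj hw.ne' (h.trans (bc_b v a b).symm)).2
      linarith
    · rcases List.mem_append.1 h with h | h
      · exact hm s' t' h1 h2 h3 h
      · have := (bc_inj hw.ne' ((List.mem_singleton.1 h).trans (bc_a v a b).symm)).1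
        linarith
  have h1 : ∀ w ∈ v :: b :: (l ++ [a]), w ∉ openSegment ℝ v (bc v a b s t) := by
    intro w hw' hx
    obtain ⟨r, r0, r1, e⟩ := (os_diaga v a b s t w).1 hx
    have p1 := mul_pos r0 sp
    have p2 := mul_pos r0 tp
    rcases List.mem_cons.1 hw' with h | h
    · have := (bc_inj hw.ne' ((e.symm.trans h).trans (bc_v v a b).symm)).1
      linarith
    · exact k1 _ _ p1.le p2.le (by nlinarith) w h e.symm
  have h2 : ∀ e ∈ ce (v :: b :: (l ++ [a])),
      Disjoint (openSegment ℝ v (bc v a b s t)) (openSegment ℝ e.1 e.2) := by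
    intro e he
    refine Set.disjoint_left.2 fun x hx hx' => ?_
    obtain ⟨r, r0, r1, rfl⟩ := (os_diaga v a b s t x).1 hx
    have p1 := mul_pos r0 sp
    have p2 := mul_pos r0 tp
    have he' := he
    rw [ce_diaga] at he'
    rcases List.mem_cons.1 he' with rfl | h
    · obtain ⟨r', -, -, e'⟩ := (osb_diaga v a b _).1 hx'
      linarith [(bc_inj hw.ne' e').1]
    rcases List.mem_append.1 h with h | h
    swap
    · obtain rfl := List.mem_singleton.1 h
      obtain ⟨r', -, -, e'⟩ := (osa_diaga v a b _).1 hx'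
      linarith [(bc_inj hw.ne' e').2]
    obtain ⟨m1, m2⟩ := mem_pe h
    have m1' : e.1 ∈ b :: (l ++ [a]) := List.mem_append_left [a] m1
    have m2' : e.2 ∈ b :: (l ++ [a]) := List.mem_cons_of_mem _ m2
    have op : ∀ s' t' : ℝ, 0 ≤ s' → 0 ≤ t' → s' + t' < s + t →
        bc v a b s' t' ∈ segment ℝ e.1 e.2 → bc v a b s' t' ∈ openSegment ℝ e.1 e.2 :=
      fun s' t' c1 c2 c3 c4 => mem_openSegment_of_ne_left_right
        (k1 s' t' c1 c2 c3 _ m1').symm (k1 s' t' c1 c2 c3 _ m2').symm c4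
    have nv : v ∉ openSegment ℝ e.1 e.2 := hS.2.1 e he v List.mem_cons_self
    obtain ⟨ρ, ρ0, ρ1, hρ⟩ := hcut v a b e.1 e.2 (s + t) (r * s) (r * t) hw.ne' p1.le p2.le
      (by nlinarith) (openSegment_subset_segment ℝ _ _ hx')
      fun s' t' c1 c2 c3 => ⟨k1 s' t' c1 c2 c3 _ m1', k1 s' t' c1 c2 c3 _ m2'⟩
    rcases hρ with hρ | hρ
    · have c := op ρ 0 ρ0 le_rfl (by linarith) hρ
      rcases ρ0.eq_or_lt with rfl | ρp
      · exact nv (by rwa [bc_v] at c)
      · refine Set.disjoint_left.1 (hS.2.2 _ ea e he fun h' => hv ?_)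
          ((osa_diaga v a b _).2 ⟨ρ, ρp, by linarith, rfl⟩) c
        rw [← h'] at m2'
        exact m2'
    · have c := op 0 ρ le_rfl ρ0 (by linarith) hρ
      rcases ρ0.eq_or_lt with rfl | ρp
      · exact nv (by rwa [bc_v] at c)
      · refine Set.disjoint_left.1 (hS.2.2 _ eb e he fun h' => hv ?_)
          ((osb_diaga v a b _).2 ⟨ρ, ρp, by linarith, rfl⟩) c
        rw [← h'] at m1'
        exact m1'
  have w1 : 0 < wdg (b - v) (bc v a b s t - v) := by
    rw [wdg_bc_left]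
    positivity
  have w2 : 0 < wdg (bc v a b s t - v) (a - v) := by
    rw [wdg_bc_right]
    positivity
  generalize bc v a b s t = z at hz h1 h2 w1 w2
  have S1 := add_diaga hS (v, z) h1 h2
  have S2 := add_diaga hS (z, v) (by rw [openSegment_symm]; exact h1)
    (by rw [openSegment_symm]; exact h2)
  obtain ⟨l₁, l₂, rfl⟩ := List.append_of_mem hz
  refine ⟨l₁, z, l₂, rfl, S2.mono (hn.sublist ?_) (fun x hx => ?_) fun e he => ?_,
    S1.mono (hn.sublist ?_) (fun x hx => ?_) fun e he => ?_, w1, w2⟩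
  · simp
  · simp at hx ⊢
    tauto
  · rw [ce_diaga] at he ⊢
    rw [pe_append]
    simp only [List.mem_cons, List.mem_append, List.not_mem_nil, or_false] at he ⊢
    tauto
  · refine List.Sublist.cons_cons _ (List.Sublist.cons _ ?_)
    rw [List.append_assoc]
    exact List.sublist_append_right _ _
  · simp at hx ⊢
    tauto
  · rw [ce_diaga] at he ⊢
    rw [pe_append]
    simp only [List.mem_cons, List.mem_append, List.not_mem_nil, or_false] at he ⊢
    tauto

end Pool.Agent.MP_334d28_an.K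

end

section

/-!
Cutting off an empty ear.
-/

open Polynomial Finset
open scoped Real ComplexConjugate

namespace Pool.Agent.MP_334d28_an.K

theorem line_diagb (v a b : ℂ) {s₁ s₂ r : ℝ} (h1 : s₁ < r) (h2 : r < s₂) :
    bc v a b r (1 - r) ∈ openSegment ℝ (bc v a b s₁ (1 - s₁)) (bc v a b s₂ (1 - s₂)) := by
  have h : 0 < s₂ - s₁ := by linarith
  have e : (s₂ - r) / (s₂ - s₁) + (r - s₁) / (s₂ - s₁) = 1 := by field_simp; ring
  refine ⟨(s₂ - r) / (s₂ - s₁), (r - s₁) / (s₂ - s₁), div_pos (by linarith) h,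
    div_pos (by linarith) h, e, ?_⟩
  rw [bc_comb _ _ _ _ _ _ _ _ _ e]
  congr 1 <;> field_simp <;> ring

theorem open_diagb (v a b : ℂ) {p : ℂ} (h : p ∈ openSegment ℝ a b) :
    ∃ s t : ℝ, 0 < s ∧ 0 < t ∧ s + t = 1 ∧ p = bc v a b s t := by
  obtain ⟨s, t, hs, ht, e, rfl⟩ := h
  refine ⟨s, t, hs, ht, e, ?_⟩
  have := bc_comb v a b 1 0 0 1 s t e
  rw [bc_a, bc_b] at this
  simpa using this

theorem push_diagb (v a b y : ℂ) {s t s₁ t₁ : ℝ} (hs : 0 < s) (ht : 0 < t) (e : s + t = 1)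
    (h : s₁ + t₁ < 1) (hp : bc v a b s t ∈ segment ℝ (bc v a b s₁ t₁) y) :
    ∃ s' t' : ℝ, 0 ≤ s' ∧ 0 ≤ t' ∧ s' + t' < 1 ∧
      bc v a b s' t' ∈ segment ℝ (bc v a b s₁ t₁) y := by
  have hD : 0 < 1 + |s₁| + |t₁| := by positivity
  obtain ⟨ε, hε⟩ : ∃ ε, ε = s * t / (1 + |s₁| + |t₁|) := ⟨_, rfl⟩
  have h0 : 0 < ε := by rw [hε]; positivity
  have h1 : ε * (1 + |s₁| + |t₁|) = s * t := by rw [hε]; field_simp
  have h2 := mul_le_mul_of_nonneg_left (neg_abs_le s₁) h0.le
  have h3 := mul_le_mul_of_nonneg_left (neg_abs_le t₁) h0.le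
  have h4 := mul_nonneg h0.le (abs_nonneg s₁)
  have h5 := mul_nonneg h0.le (abs_nonneg t₁)
  have h6 := mul_pos h0 hs
  have h7 := mul_pos h0 ht
  have h8 : ε * s + ε * t = ε := by rw [← mul_add, e, mul_one]
  have h9 : s * s + s * t = s := by rw [← mul_add, e, mul_one]
  have h10 : t * s + t * t = t := by rw [← mul_add, e, mul_one]
  have h11 := mul_pos hs hs
  have h12 := mul_pos ht ht
  have h13 := mul_pos h0 (sub_pos.2 h)
  refine ⟨ε * s₁ + (1 - ε) * s, ε * t₁ + (1 - ε) * t, by nlinarith, by nlinarith, by nlinarith, ?_⟩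
  rw [← bc_comb _ _ _ _ _ _ _ _ _ (by ring)]
  exact convex_segment _ _ (left_mem_segment ℝ _ _) hp h0.le (by nlinarith) (by ring)

theorem diagb_st (hcut : CUT_st) : DIAGB_st := by
  intro v a b l hS hw hl hno
  have hce : ce (v :: b :: (l ++ [a])) = (v, b) :: (pe b l a ++ [(a, v)]) := by
    rw [← List.cons_append (a := b), ce_cons_append]
    rfl
  obtain ⟨hN, hV, hE⟩ := hS
  rw [hce] at hV hE
  have hin : ∀ e ∈ pe b l a, e ∈ (v, b) :: (pe b l a ++ [(a, v)]) := fun e he =>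
    List.mem_cons_of_mem _ (List.mem_append_left _ he)
  obtain ⟨hv, hN'⟩ := List.nodup_cons.1 hN
  have hb : b ∉ l ++ [a] := (List.nodup_cons.1 hN').1
  have ha : a ∉ l := by
    have := (List.nodup_cons.1 hN').2
    rw [List.nodup_append] at this
    exact fun h => this.2.2 a h a (by simp) rfl
  have hne : ∀ s t : ℝ, 0 ≤ s → 0 ≤ t → s + t ≤ 1 → s < 1 → t < 1 →
      ∀ z ∈ b :: (l ++ [a]), bc v a b s t ≠ z := by
    intro s t hs ht hst hs1 ht1 z hz e
    simp only [List.mem_cons, List.mem_append, List.not_mem_nil, or_false] at hz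
    rcases hz with h | h | h
    · rw [h] at e
      exact ht1.ne (bc_inj hw.ne' (e.trans (bc_b v a b).symm)).2
    · exact hno s t hs ht hst (e ▸ h)
    · rw [h] at e
      exact hs1.ne (bc_inj hw.ne' (e.trans (bc_a v a b).symm)).1
  have hm : ∀ e ∈ pe b l a, e.1 ∈ b :: (l ++ [a]) ∧ e.2 ∈ b :: (l ++ [a]) := fun e he =>
    ⟨List.mem_append_left [a] (mem_pe he).1, List.mem_cons_of_mem _ (mem_pe he).2⟩
  have hop : ∀ e ∈ pe b l a, ∀ s t : ℝ, 0 ≤ s → 0 ≤ t → s + t ≤ 1 → s < 1 → t < 1 →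
      bc v a b s t ∈ segment ℝ e.1 e.2 → bc v a b s t ∈ openSegment ℝ e.1 e.2 :=
    fun e he s t hs ht hst hs1 ht1 h => mem_openSegment_of_ne_left_right
      (hne s t hs ht hst hs1 ht1 _ (hm e he).1).symm
      (hne s t hs ht hst hs1 ht1 _ (hm e he).2).symm h
  have hA : ∀ e ∈ pe b l a, ∀ s t : ℝ, 0 ≤ s → 0 ≤ t → s + t < 1 →
      bc v a b s t ∉ segment ℝ e.1 e.2 := by
    intro e he s t hs ht hst h
    obtain ⟨r, hr0, hr1, hq⟩ := hcut v a b e.1 e.2 1 s t hw.ne' hs ht hst h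
      fun s' t' hs' ht' h' =>
        ⟨hne s' t' hs' ht' h'.le (by linarith) (by linarith) _ (hm e he).1,
          hne s' t' hs' ht' h'.le (by linarith) (by linarith) _ (hm e he).2⟩
    rcases hr0.eq_or_lt with rfl | hr
    · have h1 := hop e he 0 0 le_rfl le_rfl (by norm_num) one_pos one_pos (or_self_iff.1 hq)
      rw [bc_v] at h1
      exact hV e (hin e he) v List.mem_cons_self h1
    rcases hq with hq | hq
    · have h1 := hop e he r 0 hr0 le_rfl (by linarith) hr1 one_pos hq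
      refine Set.disjoint_left.1 (hE e (hin e he) (a, v) (by simp) ?_) h1 ?_
      · rintro rfl
        exact hv (hm _ he).2
      · refine ⟨r, 1 - r, hr, by linarith, by ring, ?_⟩
        have := bc_comb v a b 1 0 0 0 r (1 - r) (by ring)
        rw [bc_a, bc_v] at this
        simpa using this
    · have h1 := hop e he 0 r le_rfl hr0 (by linarith) one_pos hr1 hq
      refine Set.disjoint_left.1 (hE e (hin e he) (v, b) (by simp) ?_) h1 ?_
      · rintro rfl
        exact hv (hm _ he).1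
      · refine ⟨1 - r, r, by linarith, hr, by ring, ?_⟩
        have := bc_comb v a b 0 0 0 1 (1 - r) r (by ring)
        rw [bc_b, bc_v] at this
        simpa using this
  have hB : ∀ e ∈ pe b l a, ∀ s t : ℝ, 0 ≤ s → 0 ≤ t → s + t ≤ 1 → s < 1 → t < 1 →
      bc v a b s t ∉ segment ℝ e.1 e.2 := by
    intro e he s t hs ht hst hs1 ht1 h
    rcases hst.lt_or_eq with hlt | heq
    · exact hA e he s t hs ht hlt h
    have hs0 : 0 < s := by linarith
    have ht0 : 0 < t := by linarith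
    obtain ⟨s₁, t₁, hx⟩ := bc_surj hw.ne' e.1
    obtain ⟨s₂, t₂, hy⟩ := bc_surj hw.ne' e.2
    have g1 : 1 ≤ s₁ + t₁ := by
      by_contra g
      obtain ⟨s', t', h1, h2, h3, h4⟩ :=
        push_diagb v a b e.2 hs0 ht0 heq (not_le.1 g) (hx ▸ h)
      exact hA e he s' t' h1 h2 h3 (hx ▸ h4)
    have g2 : 1 ≤ s₂ + t₂ := by
      by_contra g
      obtain ⟨s', t', h1, h2, h3, h4⟩ :=
        push_diagb v a b e.1 hs0 ht0 heq (not_le.1 g) (hy ▸ segment_symm ℝ e.1 e.2 ▸ h)
      exact hA e he s' t' h1 h2 h3 (segment_symm ℝ e.1 e.2 ▸ hy ▸ h4)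
    obtain ⟨p, q, hp, hq, hpq, h1⟩ := hop e he s t hs ht hst hs1 ht1 h
    rw [hx, hy, bc_comb _ _ _ _ _ _ _ _ _ hpq] at h1
    obtain ⟨e1, e2⟩ := bc_inj hw.ne' h1
    have k1 := mul_nonneg hp.le (sub_nonneg.2 g1)
    have k2 := mul_nonneg hq.le (sub_nonneg.2 g2)
    have k3 : p * (s₁ + t₁ - 1) + q * (s₂ + t₂ - 1) = 0 := by linear_combination e1 + e2 + heq - hpq
    have k4 : t₁ = 1 - s₁ := by
      have := (mul_eq_zero.1 (show p * (s₁ + t₁ - 1) = 0 by linarith)).resolve_left hp.ne'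
      linarith
    have k5 : t₂ = 1 - s₂ := by
      have := (mul_eq_zero.1 (show q * (s₂ + t₂ - 1) = 0 by linarith)).resolve_left hq.ne'
      linarith
    subst k4 k5
    have m0 : ∀ r : ℝ, bc v a b r (1 - r) ∈ b :: (l ++ [a]) → r ≤ 0 ∨ 1 ≤ r := by
      intro r hr
      by_contra g
      push Not at g
      exact hne r (1 - r) g.1.le (by linarith) (by linarith) g.2 (by linarith) _ hr rfl
    have na : a ∉ openSegment ℝ e.1 e.2 := hV e (hin e he) a (by simp)
    have nb : b ∉ openSegment ℝ e.1 e.2 := hV e (hin e he) b (by simp)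
    have ea : bc v a b 1 (1 - 1) = a := by rw [sub_self, bc_a]
    have eb : bc v a b 0 (1 - 0) = b := by rw [sub_zero, bc_b]
    rcases m0 s₁ (hx ▸ (hm e he).1) with c1 | c1 <;> rcases m0 s₂ (hy ▸ (hm e he).2) with c2 | c2
    · nlinarith
    · rcases c1.lt_or_eq with c1 | rfl
      · have := line_diagb v a b c1 (show 0 < s₂ by linarith)
        rw [eb, ← hx, ← hy] at this
        exact nb this
      rcases c2.lt_or_eq with c2 | rfl
      · have := line_diagb v a b one_pos c2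
        rw [ea, ← hx, ← hy] at this
        exact na this
      rw [eb] at hx
      rw [ea] at hy
      obtain ⟨c, l', rfl⟩ := List.exists_cons_of_ne_nil hl
      rcases List.mem_cons.1 he with rfl | he'
      · exact ha (by simp [show c = a from hy])
      · exact hb (List.mem_append_left _ (hx ▸ (mem_pe he').1))
    · rcases c1.lt_or_eq with c1 | rfl
      · have := line_diagb v a b (show s₂ < 1 by linarith) c1
        rw [ea, ← hx, ← hy, openSegment_symm] at this
        exact na this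
      · rw [ea] at hx
        rcases List.mem_cons.1 (mem_pe he).1 with h2 | h2
        · exact hb (by simp [← h2, hx])
        · exact ha (hx ▸ h2)
    · nlinarith
  refine ⟨⟨hN', ?_, ?_⟩, hB⟩
  · intro e he x hx h
    rw [ce_cons_append] at he
    rcases List.mem_append.1 he with he | he
    · exact hV e (hin e he) x (List.mem_cons_of_mem _ hx) h
    · obtain rfl : e = (a, b) := by simpa using he
      obtain ⟨s, t, hs, ht, hst, e1⟩ := open_diagb v a b h
      exact hne s t hs.le ht.le hst.le (by linarith) (by linarith) x hx e1.symm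
  · have key : ∀ e ∈ pe b l a, Disjoint (openSegment ℝ e.1 e.2) (openSegment ℝ a b) := by
      intro e he
      refine Set.disjoint_left.2 fun p h1 h2 => ?_
      obtain ⟨s, t, hs, ht, hst, rfl⟩ := open_diagb v a b h2
      exact hB e he s t hs.le ht.le hst.le (by linarith) (by linarith)
        (openSegment_subset_segment ℝ _ _ h1)
    intro e he f hf hef
    rw [ce_cons_append] at he hf
    rcases List.mem_append.1 he with he | he <;> rcases List.mem_append.1 hf with hf | hf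
    · exact hE e (hin e he) f (hin f hf) hef
    · obtain rfl : f = (a, b) := by simpa using hf
      exact key e he
    · obtain rfl : e = (a, b) := by simpa using he
      exact (key f hf).symm
    · exact absurd ((List.mem_singleton.1 he).trans (List.mem_singleton.1 hf).symm) hef

end Pool.Agent.MP_334d28_an.K

end

section

open Polynomial Finset
open scoped Real ComplexConjugate

namespace Pool.Agent.MP_334d28_an.K

theorem chain0_pli {E : ℕ → ℝ → ℂ} {K : ℝ} {n : ℕ}
    (hs : ∀ j < n, ∀ s t : ℝ, 0 ≤ s → s ≤ t → t ≤ 1 → ‖E j t - E j s‖ ≤ K * (t - s))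
    (hg : ∀ j, E j 1 = E (j + 1) 0) (i m : ℕ) (h : i + m ≤ n) :
    ‖E (i + m) 0 - E i 0‖ ≤ K * m := by
  induction m with
  | zero => simp
  | succ m ih =>
    have h1 := ih (by omega)
    have h2 := hs (i + m) (by omega) 0 1 le_rfl zero_le_one le_rfl
    rw [hg] at h2
    have h3 := norm_sub_le_norm_sub_add_norm_sub (E (i + m + 1) 0) (E (i + m) 0) (E i 0)
    rw [← add_assoc]
    push_cast
    linarith

theorem chain1_pli {E : ℕ → ℝ → ℂ} {K : ℝ} {n : ℕ}
    (hs : ∀ j < n, ∀ s t : ℝ, 0 ≤ s → s ≤ t → t ≤ 1 → ‖E j t - E j s‖ ≤ K * (t - s))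
    (hg : ∀ j, E j 1 = E (j + 1) 0) {i j : ℕ} (hij : i < j) (hj : j ≤ n) {s : ℝ} (h0 : 0 ≤ s)
    (h1 : s ≤ 1) : ‖E j 0 - E i s‖ ≤ K * (j - (i + s)) := by
  obtain ⟨m, rfl⟩ := Nat.exists_eq_add_of_le (Nat.succ_le_of_lt hij)
  have h2 := chain0_pli hs hg (i + 1) m hj
  have h3 := hs i (by omega) s 1 h0 h1 le_rfl
  rw [hg] at h3
  have h4 := norm_sub_le_norm_sub_add_norm_sub (E (i + 1 + m) 0) (E (i + 1) 0) (E i s)
  rw [Nat.succ_eq_add_one]
  push_cast
  linarith

theorem chain2_pli {E : ℕ → ℝ → ℂ} {K : ℝ} {n : ℕ}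
    (hs : ∀ j < n, ∀ s t : ℝ, 0 ≤ s → s ≤ t → t ≤ 1 → ‖E j t - E j s‖ ≤ K * (t - s))
    (hg : ∀ j, E j 1 = E (j + 1) 0) (he : E n 0 = E 0 0) {i j : ℕ} (hi : i < n) (hj : j < n)
    {s t : ℝ} (hs0 : 0 ≤ s) (hs1 : s ≤ 1) (ht0 : 0 ≤ t) (ht1 : t ≤ 1)
    (hij : i < j ∨ (i = j ∧ s ≤ t)) :
    ‖E j t - E i s‖ ≤ K * (j + t - (i + s)) ∧ ‖E j t - E i s‖ ≤ K * (n - (j + t - (i + s))) := by
  constructor
  · rcases hij with h | ⟨rfl, h⟩
    · have h1 := chain1_pli hs hg h hj.le hs0 hs1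
      have h2 := hs j hj 0 t le_rfl ht0 ht1
      have h3 := norm_sub_le_norm_sub_add_norm_sub (E j t) (E j 0) (E i s)
      linarith
    · have h1 := hs i hi s t hs0 h ht1
      linarith
  · have h1 := chain1_pli hs hg hj le_rfl ht0 ht1
    have h2 := chain0_pli hs hg 0 i (by omega)
    have h3 := hs i hi 0 s le_rfl hs0 hs1
    rw [zero_add] at h2
    rw [he, norm_sub_rev] at h1
    rw [norm_sub_rev] at h2 h3
    have h4 := norm_sub_le_norm_sub_add_norm_sub (E j t) (E 0 0) (E i s)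
    have h5 := norm_sub_le_norm_sub_add_norm_sub (E 0 0) (E i 0) (E i s)
    linarith

theorem step_pli {γ γ' : ℝ → ℂ} (hγ : ∀ t, HasDerivAt γ (γ' t) t) {n : ℕ} (hn : 0 < n) (a D : ℂ)
    (j : ℕ) {M : ℝ} (hM : ∀ r : ℝ, 0 ≤ r → r ≤ 1 → ‖n * D - γ' (2 * π * (j + r) / n)‖ ≤ M)
    (s t : ℝ) (h0 : 0 ≤ s) (h1 : s ≤ t) (h2 : t ≤ 1) :
    ‖(a + t * D - γ (2 * π * (j + t) / n) / (2 * π)) -
      (a + s * D - γ (2 * π * (j + s) / n) / (2 * π))‖ ≤ M / n * (t - s) := by
  have hn' : (0 : ℝ) < n := by exact_mod_cast hn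
  have hnc : (n : ℂ) ≠ 0 := by exact_mod_cast hn.ne'
  have hpc : (π : ℂ) ≠ 0 := by exact_mod_cast Real.pi_ne_zero
  have hd : ∀ r : ℝ, HasDerivAt
      (fun r : ℝ => a + (r : ℂ) * D - γ (2 * π * (j + r) / n) / (2 * π))
      ((n * D - γ' (2 * π * (j + r) / n)) / n) r := by
    intro r
    have a1 : HasDerivAt (fun r : ℝ => 2 * π * (j + r) / n) (2 * π * 1 / n) r :=
      (((hasDerivAt_id r).const_add (j : ℝ)).const_mul (2 * π)).div_const (n : ℝ)
    have a2 := ((hγ _).scomp r a1).div_const (2 * π : ℂ)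
    have a3 : HasDerivAt (fun r : ℝ => (r : ℂ)) 1 r := Complex.ofRealCLM.hasDerivAt
    have a4 := ((a3.mul_const D).const_add a).sub a2
    refine a4.congr_deriv ?_
    rw [Complex.real_smul]
    push_cast
    field_simp
  have h3 := Convex.norm_image_sub_le_of_norm_hasDerivWithin_le (s := Set.Icc (0 : ℝ) 1)
    (C := M / n) (fun r _ => (hd r).hasDerivWithinAt)
    (fun r hr => by
      rw [norm_div, Complex.norm_natCast]
      exact div_le_div_of_nonneg_right (hM r hr.1 hr.2) hn'.le)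
    (convex_Icc 0 1) (x := s) (y := t) ⟨h0, h1.trans h2⟩ ⟨h0.trans h1, h2⟩
  rwa [Real.norm_eq_abs, abs_of_nonneg (sub_nonneg.2 h1)] at h3

theorem pli_st : PLI_st := by
  intro γ γ' c hγ hc hper hc0 hlow
  have hπ := Real.pi_pos
  have huc := (isCompact_Icc (a := (0 : ℝ)) (b := 2 * π)).uniformContinuousOn_of_continuous
    hc.continuousOn
  obtain ⟨δ, hδ, hu⟩ := Metric.uniformContinuousOn_iff.1 huc (c / 3) (by positivity)
  obtain ⟨n₀, hn₀⟩ := exists_nat_gt (2 * π / δ)
  refine ⟨c / 3, by positivity, n₀, fun n hn d hd0 hd => ?_⟩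
  have hn1 : 2 * π / δ < n := hn₀.trans_le (by exact_mod_cast hn)
  have hn' : (0 : ℝ) < n := lt_trans (by positivity) hn1
  have hn0 : 0 < n := by exact_mod_cast hn'
  have hh : 2 * π / n < δ := by
    rw [div_lt_iff₀ hn']
    rw [div_lt_iff₀ hδ] at hn1
    linarith
  have hmem : ∀ j < n, ∀ r : ℝ, 0 ≤ r → r ≤ 1 → 2 * π * (j + r) / n ∈ Set.Icc 0 (2 * π) := by
    intro j hj r h0 h1
    have h2 : (j : ℝ) + 1 ≤ n := by exact_mod_cast hj
    refine ⟨by positivity, ?_⟩
    rw [div_le_iff₀ hn']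
    exact mul_le_mul_of_nonneg_left (by linarith) (by positivity)
  set E : ℕ → ℝ → ℂ := fun j r =>
    ∑ k ∈ range j, d k + (r : ℂ) * d j - γ (2 * π * (j + r) / n) / (2 * π) with hE
  have hs : ∀ j < n, ∀ s t : ℝ, 0 ≤ s → s ≤ t → t ≤ 1 →
      ‖E j t - E j s‖ ≤ (2 * c / 3) / n * (t - s) := by
    intro j hj s t h0 h1 h2
    refine step_pli hγ hn0 _ _ j (fun r r0 r1 => ?_) s t h0 h1 h2
    have a1 := hd j hj
    have m0 := hmem j hj 0 le_rfl zero_le_one
    rw [add_zero] at m0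
    have a2 := hu _ m0 _ (hmem j hj r r0 r1) (by
      have e : 2 * π * (j + r) / n - 2 * π * j / n = r * (2 * π / n) := by ring
      rw [dist_comm, Real.dist_eq, e, abs_of_nonneg (by positivity)]
      exact (mul_le_of_le_one_left (by positivity) r1).trans_lt hh)
    rw [dist_eq_norm] at a2
    have a3 := norm_sub_le_norm_sub_add_norm_sub (n * d j) (γ' (2 * π * j / n))
      (γ' (2 * π * (j + r) / n))
    linarith
  have hg : ∀ j, E j 1 = E (j + 1) 0 := by
    intro j
    simp only [hE, Finset.sum_range_succ]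
    push_cast
    simp
  have he : E n 0 = E 0 0 := by
    have e : 2 * π * ((n : ℝ) + 0) / n = 2 * π := by rw [add_zero]; field_simp
    simp only [hE, hd0, e, hper]
    simp
  have key : ∀ i < n, ∀ j < n, ∀ s ∈ Set.Ico (0 : ℝ) 1, ∀ t ∈ Set.Ico (0 : ℝ) 1,
      ∑ k ∈ range i, d k + s * d i = ∑ k ∈ range j, d k + t * d j →
      (i < j ∨ (i = j ∧ s ≤ t)) → i = j ∧ s = t := by
    intro i hi j hj s hs' t ht' heq hij
    obtain ⟨b1, b2⟩ := chain2_pli hs hg he hi hj hs'.1 hs'.2.le ht'.1 ht'.2.le hij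
    set u : ℝ := j + t - (i + s) with hu'
    have hj' : (j : ℝ) + 1 ≤ n := by exact_mod_cast hj
    have hi0 : (0 : ℝ) ≤ i := Nat.cast_nonneg i
    have hun : u < n := by have := ht'.2; have := hs'.1; linarith
    have hu0 : 0 ≤ u := by
      rcases hij with h | ⟨rfl, h⟩
      · have h' : (i : ℝ) + 1 ≤ j := by exact_mod_cast h
        have := hs'.2; have := ht'.1; linarith
      · linarith
    have c1 := hlow _ (hmem j hj t ht'.1 ht'.2.le) _ (hmem i hi s hs'.1 hs'.2.le)
    have e1 : 2 * π * (j + t) / n - 2 * π * (i + s) / n = 2 * π / n * u := by rw [hu']; ring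
    have e2 : 2 * π - 2 * π / n * u = 2 * π / n * (n - u) := by field_simp
    have hp : 0 < 2 * π / n := by positivity
    rw [e1, abs_of_nonneg (by positivity), e2, ← mul_min_of_nonneg _ _ hp.le] at c1
    have e3 : ‖γ (2 * π * (j + t) / n) - γ (2 * π * (i + s) / n)‖ = 2 * π * ‖E j t - E i s‖ := by
      have hpc : (π : ℂ) ≠ 0 := by exact_mod_cast Real.pi_ne_zero
      have e4 : γ (2 * π * (j + t) / n) - γ (2 * π * (i + s) / n) =
          -((2 * π : ℝ) : ℂ) * (E j t - E i s) := by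
        simp only [hE, heq]
        push_cast
        field_simp
        ring
      rw [e4, norm_mul, norm_neg, Complex.norm_real, Real.norm_eq_abs, abs_of_pos (by positivity)]
    have b3 : ‖E j t - E i s‖ ≤ (2 * c / 3) / n * min u (n - u) := by
      rw [mul_min_of_nonneg _ _ (by positivity)]
      exact le_min b1 b2
    have b4 := mul_le_mul_of_nonneg_left b3 (by positivity : (0 : ℝ) ≤ 2 * π)
    have e5 : 2 * π * ((2 * c / 3) / n * min u (n - u)) =
        2 / 3 * (c * (2 * π / n * min u (n - u))) := by ring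
    have b5 : c * (2 * π / n * min u (n - u)) ≤ 0 := by linarith
    have b6 : min u (n - u) ≤ 0 := by
      by_contra hcon
      exact absurd b5 (not_le.2 (mul_pos hc0 (mul_pos hp (not_le.1 hcon))))
    have b7 : u ≤ 0 := by
      rcases min_le_iff.1 b6 with h | h
      · exact h
      · linarith
    rcases hij with h | ⟨rfl, h⟩
    · have h' : (i : ℝ) + 1 ≤ j := by exact_mod_cast h
      have := hs'.2; have := ht'.1; linarith
    · exact ⟨rfl, by linarith⟩
  intro i hi j hj s hs' t ht' heq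
  rcases lt_trichotomy i j with h | h | h
  · exact key i hi j hj s hs' t ht' heq (Or.inl h)
  · rcases le_total s t with h' | h'
    · exact key i hi j hj s hs' t ht' heq (Or.inr ⟨h, h'⟩)
    · obtain ⟨a, b⟩ := key j hj i hi t ht' s hs' heq.symm (Or.inr ⟨h.symm, h'⟩)
      exact ⟨a.symm, b.symm⟩
  · obtain ⟨a, b⟩ := key j hj i hi t ht' s hs' heq.symm (Or.inl h)
    exact ⟨a.symm, b.symm⟩

end Pool.Agent.MP_334d28_an.K

end
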