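import Pool.Agent.Mg.F334d28p.G17fa7d
import Pool.Agent.Mg.F334d28p.G438f76

section

open Polynomial Finset
open scoped Real ComplexConjugate

namespace Pool.Agent.MP_334d28_an.K

theorem sum_pairs_vdm {n : ℕ} (ψ : Fin n → ℝ) :
    ∑ i, ∑ j ∈ Ioi i, (ψ j + ψ i) / 2 = ∑ i, ((n : ℝ) - 1) / 2 * ψ i := by
  have h := sum_sum_Ioi_add_eq_sum_sum_off_diag (fun _ i : Fin n => ψ i / 2)
  have e : ∑ i, ∑ j ∈ Ioi i, (ψ j + ψ i) / 2 = ∑ i, ∑ j ∈ Ioi i, (ψ i / 2 + ψ j / 2) :=
    sum_congr rfl fun i _ => sum_congr rfl fun j _ => by ring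
  rw [e, h]
  refine sum_congr rfl fun i _ => ?_
  have h1 : 1 ≤ n := Nat.succ_le_of_lt (Fin.pos i)
  rw [sum_const, card_compl, card_singleton, Fintype.card_fin, nsmul_eq_mul, Nat.cast_sub h1,
    Nat.cast_one]
  ring

theorem vdm_st : VDM_st := by
  refine ⟨fun n ψ => ?_, fun n ψ c a => ?_⟩
  · have e : (Matrix.of fun i j : Fin n => ee ((((j : ℕ) : ℝ) - ((n : ℝ) - 1) / 2) * ψ i)) =
        Matrix.of fun i j : Fin n => ee (-(((n : ℝ) - 1) / 2 * ψ i)) *
          Matrix.vandermonde (fun i => ee (ψ i)) i j := by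
      ext i j
      rw [Matrix.of_apply, Matrix.of_apply, Matrix.vandermonde_apply, ← ee_nat, ← ee_add]
      congr 1
      ring
    rw [e, Matrix.det_mul_column, Matrix.det_vandermonde]
    simp only [ee_sub, prod_mul_distrib, ← ee_sum, sum_pairs_vdm, sum_neg_distrib,
      Complex.ofReal_prod]
    rw [mul_comm, mul_assoc, ee_mul_neg, mul_one]
  · have h := (Matrix.detRowAlternating (n := Fin n) (R := ℂ)).toMultilinearMap.map_sum
      (fun (i : Fin n) (σ : Bool) (j : Fin n) => (c i σ : ℂ) * ee (a j * ψ i σ))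
    have e : (Matrix.of fun i j : Fin n => ∑ σ, (c i σ : ℂ) * ee (a j * ψ i σ)) =
        fun i => ∑ σ, fun j : Fin n => (c i σ : ℂ) * ee (a j * ψ i σ) := by
      ext i j
      rw [Matrix.of_apply, Finset.sum_apply]
    rw [e]
    refine h.trans (sum_congr rfl fun S _ => ?_)
    rw [Complex.ofReal_prod]
    exact Matrix.det_mul_column (fun i => (c i (S i) : ℂ))
      (Matrix.of fun i j : Fin n => ee (a j * ψ i (S i)))

end Pool.Agent.MP_334d28_an.K

end

section

open Polynomial Finset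
open scoped Real ComplexConjugate

namespace Pool.Agent.MP_334d28_an.K

theorem lam_gas (hlam : LAM_st) {ι : Type} {n : ℕ} (e : Fin n ≃ ι) (ψ c : ι → Bool → ℝ)
    (inn : ι → Finset ι)
    (h1 : ∀ i, ∀ j ∈ inn i, ∀ τ, ψ i false < ψ j τ ∧ ψ j τ < ψ i true)
    (h2 : ∀ i j, i ≠ j → j ∈ inn i ∨ i ∈ inn j ∨ (∀ σ τ, ψ i σ < ψ j τ) ∨ ∀ σ τ, ψ j τ < ψ i σ)
    (h3 : ∀ i j σ τ, ψ j τ < ψ i σ + 2 * π)
    (h4 : ∀ i, 0 < (-1) ^ (inn i).card * (c i false * c i true)) :
    CohS (fun i => ψ (e i)) (fun i => c (e i)) := by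
  refine hlam n _ _ (fun i => (inn (e i)).map e.symm.toEmbedding) ?_ ?_ ?_ ?_
  · intro i j hj
    exact h1 _ _ (by simpa using hj)
  · intro i j hij
    simpa using h2 (e i) (e j) (e.injective.ne hij)
  · intro i j; exact h3 _ _
  · intro i; rw [card_map]; exact h4 _

variable {N : ℕ}

/-- zero or a half turn -/
noncomputable def sh_gas (b : Bool) : ℝ := bif b then π else 0

/-- the angles of the doubled system -/
noncomputable def ps_gas (lo hi : Fin N → ℝ) (p : ℝ) : Option (Fin N × Bool) → Bool → ℝ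
  | none, σ => p / 2 + sh_gas σ
  | some u, σ => pt lo hi (u.1, σ) / 2 + sh_gas u.2

/-- the weights of the doubled system -/
def c_gas (c : Fin N × Bool → ℝ) : Option (Fin N × Bool) → Bool → ℝ
  | none, σ => bif σ then (-1) ^ N else 1
  | some u, σ => c (u.1, σ)

/-- the inner rows -/
def inn_gas : Option (Fin N × Bool) → Finset (Option (Fin N × Bool))
  | none => univ.image fun j => some (j, false)
  | some u => (Iio u.1).image fun j => some (j, u.2)

theorem sq_gas (t : ℝ) (b : Bool) : ee (t / 2 + sh_gas b) ^ 2 = ee t := by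
  have := ee_nat 2 (t / 2 + sh_gas b)
  rw [← this]
  cases b
  · simp only [sh_gas, cond_false]; congr 1; push_cast; ring
  · simp only [sh_gas, cond_true]
    rw [← ee_add_two_pi t]; congr 1; push_cast; ring

theorem coh_gas (hlam : LAM_st) {lo hi : Fin N → ℝ} {p : ℝ} {c : Fin N × Bool → ℝ}
    (hn : Nest lo hi) (ho : Out lo hi p) (hc : Coh c) {n : ℕ}
    (e : Fin n ≃ Option (Fin N × Bool)) :
    CohS (fun i => ps_gas lo hi p (e i)) (fun i => c_gas c (e i)) := by
  have hp := Real.pi_pos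
  have hw := ho.pt_lt hn
  refine lam_gas hlam e _ _ inn_gas ?_ ?_ ?_ ?_
  · rintro (_ | ⟨k, b⟩) j hj τ
    · obtain ⟨j, -, rfl⟩ := mem_image.1 hj
      have := hw (j, τ)
      simp only [ps_gas, sh_gas, cond_true, cond_false]
      constructor <;> linarith [this.1, this.2]
    · obtain ⟨j, hj', rfl⟩ := mem_image.1 hj
      have hjk : j < k := mem_Iio.1 hj'
      have a1 := hn.anti hjk
      have a2 := hn.mono hjk
      have a3 := hn.lt j j
      cases τ <;> simp only [ps_gas, pt, cond_true, cond_false] <;> constructor <;> linarith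
  · rintro (_ | ⟨k, b⟩) (_ | ⟨j, b'⟩) hne
    · exact absurd rfl hne
    · cases b'
      · left; simp [inn_gas]
      · right; right; left
        intro σ τ
        have := hw (j, τ)
        cases σ <;> simp only [ps_gas, sh_gas, cond_true, cond_false] <;> linarith [this.1]
    · cases b
      · right; left; simp [inn_gas]
      · right; right; right
        intro σ τ
        have := hw (k, σ)
        cases τ <;> simp only [ps_gas, sh_gas, cond_true, cond_false] <;> linarith [this.1]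
    · by_cases hb : b = b'
      · subst hb
        have : k ≠ j := fun h => hne (by rw [h])
        rcases lt_or_gt_of_ne this with h | h
        · right; left; simp [inn_gas, h]
        · left; simp [inn_gas, h]
      · right; right
        cases b <;> cases b'
        · exact absurd rfl hb
        · left
          intro σ τ
          simp only [ps_gas, sh_gas, cond_true, cond_false]
          linarith [(hw (k, σ)).2, (hw (j, τ)).1]
        · right
          intro σ τ
          simp only [ps_gas, sh_gas, cond_true, cond_false]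
          linarith [(hw (k, σ)).1, (hw (j, τ)).2]
        · exact absurd rfl hb
  · rintro (_ | ⟨k, b⟩) (_ | ⟨j, b'⟩) σ τ
    · cases σ <;> cases τ <;> simp only [ps_gas, sh_gas, cond_true, cond_false] <;> linarith
    · have := hw (j, τ)
      cases σ <;> cases b' <;> simp only [ps_gas, sh_gas, cond_true, cond_false] <;>
        linarith [this.2]
    · have := hw (k, σ)
      cases τ <;> cases b <;> simp only [ps_gas, sh_gas, cond_true, cond_false] <;>
        linarith [this.1]
    · have := hn.pt_win (j, τ) (k, σ)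
      cases b <;> cases b' <;> simp only [ps_gas, sh_gas, cond_true, cond_false] <;> linarith
  · rintro (_ | ⟨k, b⟩)
    · rw [inn_gas, card_image_of_injective _ (fun a b h => by simpa using h)]
      simp [c_gas, ← mul_pow]
    · rw [inn_gas, card_image_of_injective _ (fun a b h => by simpa using h)]
      simpa [c_gas] using hc k

theorem e1_gas (A : ℂ[X]) (t : ℝ) (b : Bool) :
    ee (-(N * (t / 2 + sh_gas b))) * (X * expand ℂ 2 A).eval (ee (t / 2 + sh_gas b)) =
      ee (-((N - 1) * sh_gas b)) * al N A t := by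
  rw [eval_mul, eval_X, expand_eval, sq_gas, al, ← mul_assoc, ← mul_assoc, ← ee_add, ← ee_add]
  congr 2; ring

theorem e2_gas (A : ℂ[X]) (p t : ℝ) (b : Bool) :
    ee (-(N * (t / 2 + sh_gas b))) *
        (expand ℂ 2 ((X - C (ee p)) * A)).eval (ee (t / 2 + sh_gas b)) =
      2 * Complex.I * ee (p / 2 - N * sh_gas b) * ((sn t p : ℝ) * al N A t) := by
  rw [expand_eval, sq_gas, eval_mul, eval_sub, eval_X, eval_C, ee_sub, al]
  have : ee (-(N * (t / 2 + sh_gas b))) * ee ((t + p) / 2) =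
      ee (p / 2 - N * sh_gas b) * ee (-(((N : ℝ) - 1) * t / 2)) := by
    rw [← ee_add, ← ee_add]; congr 1; ring
  linear_combination (2 * Complex.I * (sn t p : ℝ) * A.eval (ee t)) * this

theorem gas_st (hens : ENS_st) (hlam : LAM_st) : GAS_st := by
  intro N lo hi p c A A' hn ho hc hA hA'
  obtain ⟨m1, d1, a1⟩ := hA
  obtain ⟨m2, d2, a2⟩ := hA'
  rcases N with _ | M
  · rw [m1.natDegree_eq_zero.1 d1, m2.natDegree_eq_zero.1 d2, ← C_1, nextCoeff_C_eq_zero]
    simp
  have e : Fin (2 * (M + 1) + 1) ≃ Option (Fin (M + 1) × Bool) :=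
    Fintype.equivOfCardEq (by simp; ring)
  have mB : ((X - C (ee p)) * A').Monic := (monic_X_sub_C _).mul m2
  have dB : ((X - C (ee p)) * A').natDegree = M + 2 := by
    rw [(monic_X_sub_C _).natDegree_mul m2, natDegree_X_sub_C, d2]; ring
  have mA : (expand ℂ 2 A).Monic := m1.expand two_pos
  have key := hens (M + 1) _ _ (X * expand ℂ 2 A) (expand ℂ 2 ((X - C (ee p)) * A'))
    (by omega) (coh_gas hlam hn ho hc e) (monic_X.mul mA)
    (by rw [monic_X.natDegree_mul mA, natDegree_X, natDegree_expand, d1]; ring)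
    (mB.expand two_pos) (by rw [natDegree_expand, dB]; ring)
    (by
      rw [show 2 * (M + 1) = (2 * M + 1) + 1 by ring, coeff_X_mul, coeff_expand two_pos,
        if_neg (by omega)])
    (by simp) (by rw [coeff_expand two_pos, if_neg (by omega)]) ?_ ?_
  · rw [show 2 * (M + 1) - 1 = 2 * M + 1 by omega, coeff_X_mul, coeff_expand_mul' two_pos,
      coeff_expand_mul' two_pos] at key
    have n1 : A.nextCoeff = A.coeff M := by
      rw [nextCoeff_of_natDegree_pos (by omega), d1]; rfl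
    have n2 : ((X - C (ee p)) * A').coeff (M + 1) = -ee p + A'.nextCoeff := by
      rw [← nextCoeff_X_sub_C, ← (monic_X_sub_C _).nextCoeff_mul m2,
        nextCoeff_of_natDegree_pos (by omega), dB]; rfl
    rw [n2, ← n1] at key
    rw [show ee p - A'.nextCoeff + A.nextCoeff = A.nextCoeff - (-ee p + A'.nextCoeff) by ring]
    exact key
  · intro i
    rcases e i with _ | ⟨k, b⟩
    · simp only [ps_gas, e1_gas]
      simp only [Fintype.sum_bool, c_gas, sh_gas, cond_true, cond_false]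
      have : ee (-((((M + 1 : ℕ) : ℝ) - 1) * π)) = (-1) ^ M := by
        rw [show -((((M + 1 : ℕ) : ℝ) - 1) * π) = M * (-π) by push_cast; ring, ee_nat, ee_neg,
          ee_pi]
        simp
      rw [this]
      have h2 : ((-1 : ℂ) ^ M) * (-1) ^ M = 1 := by rw [← mul_pow]; simp
      simp only [mul_zero, neg_zero, ee_zero]
      push_cast
      rw [pow_succ]
      linear_combination (-al (M + 1) A p) * h2
    · simp only [ps_gas, e1_gas, Fintype.sum_bool, c_gas]
      have := a1 k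
      simp only [pt, cond_true, cond_false]
      linear_combination ee (-((((M + 1 : ℕ) : ℝ) - 1) * sh_gas b)) * this
  · intro i
    rcases e i with _ | ⟨k, b⟩
    · simp only [ps_gas, e2_gas]
      simp [sn]
    · simp only [ps_gas, e2_gas, Fintype.sum_bool, c_gas]
      have := a2 k
      simp only [pt, cond_true, cond_false] at this ⊢
      push_cast at this
      linear_combination 2 * Complex.I * ee (p / 2 - ((M + 1 : ℕ) : ℝ) * sh_gas b) * this

end Pool.Agent.MP_334d28_an.K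

end

section

open Polynomial Finset
open scoped Real ComplexConjugate

namespace Pool.Agent.MP_334d28_an.K

theorem det_exa (hvdm : VDM_st) {n : ℕ} (ψ c : Fin n → Bool → ℝ) (e : ℝ) :
    (Matrix.of fun i j : Fin n =>
      ∑ σ, (c i σ : ℂ) * ee ((((j : ℕ) : ℝ) + e - ((n : ℝ) - 1) / 2) * ψ i σ)).det =
      (∏ i : Fin n, ∏ _j ∈ Ioi i, 2 * Complex.I) *
        ∑ S : Fin n → Bool, (Om ψ c S : ℂ) * ∏ i, ee (e * ψ i (S i)) := by
  rw [hvdm.2 n ψ c fun j => ((j : ℕ) : ℝ) + e - ((n : ℝ) - 1) / 2, mul_sum]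
  refine sum_congr rfl fun S _ => ?_
  have h : (Matrix.of fun i j : Fin n =>
      ee ((((j : ℕ) : ℝ) + e - ((n : ℝ) - 1) / 2) * ψ i (S i))) =
      Matrix.of fun i j : Fin n => ee (e * ψ i (S i)) * (Matrix.of fun i j : Fin n =>
        ee ((((j : ℕ) : ℝ) - ((n : ℝ) - 1) / 2) * ψ i (S i))) i j := by
    ext i j
    simp only [Matrix.of_apply]
    rw [← ee_add]
    congr 1
    ring
  rw [h, Matrix.det_mul_column, hvdm.1 n fun i => ψ i (S i), Om, Complex.ofReal_mul]
  ring

theorem abs_exa {ι : Type} [Fintype ι] [Nonempty ι] (f : ι → ℝ) (h : ∀ S S', 0 < f S * f S') :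
    ∑ S, f S ≠ 0 ∧ ∑ S, |f S| = |∑ S, f S| := by
  obtain ⟨S₀⟩ := ‹Nonempty ι›
  rcases lt_trichotomy (f S₀) 0 with h0 | h0 | h0
  · have h1 : ∀ S, f S < 0 := fun S => by nlinarith [h S S₀]
    have h2 : ∑ S, f S < 0 := sum_neg (fun S _ => h1 S) univ_nonempty
    refine ⟨h2.ne, ?_⟩
    rw [abs_of_neg h2, ← sum_neg_distrib]
    exact sum_congr rfl fun S _ => abs_of_neg (h1 S)
  · have := h S₀ S₀
    simp [h0] at this
  · have h1 : ∀ S, 0 < f S := fun S => by nlinarith [h S S₀]
    have h2 : 0 < ∑ S, f S := sum_pos (fun S _ => h1 S) univ_nonempty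
    refine ⟨h2.ne', ?_⟩
    rw [abs_of_pos h2]
    exact sum_congr rfl fun S _ => abs_of_pos (h1 S)

theorem exa_st (hvdm : VDM_st) (hlam : LAM_st) : EXA_st := by
  intro N lo hi c hN hc
  rcases N with _ | n
  · exact ⟨1, ⟨monic_one, natDegree_one, fun k => k.elim0⟩, by simp⟩
  set ψ : Fin (n + 1) → Bool → ℝ := fun k s => pt lo hi (k, s) with hψ
  set c' : Fin (n + 1) → Bool → ℝ := fun k s => c (k, s) with hc'
  have hin : ∀ i j : Fin (n + 1), j < i → ∀ τ, ψ i false < ψ j τ ∧ ψ j τ < ψ i true := by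
    rintro i j hj (_ | _)
    · exact ⟨hN.anti hj, hN.lt j i⟩
    · exact ⟨hN.lt i j, hN.mono hj⟩
  have hcoh : CohS ψ c' := hlam (n + 1) ψ c' (fun k => Iio k)
    (fun i j hj => hin i j (mem_Iio.1 hj))
    (fun i j hij => (lt_or_gt_of_ne hij).symm.imp mem_Iio.2 fun h => Or.inl (mem_Iio.2 h))
    (fun i j σ τ => hN.pt_win _ _) fun i => by rw [Fin.card_Iio]; exact hc i
  obtain ⟨h1, h2⟩ := abs_exa _ hcoh
  set v : ℕ → Fin (n + 1) → ℂ := fun m k =>
    ∑ σ, (c' k σ : ℂ) * ee (((m : ℝ) - (((n + 1 : ℕ) : ℝ) - 1) / 2) * ψ k σ) with hv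
  set M : Matrix (Fin (n + 1)) (Fin (n + 1)) ℂ := Matrix.of fun k j => v j k with hM
  set K : ℂ := ∏ i : Fin (n + 1), ∏ _j ∈ Ioi i, 2 * Complex.I with hK
  have hK0 : K ≠ 0 := prod_ne_zero_iff.2 fun _ _ => prod_ne_zero_iff.2 fun _ _ =>
    mul_ne_zero two_ne_zero Complex.I_ne_zero
  have d0 : M.det = K * ((∑ S, Om ψ c' S : ℝ) : ℂ) := by
    have := det_exa hvdm ψ c' 0
    simp only [add_zero, zero_mul, ee_zero, prod_const_one, mul_one] at this
    rw [Complex.ofReal_sum]
    exact this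
  have d1 : M.det ≠ 0 := by
    rw [d0]
    exact mul_ne_zero hK0 (by exact_mod_cast h1)
  have d2 : ‖M.cramer (v (n + 1)) 0‖ ≤ ‖M.det‖ := by
    have e : (M.updateCol 0 (v (n + 1))).submatrix id (finRotate (n + 1)) =
        Matrix.of fun i j : Fin (n + 1) => ∑ σ, (c' i σ : ℂ) *
          ee ((((j : ℕ) : ℝ) + 1 - (((n + 1 : ℕ) : ℝ) - 1) / 2) * ψ i σ) := by
      ext i j
      rw [Matrix.submatrix_apply, Matrix.of_apply, id]
      induction j using Fin.lastCases with
      | last => rw [finRotate_last, Matrix.updateCol_self]; simp [hv]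
      | cast j =>
        rw [finRotate_apply, Fin.coeSucc_eq_succ, Matrix.updateCol_ne (Fin.succ_ne_zero j)]
        simp [hM, hv]
    have h3 := congrArg (fun A => ‖A.det‖) e
    simp only [Matrix.det_permute', det_exa hvdm ψ c' 1, norm_mul] at h3
    have h4 : ‖((Equiv.Perm.sign (finRotate (n + 1)) : ℤ) : ℂ)‖ = 1 := by
      rcases Int.units_eq_one_or (Equiv.Perm.sign (finRotate (n + 1))) with h | h <;> simp [h]
    rw [h4, one_mul] at h3
    rw [Matrix.cramer_apply, h3, d0, norm_mul, Complex.norm_real, Real.norm_eq_abs, ← h2]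
    refine mul_le_mul_of_nonneg_left ((norm_sum_le _ _).trans (le_of_eq ?_)) (norm_nonneg _)
    refine sum_congr rfl fun S _ => ?_
    simp [norm_prod]
  set a : Fin (n + 1) → ℂ := fun j => -(M.cramer (v (n + 1)) j / M.det) with ha
  have hdeg : (∑ j : Fin (n + 1), C (a j) * X ^ (j : ℕ)).degree < ((n + 1 : ℕ) : WithBot ℕ) :=
    degree_sum_fin_lt a
  refine ⟨X ^ (n + 1) + ∑ j : Fin (n + 1), C (a j) * X ^ (j : ℕ),
    ⟨monic_X_pow_add hdeg, ?_, fun k => ?_⟩, ?_⟩
  · rw [natDegree_add_eq_left_of_degree_lt (by rwa [degree_X_pow]), natDegree_X_pow]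
  · have h3 : ∀ (m : ℕ) (t : ℝ), ee (-((((n + 1 : ℕ) : ℝ) - 1) * t / 2)) * ee t ^ m =
        ee (((m : ℝ) - (((n + 1 : ℕ) : ℝ) - 1) / 2) * t) := fun m t => by
      rw [← ee_nat, ← ee_add]
      congr 1
      ring
    have h4 : ∀ t : ℝ, al (n + 1) (X ^ (n + 1) + ∑ j : Fin (n + 1), C (a j) * X ^ (j : ℕ)) t =
        ee ((((n + 1 : ℕ) : ℝ) - (((n + 1 : ℕ) : ℝ) - 1) / 2) * t) +
          ∑ j : Fin (n + 1), a j * ee ((((j : ℕ) : ℝ) - (((n + 1 : ℕ) : ℝ) - 1) / 2) * t) := by
      intro t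
      simp only [al, eval_add, eval_pow, eval_X, eval_finsetSum, eval_mul, eval_C, mul_add,
        mul_sum, ← h3]
      exact congrArg _ (sum_congr rfl fun j _ => by ring)
    have h5 := congrFun (M.mulVec_cramer (v (n + 1))) k
    simp only [Matrix.mulVec, dotProduct, Pi.smul_apply, smul_eq_mul] at h5
    have h6 : v (n + 1) k + ∑ j : Fin (n + 1), a j * v j k = 0 := by
      have : ∑ j : Fin (n + 1), a j * v j k =
          -((∑ j, M k j * M.cramer (v (n + 1)) j) / M.det) := by
        rw [sum_div, ← sum_neg_distrib]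
        exact sum_congr rfl fun j _ => by simp only [ha, hM, Matrix.of_apply]; ring
      rw [this, h5, mul_div_cancel_left₀ _ d1, add_neg_cancel]
    rw [h4, h4, ← h6]
    simp only [hv, Fintype.sum_bool, hψ, hc', pt, cond_true, cond_false, mul_add, mul_sum,
      sum_add_distrib]
    have h7 : ∀ (x : ℂ) (f : Fin (n + 1) → ℂ), ∑ j, x * (a j * f j) = ∑ j, a j * (x * f j) :=
      fun x f => sum_congr rfl fun j _ => by ring
    rw [h7, h7]
    ring
  · have : (X ^ (n + 1) + ∑ j : Fin (n + 1), C (a j) * X ^ (j : ℕ) : ℂ[X]).eval 0 = a 0 := by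
      simp [eval_finsetSum, Fin.sum_univ_succ]
    rw [this, ha]
    simp only [norm_neg, norm_div]
    exact div_le_one_of_le₀ d2 (norm_nonneg _)

end Pool.Agent.MP_334d28_an.K

end

section

/-!
The first time a zero reaches the circle.
-/

open Polynomial Finset
open scoped Real ComplexConjugate

namespace Pool.Agent.MP_334d28_an.K

theorem open_hit (q r : ℂ[X]) (hq : ∀ z : ℂ, ‖z‖ ≤ 1 → q.eval z ≠ 0) (hr : r ≠ 0)
    (h0 : r.eval 0 = 0) (z : ℂ) (hz : ‖z‖ < 1) :
    ∃ (z' : ℂ) (δ : ℝ), ‖z'‖ < 1 ∧ 0 < δ ∧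
      r.eval z' / q.eval z' = r.eval z / q.eval z - δ := by
  have hA : AnalyticAt ℂ (fun w => r.eval w / q.eval w) z :=
    (r.differentiable.analyticAt z).div (q.differentiable.analyticAt z) (hq z hz.le)
  have hb : Metric.ball (0 : ℂ) 1 ∈ nhds z := Metric.isOpen_ball.mem_nhds (by simpa using hz)
  rcases hA.eventually_constant_or_nhds_le_map_nhds with h | h
  · exfalso
    set c := r.eval z / q.eval z with hc
    have h1 : ∀ᶠ w in nhds z, (r - C c * q).IsRoot w := by
      filter_upwards [h, hb] with w hw hw'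
      have hw2 : q.eval w ≠ 0 := hq w (by simpa using (Metric.mem_ball.1 hw').le)
      simp only [IsRoot.def, eval_sub, eval_mul, eval_C]
      rw [← hw]; field_simp; ring
    have h2 : r - C c * q = 0 := eq_zero_of_infinite_isRoot _ (infinite_of_mem_nhds z h1)
    have h3 := congrArg (eval 0) h2
    simp only [eval_sub, eval_mul, eval_C, h0, eval_zero, zero_sub, neg_eq_zero] at h3
    have h4 : c = 0 := (mul_eq_zero.1 h3).resolve_right (hq 0 (by simp))
    rw [h4] at h2
    exact hr (by simpa using h2)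
  · have h1 := h (Filter.image_mem_map hb)
    obtain ⟨ε, hε, h2⟩ := Metric.mem_nhds_iff.1 h1
    have h3 : r.eval z / q.eval z - ((ε / 2 : ℝ) : ℂ) ∈ Metric.ball (r.eval z / q.eval z) ε := by
      rw [mem_ball_iff_norm, sub_sub_cancel_left, norm_neg, Complex.norm_real, Real.norm_eq_abs,
        abs_of_pos (by linarith)]
      linarith
    obtain ⟨z', hz', e⟩ := h2 h3
    exact ⟨z', ε / 2, by simpa using hz', by linarith, e⟩

theorem hit_st : HIT_st := by
  intro q r hq hr h0
  set ψ : ℂ → ℂ := fun w => r.eval w / q.eval w with hψ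
  have hc : ContinuousOn ψ (Metric.closedBall 0 1) :=
    r.continuous.continuousOn.div q.continuous.continuousOn fun w hw => hq w (by simpa using hw)
  have hK : IsCompact (Metric.closedBall (0 : ℂ) 1 ∩ (fun w => (ψ w).im) ⁻¹' {0}) := by
    refine (isCompact_closedBall (0 : ℂ) 1).of_isClosed_subset ?_ Set.inter_subset_left
    exact (Complex.continuous_im.comp_continuousOn hc).preimage_isClosed_of_isClosed
      Metric.isClosed_closedBall isClosed_singleton
  have hψ0 : ψ 0 = 0 := by simp [hψ, h0]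
  obtain ⟨z₀, ⟨hz₀, him⟩, hmin⟩ := hK.exists_isMinOn ⟨0, by simp, by simp [hψ0]⟩
    (f := fun w => (ψ w).re)
    ((Complex.continuous_re.comp_continuousOn hc).mono Set.inter_subset_left)
  have hz1 : ‖z₀‖ ≤ 1 := by simpa using hz₀
  have him' : (ψ z₀).im = 0 := him
  have key : ∀ z : ℂ, ‖z‖ < 1 → (ψ z).im = 0 → (ψ z₀).re < (ψ z).re := by
    intro z hz hi
    obtain ⟨z', δ, hz', hδ, e⟩ := open_hit q r hq hr h0 z hz
    have e' : ψ z' = ψ z - δ := e
    have h1 : (ψ z₀).re ≤ (ψ z').re :=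
      hmin (a := z') ⟨by simpa using hz'.le, by simp [e', hi]⟩
    rw [e'] at h1
    simp only [Complex.sub_re, Complex.ofReal_re] at h1
    linarith
  have hM : (ψ z₀).re < 0 := by simpa [hψ0] using key 0 (by simp) (by simp [hψ0])
  set M := (ψ z₀).re with hMd
  have hM' : (M : ℂ) ≠ 0 := by exact_mod_cast hM.ne
  have ev : ∀ z : ℂ, ‖z‖ ≤ 1 → ((q + C ((-M⁻¹ : ℝ) : ℂ) * r).eval z = 0 ↔ ψ z = M) := by
    intro z hz
    have h1 := hq z hz
    simp only [eval_add, eval_mul, eval_C, hψ]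
    push_cast
    rw [div_eq_iff h1]
    constructor
    · intro h
      field_simp at h
      linear_combination -h
    · intro h
      rw [h]; field_simp; ring
  refine ⟨-M⁻¹, by simpa using hM, fun z hz h => ?_, z₀, ?_, ?_⟩
  · have h1 := (ev z hz.le).1 h
    have h2 := key z hz (by simp [h1])
    rw [h1] at h2
    simp at h2
  · by_contra h
    exact lt_irrefl _ (key z₀ (lt_of_le_of_ne hz1 h) him')
  · exact (ev z₀ hz1).2 (Complex.ext (by simp [hMd]) (by simp [him']))

end Pool.Agent.MP_334d28_an.K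

end

section

/-! Coefficients of the numerator. -/

open Polynomial Finset
open scoped Real ComplexConjugate

namespace Pool.Agent.MP_334d28_an.K

theorem lin_coef (z : ℂ) : (C z - X : ℂ[X]).degree ≤ 1 := by compute_degree

theorem degPP_coef (L : List (ℝ × ℂ)) : (PP L).degree ≤ L.length := by
  induction L with
  | nil => simp [PP]
  | cons a L ih =>
    rw [PP, List.length_cons, Nat.cast_succ, add_comm]
    exact (degree_mul_le _ _).trans (add_le_add (lin_coef _) ih)

theorem degQQ_coef (L : List (ℝ × ℂ)) : (QQ L).degree < L.length := by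
  induction L with
  | nil => simp [QQ]
  | cons a L ih =>
    rw [QQ, List.length_cons]
    refine (degree_add_le _ _).trans_lt (max_lt ?_ ?_)
    · refine ((degree_mul_le _ _).trans (add_le_add degree_C_le (degPP_coef L))).trans_lt ?_
      rw [zero_add]
      exact_mod_cast Nat.lt_succ_self _
    · rw [Nat.cast_succ, add_comm]
      exact ((degree_mul_le _ _).trans (add_le_add (lin_coef _) le_rfl)).trans_lt
        (WithBot.add_lt_add_left WithBot.one_ne_bot ih)

/-- the shifted list -/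
noncomputable def sh_coef (L : List (ℝ × ℂ)) : List (ℝ × ℂ) := L.map fun a => (a.1, a.2 * ee a.1)

theorem PPsh_coef (L : List (ℝ × ℂ)) : PP (sh_coef L) = PP L := by
  induction L with
  | nil => rfl
  | cons a L ih => exact congrArg ((C (ee a.1) - X) * ·) ih

theorem QQsh_coef (L : List (ℝ × ℂ)) : X * QQ L + C (mom L 0) * PP L = QQ (sh_coef L) := by
  induction L with
  | nil => simp [QQ, sh_coef]
  | cons a L ih =>
    have e : QQ (sh_coef (a :: L)) =
        C (a.2 * ee a.1) * PP (sh_coef L) + (C (ee a.1) - X) * QQ (sh_coef L) := rfl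
    rw [e, ← ih, PPsh_coef, QQ, PP, mom_cons, zero_mul, ee_zero, mul_one, C_add, C_mul]
    ring

theorem momsh_coef (L : List (ℝ × ℂ)) : mom (sh_coef L) 0 = mom L 1 := by
  simp [mom, sh_coef, Function.comp_def]

theorem deg3_coef (L : List (ℝ × ℂ)) (h0 : mom L 0 = 0) (h1 : mom L 1 = 0) :
    (QQ L).natDegree ≤ L.length - 3 := by
  by_cases hQ : QQ L = 0
  · simp [hQ]
  have a1 := QQsh_coef L
  have a2 := QQsh_coef (sh_coef L)
  rw [h0, C_0, zero_mul, add_zero] at a1
  rw [momsh_coef, h1, C_0, zero_mul, add_zero, ← a1] at a2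
  have a3 := degQQ_coef (sh_coef (sh_coef L))
  have hX : X * QQ L ≠ 0 := mul_ne_zero X_ne_zero hQ
  rw [← a2, ← natDegree_lt_iff_degree_lt (mul_ne_zero X_ne_zero hX), natDegree_X_mul hX,
    natDegree_X_mul hQ] at a3
  simp only [sh_coef, List.length_map] at a3
  omega

theorem zero_coef (L : List (ℝ × ℂ)) : (QQ L).eval 0 = (PP L).eval 0 * mom L (-1) ∧
    (PP L).derivative.eval 0 = -(PP L).eval 0 * (L.map fun a => ee (-a.1)).sum ∧
    (QQ L).derivative.eval 0 + (QQ L).eval 0 * (L.map fun a => ee (-a.1)).sum =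
      (PP L).eval 0 * mom L (-2) ∧ ‖(PP L).eval 0‖ = 1 := by
  induction L with
  | nil => simp [PP, QQ]
  | cons a L ih =>
    obtain ⟨h1, h2, h3, h4⟩ := ih
    have e1 := ee_mul_neg a.1
    have e2 : ee (-2 * a.1) = ee (-a.1) * ee (-a.1) := by rw [← ee_add]; congr 1; ring
    simp only [PP, QQ, mom_cons, List.map_cons, List.sum_cons, derivative_add, derivative_mul,
      derivative_sub, derivative_C, derivative_X, eval_add, eval_mul, eval_sub, eval_C, eval_X,
      eval_neg, sub_zero, zero_sub, zero_mul, zero_add, neg_one_mul, e2, norm_mul,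
      norm_ee, h4, mul_one, and_true]
    refine ⟨?_, ?_, ?_⟩
    · linear_combination ee a.1 * h1 - a.2 * (PP L).eval 0 * e1
    · linear_combination ee a.1 * h2 + (PP L).eval 0 * e1
    · linear_combination a.2 * h2 + ee a.1 * h3 +
        ((QQ L).eval 0 - a.2 * (PP L).eval 0 * ee (-a.1)) * e1

theorem root_coef {L : List (ℝ × ℂ)} {a : ℝ × ℂ} (h : a ∈ L) : (PP L).eval (ee a.1) = 0 := by
  induction L with
  | nil => simp at h
  | cons b L ih =>
    rcases List.mem_cons.1 h with rfl | h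
    · simp [PP]
    · simp [PP, ih h]

theorem res_coef {L : List (ℝ × ℂ)} {a : ℝ × ℂ} (h : a ∈ L) :
    (QQ L).eval (ee a.1) = -a.2 * (PP L).derivative.eval (ee a.1) := by
  induction L with
  | nil => simp at h
  | cons b L ih =>
    rcases List.mem_cons.1 h with rfl | h
    · simp [PP, QQ]
    · simp only [PP, QQ, derivative_mul, eval_add, eval_mul, ih h, root_coef h]
      ring

theorem coef_st : COEF_st := fun L =>
  ⟨degQQ_coef L, deg3_coef L, (zero_coef L).1, (zero_coef L).2.2.1, (zero_coef L).2.2.2,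
    fun _ h => res_coef h⟩

end Pool.Agent.MP_334d28_an.K

end

section

/-!
The bound for slit words.
-/

open Polynomial Finset
open scoped Real ComplexConjugate

namespace Pool.Agent.MP_334d28_an.K

theorem split_alg : ∀ Hi Lo : List (ℝ × ℂ),
    Lo.map Prod.snd = (Hi.map Prod.snd).map (fun x => -x) →
    ∃ (N : ℕ) (f g : Fin N → ℝ × ℂ), Lo = List.ofFn f ∧ Hi = List.ofFn g ∧
      ∀ k, (f k).2 = -(g k).2
  | [], Lo, h => ⟨0, Fin.elim0, Fin.elim0, by simpa using h, by simp, fun k => k.elim0⟩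
  | b :: Hi, [], h => by simp at h
  | b :: Hi, a :: Lo, h => by
    simp only [List.map_cons, List.cons.injEq] at h
    obtain ⟨N, f, g, h1, h2, h3⟩ := split_alg Hi Lo h.2
    refine ⟨N + 1, Fin.cons a f, Fin.cons b g, by simp [List.ofFn_succ, h1],
      by simp [List.ofFn_succ, h2], fun k => ?_⟩
    refine Fin.cases ?_ (fun k => ?_) k
    · simpa using h.1
    · simpa using h3 k

theorem core_alg (hnrm : NRM_st) (hcoef : COEF_st) {N : ℕ} (a₁ a₂ a₃ a₄ : ℝ × ℂ)
    (f g : Fin N → ℝ × ℂ) (hfg : ∀ k, (f k).2 = -(g k).2) (L : List (ℝ × ℂ))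
    (hL : L = a₁ :: a₂ :: a₃ :: a₄ :: ((List.ofFn f).reverse ++ List.ofFn g)) (hG : Good L)
    (h0 : mom L 0 = 0) (h1 : mom L 1 = 0) : ‖mom L (-2)‖ ≤ 5 * ‖mom L (-1)‖ := by
  obtain ⟨hord, hwin, hz⟩ := hG
  obtain ⟨-, c2, c3, c4, c5, c6⟩ := hcoef L
  have hf : ∀ k, f k ∈ (List.ofFn f).reverse ++ List.ofFn g := fun k => by simp
  have hg : ∀ k, g k ∈ (List.ofFn f).reverse ++ List.ofFn g := fun k => by simp
  have hsub : ∀ b ∈ (List.ofFn f).reverse ++ List.ofFn g, b ∈ L := fun b hb => by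
    rw [hL]; simp only [List.mem_cons]; tauto
  rw [List.pairwise_map, hL] at hord
  simp only [List.pairwise_cons, List.mem_cons] at hord
  obtain ⟨o1, o2, o3, o4, o5⟩ := hord
  rw [List.pairwise_append, List.pairwise_reverse, List.pairwise_ofFn, List.pairwise_ofFn] at o5
  obtain ⟨o5, o6, o7⟩ := o5
  have hN : Nest (fun k => (f k).1) fun k => (g k).1 :=
    ⟨fun i j h => o5 h, fun i j h => o6 h, fun j k => o7 _ (by simp) _ (by simp),
      fun j k => hwin _ (hsub _ (hf j)) _ (hsub _ (hg k))⟩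
  have hO : ∀ i, Out (fun k => (f k).1) (fun k => (g k).1) (![a₁.1, a₂.1, a₃.1, a₄.1] i) := by
    intro i k
    fin_cases i
    · exact ⟨o1 _ (by have := hf k; tauto), hwin a₁ (by simp [hL]) _ (hsub _ (hg k))⟩
    · exact ⟨o2 _ (by have := hf k; tauto), hwin a₂ (by simp [hL]) _ (hsub _ (hg k))⟩
    · exact ⟨o3 _ (by have := hf k; tauto), hwin a₃ (by simp [hL]) _ (hsub _ (hg k))⟩
    · exact ⟨o4 _ (hf k), hwin a₄ (by simp [hL]) _ (hsub _ (hg k))⟩
  have hP : PP L = PI ![a₁.1, a₂.1, a₃.1, a₄.1] (fun k => (f k).1) fun k => (g k).1 := by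
    rw [PP_eq, hL, PI, Fin.prod_univ_four, Fintype.prod_prod_type]
    simp only [List.map_cons, List.prod_cons, List.map_append, List.prod_append,
      List.map_reverse, List.prod_reverse, List.map_ofFn, List.prod_ofFn, Fintype.prod_bool,
      prod_mul_distrib, pt, cond_true, cond_false, Function.comp_def, Matrix.cons_val_zero,
      Matrix.cons_val_one, Matrix.cons_val]
    ring
  have hS : (L.map fun a => ee (-a.1)).sum = ∑ i, ee (-![a₁.1, a₂.1, a₃.1, a₄.1] i) +
      ∑ u, ee (-pt (fun k => (f k).1) (fun k => (g k).1) u) := by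
    rw [hL, Fin.sum_univ_four, Fintype.sum_prod_type]
    simp only [List.map_cons, List.sum_cons, List.map_append, List.sum_append,
      List.map_reverse, List.sum_reverse, List.map_ofFn, List.sum_ofFn, Fintype.sum_bool,
      sum_add_distrib, pt, cond_true, cond_false, Function.comp_def, Matrix.cons_val_zero,
      Matrix.cons_val_one, Matrix.cons_val]
    ring
  have hlen : L.length - 3 = 2 * N + 1 := by
    rw [hL]; simp only [List.length_cons, List.length_append, List.length_reverse,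
      List.length_ofFn]; omega
  have hres : ∀ a ∈ L, (QQ L).eval (ee a.1) / (PP L).derivative.eval (ee a.1) = -a.2 := by
    intro a ha
    have h2 := hz (ee a.1) (norm_ee _).le
    rw [c6 a ha] at h2 ⊢
    exact mul_div_cancel_right₀ _ (right_ne_zero_of_mul h2)
  have h5 := hnrm N _ _ _ (QQ L) hN hO (hlen ▸ c2 h0 h1) (fun z h => hz z h.le) fun k => by
    rw [← hP, hres _ (hsub _ (hf k)), hres _ (hsub _ (hg k)), hfg k]; ring
  rw [Five, ← hS, c4, c3, norm_mul, norm_mul, c5, one_mul, one_mul] at h5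
  exact h5

theorem mom_alg (L : List (ℝ × ℂ)) (β : ℂ) (k : ℝ) :
    mom (L.map fun a => (a.1, a.2 - β * conj a.2)) k = mom L k - β * conj (mom L (-k)) := by
  induction L with
  | nil => simp [mom]
  | cons a L ih =>
    rw [List.map_cons, mom_cons, mom_cons, mom_cons, ih, map_add, map_mul, conj_ee, neg_mul,
      neg_neg]
    ring

theorem alg_st (hnrm : NRM_st) (hcoef : COEF_st) (haff : AFF_st) : ALG_st := by
  intro e₁ e₂ e₃ e₄ c he L hL hG hlt
  have h0 : mom L 0 = 0 := by
    rw [mom_zero, hL]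
    simp only [List.sum_cons, List.sum_append, List.sum_reverse]
    have : (c.map fun x => -x).sum = -c.sum := (List.sum_neg c).symm
    linear_combination he + this
  have hm : conj (mom L (-1)) ≠ 0 := by
    rw [_root_.map_ne_zero, ← norm_pos_iff]; exact (norm_nonneg _).trans_lt hlt
  set β := mom L 1 / conj (mom L (-1)) with hβ
  have hβ1 : ‖β‖ < 1 := by
    rw [hβ, norm_div, Complex.norm_conj, div_lt_one ((norm_nonneg _).trans_lt hlt)]; exact hlt
  have hβ2 : β * conj (mom L (-1)) = mom L 1 := div_mul_cancel₀ _ hm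
  have hG' := haff L β hG h0 hβ1
  obtain ⟨a₁, L₁, rfl, -, hL⟩ := List.map_eq_cons_iff.1 hL
  obtain ⟨a₂, L₂, rfl, -, hL⟩ := List.map_eq_cons_iff.1 hL
  obtain ⟨a₃, L₃, rfl, -, hL⟩ := List.map_eq_cons_iff.1 hL
  obtain ⟨a₄, L₄, rfl, -, hL⟩ := List.map_eq_cons_iff.1 hL
  obtain ⟨Lo, Hi, rfl, hlo, hhi⟩ := List.map_eq_append_iff.1 hL
  obtain ⟨N, f, g, hf, hg, hfg⟩ := split_alg Hi Lo.reverse
    (by rw [List.map_reverse, hlo, List.reverse_reverse, hhi])
  have hf' : Lo = (List.ofFn f).reverse := by rw [← hf, List.reverse_reverse]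
  set L := a₁ :: a₂ :: a₃ :: a₄ :: (Lo ++ Hi) with hLdef
  have h5 := core_alg hnrm hcoef (a₁.1, a₁.2 - β * conj a₁.2) (a₂.1, a₂.2 - β * conj a₂.2)
    (a₃.1, a₃.2 - β * conj a₃.2) (a₄.1, a₄.2 - β * conj a₄.2)
    (fun k => ((f k).1, (f k).2 - β * conj (f k).2))
    (fun k => ((g k).1, (g k).2 - β * conj (g k).2))
    (fun k => by simp only [hfg k, map_neg]; ring) _
    (by rw [hLdef, hf', hg]
        simp only [List.map_cons, List.map_append, List.map_reverse, List.map_ofFn,
          Function.comp_def]) hG'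
    (by rw [mom_alg, neg_zero, h0]; simp) (by rw [mom_alg, hβ2, sub_self])
  rw [mom_alg, mom_alg, neg_neg, neg_neg] at h5
  have e1 : conj (mom L (-1)) * mom L (-2) - mom L 1 * conj (mom L 2) =
      conj (mom L (-1)) * (mom L (-2) - β * conj (mom L 2)) := by rw [← hβ2]; ring
  have e2 : conj (mom L (-1)) * mom L (-1) - mom L 1 * conj (mom L 1) =
      conj (mom L (-1)) * (mom L (-1) - β * conj (mom L 1)) := by
    linear_combination conj (mom L 1) * hβ2
  rw [e1, e2, norm_mul, norm_mul]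
  have := mul_le_mul_of_nonneg_left h5 (norm_nonneg (conj (mom L (-1))))
  linarith

end Pool.Agent.MP_334d28_an.K

end

section

/-!
Splitting a pole into two poles: the bound passes to the limit.
-/

open Polynomial Finset
open scoped Real ComplexConjugate

namespace Pool.Agent.MP_334d28_an.K

open Filter Topology

theorem zero_ear {Q P : ℂ[X]} {a b : ℂ} {θ : ℝ} (hw : 0 < wdg a b)
    (hQ : ∀ z : ℂ, ‖z‖ ≤ 1 → Q.eval z ≠ 0) (h0 : Q.eval (ee θ) = (a + b) * P.eval (ee θ)) :
    ∀ᶠ e in 𝓝 (0 : ℝ), ∀ z ∈ Metric.closedBall (0 : ℂ) 1, 0 < e → ‖z‖ ≤ 1 →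
      (ee (θ + e) - z) * Q.eval z + b * (ee θ - ee (θ + e)) * P.eval z ≠ 0 := by
  have ce := continuous_ee
  have cQ := Q.continuous
  have cP := P.continuous
  refine (isCompact_closedBall (0 : ℂ) 1).eventually_forall_of_forall_eventually fun y hy => ?_
  have hy' := hQ y (by simpa using hy)
  by_cases e0 : y = ee θ
  · subst e0
    have h1 := mul_ne_zero_iff.1 (h0 ▸ hy')
    have c1 : ContinuousAt (fun p : ℝ × ℂ => (Complex.I * ee ((p.1 + 0) / 2) *
        ((Q.eval p.2 - b * P.eval p.2) / Q.eval p.2)).re) (0, ee θ) := by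
      refine Complex.continuous_re.continuousAt.comp (ContinuousAt.mul ?_ (ContinuousAt.div ?_ ?_ hy'))
      all_goals exact Continuous.continuousAt (by fun_prop)
    have c2 : 0 < (Complex.I * ee ((0 + 0) / 2) *
        ((Q.eval (ee θ) - b * P.eval (ee θ)) / Q.eval (ee θ))).re := by
      have e1 : (Q.eval (ee θ) - b * P.eval (ee θ)) / Q.eval (ee θ) = a / (a + b) := by
        have := h1.1
        have := h1.2
        rw [h0]
        field_simp
        ring
      have e2 : (Complex.I * (a / (a + b))).re = wdg a b / Complex.normSq (a + b) := by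
        simp only [Complex.mul_re, Complex.I_re, Complex.I_im, Complex.div_im, Complex.add_re,
          Complex.add_im, wdg]
        ring
      rw [e1, add_zero, zero_div, ee_zero, mul_one, e2]
      exact div_pos hw (Complex.normSq_pos.2 h1.1)
    have c3 : ∀ᶠ p : ℝ × ℂ in 𝓝 (0, ee θ), p.1 < 0 + 2 * π :=
      continuousAt_fst.eventually_lt continuousAt_const (by simpa using Real.pi_pos)
    filter_upwards [continuousAt_const.eventually_lt c1 c2, c3] with p h2 h3 h4 h5 h6
    have h7 := hQ _ h5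
    have e1 : p.2 = ee θ * (1 + ((2 * sn p.1 0 : ℝ) : ℂ) * (Complex.I * ee ((p.1 + 0) / 2) *
        ((Q.eval p.2 - b * P.eval p.2) / Q.eval p.2))) := by
      have e2 := ee_sub p.1 0
      rw [ee_zero] at e2
      rw [ee_add] at h6
      push_cast
      field_simp
      linear_combination -h6 + ee θ * (Q.eval p.2 - b * P.eval p.2) * e2
    have h8 := congrArg norm e1
    rw [norm_mul, norm_ee, one_mul] at h8
    have h9 := (Complex.re_le_norm _).trans (h8.ge.trans h5)
    rw [Complex.add_re, Complex.one_re, Complex.re_ofReal_mul] at h9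
    have h10 := mul_pos (mul_pos two_pos (sn_pos h4 h3)) h2
    linarith
  · have c1 : ContinuousAt (fun p : ℝ × ℂ => (ee (θ + p.1) - p.2) * Q.eval p.2 +
        b * (ee θ - ee (θ + p.1)) * P.eval p.2) (0, y) := Continuous.continuousAt (by fun_prop)
    filter_upwards [c1.eventually_ne (y := 0) (by simpa [hy', sub_eq_zero] using Ne.symm e0)]
      with p h _ _ using h

theorem good_ear {U V : List (ℝ × ℂ)} {a b : ℂ} {θ : ℝ} (hw : 0 < wdg a b)
    (hG : Good (U ++ (θ, a + b) :: V)) :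
    ∀ᶠ e in 𝓝[>] (0 : ℝ), Good (U ++ (θ, a) :: (θ + e, b) :: V) := by
  obtain ⟨g1, g2, g3⟩ := hG
  have hθ : (θ, a + b) ∈ U ++ (θ, a + b) :: V := by simp
  have c0 : ContinuousAt (fun e : ℝ => θ + e) 0 := by fun_prop
  have k1 : ∀ᶠ e in 𝓝 (0 : ℝ), ∀ x ∈ {x | x ∈ U ++ (θ, a + b) :: V}, θ + e < x.1 + 2 * π :=
    (eventually_all_finite (List.finite_toSet _)).2 fun x hx =>
      c0.eventually_lt continuousAt_const (by simpa using g2 x hx _ hθ)
  simp only [List.map_append, List.map_cons, List.pairwise_append, List.pairwise_cons,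
    List.mem_cons, forall_eq_or_imp] at g1
  obtain ⟨p1, ⟨p2, p3⟩, p4⟩ := g1
  have k2 : ∀ᶠ e in 𝓝 (0 : ℝ), ∀ x ∈ {x | x ∈ V.map Prod.fst}, θ + e < x :=
    (eventually_all_finite (List.finite_toSet _)).2 fun x hx =>
      c0.eventually_lt continuousAt_const (by simpa using p2 x hx)
  have k3 := zero_ear (P := PP U * PP V) (θ := θ) hw g3 (by simp [QQ_append, QQ, PP]; ring)
  filter_upwards [self_mem_nhdsWithin, nhdsWithin_le_nhds k1, nhdsWithin_le_nhds k2,
    nhdsWithin_le_nhds k3] with e (e0 : 0 < e) q1 q2 q3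
  refine ⟨?_, ?_, fun z hz h => q3 z (by simpa using hz) e0 hz ?_⟩
  · simp only [List.map_append, List.map_cons, List.pairwise_append, List.pairwise_cons,
      List.mem_cons, forall_eq_or_imp]
    exact ⟨p1, ⟨⟨by linarith, p2⟩, q2, p3⟩, fun x hx =>
      ⟨(p4 x hx).1, by linarith [(p4 x hx).1], (p4 x hx).2⟩⟩
  · have m : ∀ x ∈ U ++ (θ, a) :: (θ + e, b) :: V,
        x.1 = θ + e ∨ ∃ y ∈ U ++ (θ, a + b) :: V, x.1 = y.1 := fun x hx => by
      simp only [List.mem_append, List.mem_cons] at hx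
      rcases hx with h | rfl | rfl | h
      · exact Or.inr ⟨x, by simp [h], rfl⟩
      · exact Or.inr ⟨_, hθ, rfl⟩
      · exact Or.inl rfl
      · exact Or.inr ⟨x, by simp [h], rfl⟩
    intro x hx y hy
    rcases m x hx with h | ⟨x', h1, h⟩ <;> rcases m y hy with h' | ⟨y', h2, h'⟩ <;> rw [h, h']
    · linarith [Real.pi_pos]
    · linarith [g2 _ hθ y' h2]
    · exact q1 x' h1
    · exact g2 x' h1 y' h2
  · rw [← h]
    simp only [QQ_append, QQ, PP, eval_add, eval_mul, eval_sub, eval_C, eval_X]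
    ring

theorem ear_st : EAR_st := by
  intro u v a b hw hO L hL hG h
  obtain ⟨U, W, rfl, hU, hW⟩ := List.map_eq_append_iff.1 hL
  obtain ⟨⟨θ, c⟩, V, rfl, rfl : c = a + b, hV⟩ := List.map_eq_cons_iff.1 hW
  have ce := continuous_ee
  have hm : ∀ k, Tendsto (fun e : ℝ => mom (U ++ (θ, a) :: (θ + e, b) :: V) k) (𝓝[>] 0)
      (𝓝 (mom (U ++ (θ, a + b) :: V) k)) := fun k => by
    simp only [mom_append, mom_cons]
    refine (Continuous.tendsto' (by fun_prop) 0 _ ?_).mono_left nhdsWithin_le_nhds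
    rw [add_zero]
    ring
  have cj := Complex.continuous_conj
  have hc := fun k => (cj.tendsto _).comp (hm k)
  refine le_of_tendsto_of_tendsto (((hc _).mul (hm _)).sub ((hm _).mul (hc _))).norm
    ((((hc _).mul (hm _)).sub ((hm _).mul (hc _))).norm.const_mul 5) ?_
  filter_upwards [good_ear hw hG, (hm 1).norm.eventually_lt (hm (-1)).norm h] with e h1 h2
  exact hO _ (by simp [hU, hV]) h1 h2

end Pool.Agent.MP_334d28_an.K

end

section

open Polynomial Finset
open scoped Real ComplexConjugate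

namespace Pool.Agent.MP_334d28_an.K

theorem ee_shift_rok (k : ℤ) (t : ℝ) : ee (k * (t - 2 * π)) = ee (k * t) := by
  have h : ee (t - 2 * π) = ee t := by
    rw [← ee_add_two_pi (t - 2 * π)]
    congr 1
    ring
  rw [ee_int, ee_int, h]

theorem mom_rok (M : List (ℝ × ℂ)) (b : ℝ × ℂ) (k : ℤ) :
    mom ((b.1 - 2 * π, b.2) :: M) k = mom (M ++ [b]) k := by
  rw [mom_perm (List.perm_append_singleton b M), mom_cons, mom_cons, ee_shift_rok]

theorem QQ_rok (M : List (ℝ × ℂ)) (b : ℝ × ℂ) :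
    QQ ((b.1 - 2 * π, b.2) :: M) = QQ (M ++ [b]) := by
  have h := ee_shift_rok 1 b.1
  simp only [Int.cast_one, one_mul] at h
  rw [QQ_perm (List.perm_append_singleton b M)]
  simp only [QQ, h]

theorem good_rok {M : List (ℝ × ℂ)} {b : ℝ × ℂ} (h : Good (M ++ [b])) :
    Good ((b.1 - 2 * π, b.2) :: M) := by
  obtain ⟨h1, h2, h3⟩ := h
  have hπ := Real.pi_pos
  rw [List.map_append, List.pairwise_append] at h1
  obtain ⟨p1, -, p3⟩ := h1
  have hb : b ∈ M ++ [b] := by simp
  have lt : ∀ x ∈ M, x.1 < b.1 := fun x hx => p3 x.1 (List.mem_map_of_mem hx) b.1 (by simp)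
  have gt : ∀ x ∈ M, b.1 < x.1 + 2 * π := fun x hx => h2 x (List.mem_append_left _ hx) b hb
  refine ⟨?_, ?_, ?_⟩
  · rw [List.map_cons, List.pairwise_cons]
    refine ⟨fun y hy => ?_, p1⟩
    obtain ⟨x, hx, rfl⟩ := List.mem_map.1 hy
    have := gt x hx
    show b.1 - 2 * π < x.1
    linarith
  · intro x hx y hy
    rcases List.mem_cons.1 hx with rfl | hx <;> rcases List.mem_cons.1 hy with rfl | hy
    · linarith
    · have := lt y hy
      show y.1 < b.1 - 2 * π + 2 * π
      linarith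
    · have := gt x hx
      show b.1 - 2 * π < x.1 + 2 * π
      linarith
    · exact h2 x (List.mem_append_left _ hx) y (List.mem_append_left _ hy)
  · rw [QQ_rok]
    exact h3

theorem rok_st : ROK_st := by
  intro w w' hr hw
  refine rot_ind (p := OK) (fun a l h L hL hG => ?_) hr hw
  obtain ⟨M, M', rfl, hM, hM'⟩ := List.map_eq_append_iff.1 hL
  obtain ⟨b, rfl, hb⟩ := List.map_eq_singleton_iff.1 hM'
  have hB := h ((b.1 - 2 * π, b.2) :: M) (by simp [hM, hb]) (good_rok hG)
  have e1 := mom_rok M b 1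
  have e2 := mom_rok M b (-1)
  have e3 := mom_rok M b 2
  have e4 := mom_rok M b (-2)
  push_cast at e1 e2 e3 e4
  unfold Bd at hB ⊢
  rw [e1, e2, e3, e4] at hB
  exact hB

end Pool.Agent.MP_334d28_an.K

end

section

/-!
The total angle of a positively triangulated polygon is not negative.
-/

open Polynomial Finset
open scoped Real ComplexConjugate

namespace Pool.Agent.MP_334d28_an.K

/-- a point off a segment does not see it under the angle `π` -/
theorem off_wnp {x y w : ℂ} (h : w ∉ segment ℝ x y) :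
    x - w ≠ 0 ∧ y - w ≠ 0 ∧ Complex.arg ((y - w) / (x - w)) ≠ π := by
  have hx : x - w ≠ 0 := fun e => h (sub_eq_zero.1 e ▸ left_mem_segment ℝ x y)
  have hy : y - w ≠ 0 := fun e => h (sub_eq_zero.1 e ▸ right_mem_segment ℝ x y)
  refine ⟨hx, hy, fun e => h ?_⟩
  obtain ⟨h1, h2⟩ := Complex.arg_eq_pi_iff.1 e
  obtain ⟨r, hr⟩ : ∃ r, r = ((y - w) / (x - w)).re := ⟨_, rfl⟩
  have h3 : (y - w) / (x - w) = (r : ℂ) := Complex.ext (by simp [hr]) (by simp [h2])
  have h4 : y - w = r * (x - w) := by rw [← h3]; field_simp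
  rw [← hr] at h1
  have h5 : 0 < 1 - r := by linarith
  have h6 : (1 : ℂ) - r ≠ 0 := by exact_mod_cast h5.ne'
  refine ⟨-r / (1 - r), 1 / (1 - r), div_nonneg (by linarith) h5.le, by positivity,
    by field_simp; ring, ?_⟩
  simp only [Complex.real_smul]
  push_cast
  field_simp
  linear_combination h4

theorem rev_wnp {x y w : ℂ} (h : w ∉ segment ℝ x y) :
    Complex.arg ((x - w) / (y - w)) = -Complex.arg ((y - w) / (x - w)) := by
  rw [← inv_div, Complex.arg_inv, if_neg (off_wnp h).2.2]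

theorem neg_wnp {u v : ℂ} (hu : u ≠ 0) (h : Complex.arg (v / u) < 0) : wdg u v < 0 := by
  have h1 := Complex.arg_neg_iff.1 h
  have h2 : 0 < Complex.normSq u := Complex.normSq_pos.2 hu
  rw [Complex.div_im, ← sub_div, div_neg_iff] at h1
  rcases h1 with h1 | h1
  · linarith [h1.2]
  · simp only [wdg]; linarith [h1.1]

/-- the triangle -/
theorem tri_wnp {a z b w : ℂ} (hw : 0 < wdg (z - a) (b - z)) (ha : a - w ≠ 0) (hz : z - w ≠ 0)
    (hb : b - w ≠ 0) :
    0 ≤ Complex.arg ((z - w) / (a - w)) + Complex.arg ((b - w) / (z - w)) +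
      Complex.arg ((a - w) / (b - w)) := by
  have h1 : (z - w) / (a - w) ≠ 0 := div_ne_zero hz ha
  have h2 : (b - w) / (z - w) ≠ 0 := div_ne_zero hb hz
  have h3 : (a - w) / (b - w) ≠ 0 := div_ne_zero ha hb
  have e : ((Complex.arg ((z - w) / (a - w)) + Complex.arg ((b - w) / (z - w)) +
      Complex.arg ((a - w) / (b - w)) : ℝ) : Real.Angle) = (0 : ℝ) := by
    rw [Real.Angle.coe_add, Real.Angle.coe_add, ← Complex.arg_mul_coe_angle h1 h2,
      ← Complex.arg_mul_coe_angle (mul_ne_zero h1 h2) h3,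
      show (z - w) / (a - w) * ((b - w) / (z - w)) * ((a - w) / (b - w)) = 1 by field_simp,
      Complex.arg_one]
  obtain ⟨k, hk⟩ := Real.Angle.angle_eq_iff_two_pi_dvd_sub.1 e
  have p1 := Complex.neg_pi_lt_arg ((z - w) / (a - w))
  have p2 := Complex.neg_pi_lt_arg ((b - w) / (z - w))
  have p3 := Complex.neg_pi_lt_arg ((a - w) / (b - w))
  have hs : wdg (a - w) (z - w) + wdg (z - w) (b - w) + wdg (b - w) (a - w) =
      wdg (z - a) (b - z) := by simp [wdg]; ring
  have hlt : -(2 * π) < 2 * π * k := by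
    by_contra hc
    have q1 := neg_wnp ha (show Complex.arg ((z - w) / (a - w)) < 0 by linarith)
    have q2 := neg_wnp hz (show Complex.arg ((b - w) / (z - w)) < 0 by linarith)
    have q3 := neg_wnp hb (show Complex.arg ((a - w) / (b - w)) < 0 by linarith)
    linarith
  have hk1 : (-1 : ℝ) < k := by
    by_contra hc
    nlinarith [Real.pi_pos]
  have hk2 : (0 : ℤ) ≤ k := by
    have : (-1 : ℤ) < k := by exact_mod_cast hk1
    omega
  have hk3 : (0 : ℝ) ≤ k := by exact_mod_cast hk2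
  rw [sub_zero] at hk
  rw [hk]
  positivity

theorem closed_wnp (x y : ℂ) : IsClosed (segment ℝ x y) := by
  rw [segment_eq_image]
  exact (isCompact_Icc.image (by fun_prop)).isClosed

theorem open_wnp (E : List (ℂ × ℂ)) : IsOpen {w | Off E w} := by
  induction E with
  | nil => simp [Off]
  | cons e E ih =>
    have : {w | Off (e :: E) w} = (segment ℝ e.1 e.2)ᶜ ∩ {w | Off E w} := by
      ext w; simp [Off]
    rw [this]
    exact (closed_wnp _ _).isOpen_compl.inter ih

theorem line_wnp {x y w : ℂ} (h : w ∈ segment ℝ x y) : wdg (y - x) (w - x) = 0 := by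
  obtain ⟨s, t, -, -, hst, rfl⟩ := h
  obtain rfl : s = 1 - t := by linarith
  simp [wdg]; ring

/-- a near point off the two diagonals -/
theorem near_wnp {a z b w : ℂ} (hw : 0 < wdg (z - a) (b - z)) {E : List (ℂ × ℂ)} (h : Off E w) :
    ∃ w', (∀ x ∈ segment ℝ w w', Off E x) ∧ w' ∉ segment ℝ a z ∧ w' ∉ segment ℝ z b := by
  obtain ⟨ε, hε, hb⟩ := Metric.isOpen_iff.1 (open_wnp E) w h
  have hp : 0 < ε / (‖b - a‖ + 1) := by positivity
  obtain ⟨d, hd, hn⟩ := (Set.Ioo_infinite hp).exists_notMem_finset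
    {-wdg (z - a) (w - a) / wdg (z - a) (b - z), wdg (b - z) (w - z) / wdg (z - a) (b - z)}
  simp only [mem_insert, mem_singleton, not_or] at hn
  refine ⟨w + d * (b - a), fun x hx => hb ?_, fun hx => hn.1 ?_, fun hx => hn.2 ?_⟩
  · refine (convex_ball w ε).segment_subset (Metric.mem_ball_self hε) ?_ hx
    rw [mem_ball_iff_norm, add_sub_cancel_left, norm_mul, Complex.norm_real,
      Real.norm_of_nonneg hd.1.le]
    have h2 := hd.2
    rw [lt_div_iff₀ (by positivity)] at h2
    nlinarith [hd.1]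
  · have := line_wnp hx
    rw [eq_div_iff hw.ne']
    simp [wdg] at this ⊢
    linarith
  · have := line_wnp hx
    rw [eq_div_iff hw.ne']
    simp [wdg] at this ⊢
    linarith

theorem app_wnp (E F : List (ℂ × ℂ)) (w : ℂ) : wn (E ++ F) w = wn E w + wn F w := by simp [wn]

theorem one_wnp (x y w : ℂ) : wn [(x, y)] w = Complex.arg ((y - w) / (x - w)) := by simp [wn]

theorem wnp_st (hwnc : WNC_st) : WNP_st := by
  intro a b l h
  induction h with
  | seg a b =>
    intro w hw
    rw [ce_cons_append] at hw ⊢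
    have h1 : w ∉ segment ℝ a b := hw (a, b) (by simp [pe])
    rw [app_wnp, pe, one_wnp, one_wnp, rev_wnp h1]
    simp
  | @glue a z b u v hp _ _ ih1 ih2 =>
    intro w₀ hw₀
    obtain ⟨w, hs, h1, h2⟩ := near_wnp hp hw₀
    rw [hwnc _ w₀ w hs]
    have hw := hs w (right_mem_segment ℝ w₀ w)
    rw [ce_cons_append, pe_append] at hw ⊢
    have o1 : Off (ce (a :: (u ++ [z]))) w := by
      rw [ce_cons_append]
      intro e he
      rcases List.mem_append.1 he with he | he
      · exact hw e (by simp [he])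
      · obtain rfl : e = (z, a) := by simpa using he
        rwa [segment_symm]
    have o2 : Off (ce (z :: (v ++ [b]))) w := by
      rw [ce_cons_append]
      intro e he
      rcases List.mem_append.1 he with he | he
      · exact hw e (by simp [he])
      · obtain rfl : e = (b, z) := by simpa using he
        rwa [segment_symm]
    have i1 := ih1 w o1
    have i2 := ih2 w o2
    rw [ce_cons_append, app_wnp, one_wnp, rev_wnp h1] at i1
    rw [ce_cons_append, app_wnp, one_wnp, rev_wnp h2] at i2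
    have t := tri_wnp hp (off_wnp h1).1 (off_wnp h1).2.1 (off_wnp h2).2.1
    rw [app_wnp, app_wnp, one_wnp]
    linarith

end Pool.Agent.MP_334d28_an.K

end

section

open Polynomial Finset
open scoped Real ComplexConjugate

namespace Pool.Agent.MP_334d28_an.K

theorem one_cut (v a b x y : ℂ) (h s t s₁ t₁ : ℝ) (hs : 0 ≤ s) (ht : 0 ≤ t) (hh : s + t < h)
    (hm : bc v a b s t ∈ segment ℝ x y) (hx : bc v a b s₁ t₁ ∈ segment ℝ x y)
    (hle : s₁ + t₁ ≤ s + t) (hneg : s₁ < 0 ∨ t₁ < 0) :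
    ∃ r : ℝ, 0 ≤ r ∧ r < h ∧ (bc v a b r 0 ∈ segment ℝ x y ∨ bc v a b 0 r ∈ segment ℝ x y) := by
  have hc : ContinuousOn (fun l : ℝ => min ((1 - l) * s + l * s₁) ((1 - l) * t + l * t₁))
      (Set.Icc 0 1) := by fun_prop
  have h0 : (0 : ℝ) ∈ Set.Icc (min ((1 - 1) * s + 1 * s₁) ((1 - 1) * t + 1 * t₁))
      (min ((1 - 0) * s + 0 * s₁) ((1 - 0) * t + 0 * t₁)) := by
    constructor
    · rcases hneg with h1 | h1
      · exact (min_le_left _ _).trans (by linarith)
      · exact (min_le_right _ _).trans (by linarith)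
    · exact le_min (by linarith) (by linarith)
  obtain ⟨l, ⟨hl0, hl1⟩, hl⟩ := intermediate_value_Icc' zero_le_one hc h0
  have hseg : bc v a b ((1 - l) * s + l * s₁) ((1 - l) * t + l * t₁) ∈ segment ℝ x y := by
    rw [← bc_comb v a b s t s₁ t₁ (1 - l) l (by ring)]
    exact convex_segment x y hm hx (by linarith) hl0 (by ring)
  have hsum : ((1 - l) * s + l * s₁) + ((1 - l) * t + l * t₁) < h := by
    nlinarith [mul_le_mul_of_nonneg_left hle hl0]
  simp only at hl
  have h1 := min_le_left ((1 - l) * s + l * s₁) ((1 - l) * t + l * t₁)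
  have h2 := min_le_right ((1 - l) * s + l * s₁) ((1 - l) * t + l * t₁)
  rcases min_choice ((1 - l) * s + l * s₁) ((1 - l) * t + l * t₁) with e | e
  · rw [hl] at e h2
    rw [← e] at hseg hsum
    exact ⟨_, h2, by linarith, Or.inr hseg⟩
  · rw [hl] at e h1
    rw [← e] at hseg hsum
    exact ⟨_, h1, by linarith, Or.inl hseg⟩

theorem cut_st : CUT_st := by
  intro v a b x y h s t hw hs ht hh hm hout
  obtain ⟨s₁, t₁, rfl⟩ := bc_surj hw x
  obtain ⟨s₂, t₂, rfl⟩ := bc_surj hw y
  obtain ⟨p, q, hp, hq, hpq, e⟩ := id hm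
  rw [bc_comb v a b s₁ t₁ s₂ t₂ p q hpq] at e
  obtain ⟨e1, e2⟩ := bc_inj hw e
  have hor : s₁ + t₁ ≤ s + t ∨ s₂ + t₂ ≤ s + t := by
    by_contra hcon
    push Not at hcon
    obtain ⟨h1, h2⟩ := hcon
    have h3 : p * (s₁ + t₁) + q * (s₂ + t₂) = (p + q) * (s + t) := by rw [hpq]; linarith
    rcases hp.eq_or_lt with hp0 | hp0
    · have : q = 1 := by linarith
      subst this; subst hp0; linarith
    · nlinarith [mul_lt_mul_of_pos_left h1 hp0, mul_le_mul_of_nonneg_left h2.le hq]
  rcases hor with h1 | h1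
  · refine one_cut v a b _ _ h s t s₁ t₁ hs ht hh hm (left_mem_segment _ _ _) h1 ?_
    by_contra hcon
    push Not at hcon
    exact (hout s₁ t₁ hcon.1 hcon.2 (by linarith)).1 rfl
  · refine one_cut v a b _ _ h s t s₂ t₂ hs ht hh hm (right_mem_segment _ _ _) h1 ?_
    by_contra hcon
    push Not at hcon
    exact (hout s₂ t₂ hcon.1 hcon.2 (by linarith)).2 rfl

end Pool.Agent.MP_334d28_an.K

end

section

/-!
The region between a chain and a far point is positively triangulated.
-/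

open Polynomial Finset
open scoped Real ComplexConjugate

namespace Pool.Agent.MP_334d28_an.K

theorem aff_chain {p q w : ℂ} (h : w ∈ openSegment ℝ p q) :
    ∃ s t : ℝ, 0 < s ∧ 0 < t ∧
      ∀ u c : ℂ, wdg u (w - c) = s * wdg u (p - c) + t * wdg u (q - c) := by
  obtain ⟨s, t, hs, ht, hst, rfl⟩ := h
  refine ⟨s, t, hs, ht, fun u c => ?_⟩
  obtain rfl : t = 1 - s := by linarith
  simp [wdg]; ring

theorem pos_chain {p q w u c z : ℂ} (h : w ∈ openSegment ℝ p q) (hne : p ≠ q)
    (hp : p = z ∧ wdg u (p - c) = 0 ∨ 0 < wdg u (p - c))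
    (hq : q = z ∧ wdg u (q - c) = 0 ∨ 0 < wdg u (q - c)) : 0 < wdg u (w - c) := by
  obtain ⟨s, t, hs, ht, e⟩ := aff_chain h
  rw [e]
  rcases hp with ⟨h1, h2⟩ | hp <;> rcases hq with ⟨h3, h4⟩ | hq
  · exact absurd (h1.trans h3.symm) hne
  · rw [h2]; positivity
  · rw [h4]; positivity
  · positivity

theorem chain_st (htri : TRI_st) : CHAIN_st := by
  intro x y B m hS hA hB
  have ax : wdg (B - x) (x - x) = 0 := by simp [wdg]
  have bB : wdg (y - B) (B - B) = 0 := by simp [wdg]
  have ay : 0 < wdg (B - x) (y - x) := hA y (by simp)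
  have bx : 0 < wdg (y - B) (x - B) := hB x (by simp)
  have vA : ∀ v ∈ x :: (m ++ [y]), v = x ∧ wdg (B - x) (v - x) = 0 ∨ 0 < wdg (B - x) (v - x) :=
    fun v hv => (List.mem_cons.1 hv).imp (fun h => ⟨h, h ▸ ax⟩) (hA v)
  have vB : ∀ v ∈ x :: (m ++ [y]), v = y ∧ wdg (y - B) (v - B) = 0 ∨ 0 < wdg (y - B) (v - B) :=
    fun v hv => by
      rw [← List.cons_append, List.mem_append, List.mem_singleton] at hv
      exact hv.symm.imp (fun h => ⟨h, h ▸ wdg_self _⟩) (hB v)
  have hBV : B ∉ x :: (m ++ [y]) := fun h => by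
    rcases vA B h with ⟨rfl, -⟩ | h
    · simp [wdg] at bx
    · simp at h
  have hperm : (x :: B :: y :: m.reverse).Perm (B :: x :: (m ++ [y])) :=
    (List.Perm.swap _ _ _).trans <| List.Perm.cons _ <| List.Perm.cons _ <|
      ((List.reverse_perm m).cons y).trans (List.perm_append_singleton y m).symm
  have hmem : ∀ e ∈ pe y m.reverse x, e ∈ (pe x m y).map Prod.swap := fun e he => by
    rwa [pe_reverse, List.mem_reverse] at he
  have e1 : ∀ w ∈ openSegment ℝ x B, wdg (B - x) (w - x) = 0 ∧ 0 < wdg (y - B) (w - B) :=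
    fun w hw => by
      obtain ⟨s, t, hs, ht, e⟩ := aff_chain hw
      rw [e, e, ax, bB, wdg_self]
      exact ⟨by ring, by positivity⟩
  have e2 : ∀ w ∈ openSegment ℝ B y, 0 < wdg (B - x) (w - x) ∧ wdg (y - B) (w - B) = 0 :=
    fun w hw => by
      obtain ⟨s, t, hs, ht, e⟩ := aff_chain hw
      rw [e, e, bB, wdg_self, wdg_self]
      exact ⟨by positivity, by ring⟩
  have e3 : ∀ e ∈ pe y m.reverse x, ∀ w ∈ openSegment ℝ e.1 e.2,
      0 < wdg (B - x) (w - x) ∧ 0 < wdg (y - B) (w - B) := fun e he w hw => by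
    obtain ⟨f, hf, rfl⟩ := List.mem_map.1 (hmem e he)
    obtain ⟨h1, h2⟩ := mem_pe hf
    have h3 : f.1 ∈ x :: (m ++ [y]) := List.mem_append_left [y] h1
    have h4 : f.2 ∈ x :: (m ++ [y]) := List.mem_cons_of_mem _ h2
    have h5 := (pe_ne hS.1 hf).symm
    exact ⟨pos_chain hw h5 (vA _ h4) (vA _ h3), pos_chain hw h5 (vB _ h4) (vB _ h3)⟩
  have hP : Simple (x :: B :: y :: m.reverse) := by
    refine ⟨hperm.nodup_iff.2 (List.nodup_cons.2 ⟨hBV, hS.1⟩), fun e he v hv hw => ?_,
      fun e he f hf hne => Set.disjoint_left.2 fun w hw hw' => ?_⟩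
    · simp only [ce, pe, List.mem_cons] at he
      rcases List.mem_cons.1 (hperm.mem_iff.1 hv) with rfl | hv
      · rcases he with rfl | rfl | he
        · exact (e1 _ hw).2.ne' bB
        · exact (e2 _ hw).1.ne' (wdg_self _)
        · exact (e3 e he _ hw).1.ne' (wdg_self _)
      · rcases he with rfl | rfl | he
        · rcases vA v hv with ⟨rfl, -⟩ | h
          · exact hBV ((left_mem_openSegment_iff.1 hw : v = B) ▸ hv)
          · exact h.ne' (e1 _ hw).1
        · rcases vB v hv with ⟨rfl, -⟩ | h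
          · exact hBV ((right_mem_openSegment_iff.1 hw : B = v) ▸ hv)
          · exact h.ne' (e2 _ hw).2
        · exact hS.swap.2.1 e (hmem e he) v hv hw
    · simp only [ce, pe, List.mem_cons] at he hf
      rcases he with rfl | rfl | he <;> rcases hf with rfl | rfl | hf
      · exact hne rfl
      · exact (e1 _ hw).2.ne' (e2 _ hw').2
      · exact (e3 f hf _ hw').1.ne' (e1 _ hw).1
      · exact (e1 _ hw').2.ne' (e2 _ hw).2
      · exact hne rfl
      · exact (e3 f hf _ hw').2.ne' (e2 _ hw).2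
      · exact (e3 e he _ hw).1.ne' (e1 _ hw').1
      · exact (e3 e he _ hw).2.ne' (e2 _ hw').2
      · exact Set.disjoint_left.1 (hS.swap.2.2 e (hmem e he) f (hmem f hf) hne) hw hw'
  refine (htri _ hP (by simp)).resolve_right fun h => ?_
  have hr : (x :: B :: y :: m.reverse).reverse ~r B :: ((x :: m) ++ [y]) := by
    simpa using List.isRotated_append (l := m ++ [y]) (l' := [B, x])
  have := (h B (x :: m) y hr).expo (φ := Complex.I * (y - x)) rfl fun w hw => by
    have e : (conj (Complex.I * (y - x)) * (w - B)).re =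
        wdg (B - x) (w - x) + wdg (y - B) (w - B) := by
      simp [wdg]; ring
    rw [e]
    rcases vA w hw with ⟨rfl, h⟩ | h
    · linarith
    · rcases vB w hw with ⟨-, h'⟩ | h' <;> linarith
  rw [wdg_swap] at this
  linarith

end Pool.Agent.MP_334d28_an.K

end

section

/-!
The exterior of a simple polygon.
-/

open Polynomial Finset
open scoped Real ComplexConjugate

namespace Pool.Agent.MP_334d28_an.K

theorem pos_ext {u x : ℂ} (h : ‖u - x‖ ≤ ‖u‖) (hx : x ≠ 0) : 0 < (conj u * x).re := by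
  have h1 : Complex.normSq (u - x) ≤ Complex.normSq u := by
    rw [Complex.normSq_eq_norm_sq, Complex.normSq_eq_norm_sq]
    gcongr
  have h2 := Complex.normSq_pos.2 hx
  simp only [Complex.normSq_apply, Complex.sub_re, Complex.sub_im, Complex.mul_re, Complex.conj_re,
    Complex.conj_im] at h1 h2 ⊢
  nlinarith

theorem ev_ext (P : List ℂ) (v : ℂ) (k p : ℂ → ℝ) (h : ∀ w ∈ P, w ≠ v → 0 < p w) :
    ∀ᶠ M : ℝ in Filter.atTop, ∀ w ∈ P, w ≠ v → k w < M * p w := by
  refine (Filter.eventually_all_finite (List.finite_toSet P)).2 fun w hw => ?_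
  by_cases e : w = v
  · exact Filter.Eventually.of_forall fun _ h' => absurd e h'
  · exact ((Filter.tendsto_id.atTop_mul_const (h w hw e)).eventually_gt_atTop (k w)).mono
      fun _ h' _ => h'

theorem far_ext {P : List ℂ} (hn : P.Nodup) (h3 : 3 ≤ P.length) :
    ∃ a ∈ P, ∃ b ∈ P, a ≠ b ∧ ∀ x ∈ P, ∀ y ∈ P, ‖y - x‖ ≤ ‖b - a‖ := by
  classical
  obtain _ | ⟨x, _ | ⟨y, l⟩⟩ := P
  · simp at h3
  · simp at h3
  obtain ⟨⟨a, b⟩, hab, hm⟩ := exists_max_image ((x :: y :: l).toFinset ×ˢ (x :: y :: l).toFinset)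
    (fun q => ‖q.2 - q.1‖) ⟨(x, x), by simp⟩
  rw [mem_product, List.mem_toFinset, List.mem_toFinset] at hab
  have hm' : ∀ s ∈ x :: y :: l, ∀ t ∈ x :: y :: l, ‖t - s‖ ≤ ‖b - a‖ := fun s hs t ht =>
    hm (s, t) (mem_product.2 ⟨List.mem_toFinset.2 hs, List.mem_toFinset.2 ht⟩)
  refine ⟨a, hab.1, b, hab.2, ?_, hm'⟩
  rintro rfl
  have := hm' x (by simp) y (by simp)
  rw [sub_self, norm_zero, norm_le_zero_iff, sub_eq_zero] at this
  simp [this] at hn

theorem ext_st (hchain : CHAIN_st) : EXT_st := by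
  intro P hP h3
  obtain ⟨a, ha, b, hb, hab, hm⟩ := far_ext hP.1 h3
  have hL : ∀ w ∈ P, w ≠ a → 0 < (conj (b - a) * (w - a)).re := fun w hw e =>
    pos_ext (by simpa using hm w hw b hb) (sub_ne_zero.2 e)
  have hR : ∀ w ∈ P, w ≠ b → 0 < (conj (b - a) * (b - w)).re := fun w hw e =>
    pos_ext (by simpa using hm a ha w hw) (sub_ne_zero.2 e.symm)
  obtain ⟨M, ⟨M1, M2⟩, M0⟩ := (((ev_ext P a (fun w => 2 * |wdg (b - a) (w - a)|) _ hL).and
    (ev_ext P b (fun w => |wdg (b - a) (w - b)|) _ hR)).and (Filter.eventually_gt_atTop 0)).exists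
  obtain ⟨s, t, rfl⟩ := List.append_of_mem ha
  have hr : s ++ a :: t ~r a :: (t ++ s) := List.isRotated_append
  obtain ⟨m₁, m₂, e⟩ := List.append_of_mem
    ((List.mem_cons.1 (hr.mem_iff.1 hb)).resolve_left hab.symm)
  rw [e] at hr
  generalize s ++ a :: t = P at *
  have hQ := hP.rot hr
  have hn := hQ.1
  have hn' : (b :: (m₂ ++ a :: m₁)).Nodup :=
    (List.isRotated_append (l := a :: m₁) (l' := b :: m₂)).nodup_iff.1 hn
  have he : ce (a :: (m₁ ++ b :: m₂)) = pe a m₁ b ++ pe b m₂ a := pe_append _ _ _ _ _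
  have hu : 0 < Complex.normSq (b - a) := Complex.normSq_pos.2 (sub_ne_zero.2 hab.symm)
  have a1 : ∀ w ∈ m₁ ++ b :: m₂, w ∈ P ∧ w ≠ a := fun w hw =>
    ⟨hr.mem_iff.2 (List.mem_cons_of_mem _ hw), fun e => (List.nodup_cons.1 hn).1 (e ▸ hw)⟩
  have a2 : ∀ w ∈ m₂ ++ a :: m₁, w ∈ P ∧ w ≠ b := fun w hw =>
    ⟨hr.mem_iff.2 (by simp at hw ⊢; tauto), fun e => (List.nodup_cons.1 hn').1 (e ▸ hw)⟩
  have T1 := hchain a b (b + (b - a) - M * (Complex.I * (b - a))) m₁
    (Sim.mono hQ (hn.sublist (by simp)) (fun v hv => by simp at hv ⊢; tauto)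
      fun f hf => he ▸ List.mem_append_left _ hf)
    (fun w hw => by
      obtain ⟨h1, h2⟩ := a1 w (by simp at hw ⊢; tauto)
      have h4 := M1 w h1 h2
      have h5 := neg_abs_le (wdg (b - a) (w - a))
      have h6 : wdg (b + (b - a) - M * (Complex.I * (b - a)) - a) (w - a) =
          2 * wdg (b - a) (w - a) + M * (conj (b - a) * (w - a)).re := by
        simp [wdg]; ring
      linarith)
    (fun w hw => by
      obtain ⟨h1, h2⟩ := a2 w (by simp at hw ⊢; tauto)
      have h4 := M2 w h1 h2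
      have h5 := le_abs_self (wdg (b - a) (w - b))
      have h6 : wdg (b - (b + (b - a) - M * (Complex.I * (b - a))))
          (w - (b + (b - a) - M * (Complex.I * (b - a)))) =
          -wdg (b - a) (w - b) + M * (conj (b - a) * (b - w)).re := by
        simp [wdg]; ring
      linarith)
  have T2 := hchain b a (b + (b - a) + M * (Complex.I * (b - a))) m₂
    (Sim.mono hQ (hn'.sublist (by simp)) (fun v hv => by simp at hv ⊢; tauto)
      fun f hf => he ▸ List.mem_append_right _ hf)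
    (fun w hw => by
      obtain ⟨h1, h2⟩ := a2 w (by simp at hw ⊢; tauto)
      have h4 := M2 w h1 h2
      have h5 := neg_abs_le (wdg (b - a) (w - b))
      have h6 : wdg (b + (b - a) + M * (Complex.I * (b - a)) - b) (w - b) =
          wdg (b - a) (w - b) + M * (conj (b - a) * (b - w)).re := by
        simp [wdg]; ring
      linarith)
    (fun w hw => by
      obtain ⟨h1, h2⟩ := a1 w (by simp at hw ⊢; tauto)
      have h4 := M1 w h1 h2
      have h5 := le_abs_self (wdg (b - a) (w - a))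
      have h6 : wdg (a - (b + (b - a) + M * (Complex.I * (b - a))))
          (w - (b + (b - a) + M * (Complex.I * (b - a)))) =
          -(2 * wdg (b - a) (w - a)) + M * (conj (b - a) * (w - a)).re := by
        simp [wdg]; ring
      linarith)
  have w1 : 0 < wdg (b + (b - a) + M * (Complex.I * (b - a)) -
      (b + (b - a) - M * (Complex.I * (b - a)))) (b - (b + (b - a) + M * (Complex.I * (b - a)))) := by
    refine (mul_pos (mul_pos two_pos M0) hu).trans_eq ?_
    simp [wdg, Complex.normSq_apply]; ring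
  have w2 : 0 < wdg (b + 2 * (b - a) - (b + (b - a) - M * (Complex.I * (b - a))))
      (b + (b - a) + M * (Complex.I * (b - a)) - (b + 2 * (b - a))) := by
    refine (mul_pos (mul_pos two_pos M0) hu).trans_eq ?_
    simp [wdg, Complex.normSq_apply]; ring
  generalize b + (b - a) - M * (Complex.I * (b - a)) = B at T1 w1 w2
  generalize b + (b - a) + M * (Complex.I * (b - a)) = D at T2 w1 w2
  generalize b + 2 * (b - a) = C' at w2
  have T3 : Tr B ([C'] ++ D :: a :: m₂.reverse) b :=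
    Tr.glue w1 (Tr.glue (u := []) w2 (Tr.seg _ _) (Tr.seg _ _))
      (T2 D (a :: m₂.reverse) b (List.isRotated_append (l := [b])))
  obtain ⟨x, r, e1⟩ := List.exists_cons_of_ne_nil (l := m₁.reverse ++ [a]) (by simp)
  obtain ⟨v, l, e2⟩ := List.exists_cons_of_ne_nil (l := m₁ ++ b :: m₂) (by simp)
  have T4 : Tr x (r ++ [B]) b := T1 x (r ++ [B]) b (by
    rw [← List.cons_append, ← List.cons_append, ← e1]
    simpa using List.isRotated_append (l := [a, B, b]) (l' := m₁.reverse))
  refine ⟨a, v, B, C', D, l, e2 ▸ hr, (T4.sub_last rfl T3).tc _ _ _ ?_⟩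
  have e3 : l.reverse ++ [v] = m₂.reverse ++ b :: m₁.reverse := by
    rw [← List.reverse_cons, ← e2]
    simp
  rw [← List.cons_append, ← List.cons_append, ← e1]
  simpa [e3] using List.isRotated_append (l := m₁.reverse)
    (l' := a :: B :: C' :: D :: a :: (m₂.reverse ++ [b]))

end Pool.Agent.MP_334d28_an.K

end

section

/-!
The bound for simple polygons.
-/

open Polynomial Finset
open scoped Real ComplexConjugate

namespace Pool.Agent.MP_334d28_an.K

theorem tr_geo (hear : EAR_st) {a b : ℂ} {l : List ℂ} (h : Tr a l b) :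
    ∀ u v : List ℂ, OK (u ++ dif (pe a l b) ++ v) → OK (u ++ (b - a) :: v) := by
  induction h with
  | seg a b =>
    intro u v h
    simpa [pe, dif] using h
  | @glue a z b p q hw _ _ ih1 ih2 =>
    intro u v h
    rw [pe_append, dif_append] at h
    have h1 : OK (u ++ (z - a) :: (dif (pe z q b) ++ v)) := by
      apply ih1
      simpa [List.append_assoc] using h
    have h2 : OK ((u ++ [z - a]) ++ (b - z) :: v) := by
      apply ih2
      simpa [List.append_assoc] using h1
    have h3 := hear u v (z - a) (b - z) hw (by simpa [List.append_assoc] using h2)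
    have e : z - a + (b - z) = b - a := by ring
    rwa [e] at h3

theorem geo_st (hext : EXT_st) (hear : EAR_st) (hrok : ROK_st) (halg : ALG_st) : GEO_st := by
  intro P hP h3
  obtain ⟨v₀, v₁, B, C', D, l, hr, ht⟩ := hext P hP h3
  have e1 : dif (ce (v₀ :: v₁ :: l)) = (v₁ - v₀) :: dif (pe v₁ l v₀) := by
    simp [ce, pe, dif]
  have e2 : dif (pe v₀ (B :: C' :: D :: v₀ :: l.reverse) v₁) =
      (B - v₀) :: (C' - B) :: (D - C') :: (v₀ - D) ::
        ((dif (pe v₁ l v₀)).map fun x => -x).reverse := by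
    rw [← dif_pe_reverse]
    simp [pe, dif]
  have h1 := halg (B - v₀) (C' - B) (D - C') (v₀ - D) (dif (pe v₁ l v₀)) (by ring)
  have h2 := tr_geo hear ht [] (dif (pe v₁ l v₀)) (by rw [e2]; simpa using h1)
  rw [List.nil_append, ← e1] at h2
  exact hrok _ _ ((ce_rot hr).map _).symm h2

end Pool.Agent.MP_334d28_an.K

end

section

/-! Regular Jordan curves are bi-Lipschitz. -/

open Polynomial Finset
open scoped Real ComplexConjugate

namespace Pool.Agent.MP_334d28_an.K

theorem ne_bil {γ : ℝ → ℂ} (hp : Function.Periodic γ (2 * π))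
    (hi : Set.InjOn γ (Set.Ico 0 (2 * π))) {s u : ℝ} (hs : s ∈ Set.Icc 0 (2 * π)) (h0 : 0 < u)
    (h1 : u < 2 * π) : γ (s + u) ≠ γ s := by
  have key : ∀ s ∈ Set.Ico 0 (2 * π), γ (s + u) ≠ γ s := by
    intro s hs h
    rcases lt_or_ge (s + u) (2 * π) with h2 | h2
    · have := hi ⟨by linarith [hs.1], h2⟩ hs h
      linarith
    · rw [← hp.sub_eq] at h
      have := hi ⟨by linarith, by linarith [hs.2]⟩ hs h
      linarith
  rcases hs.2.lt_or_eq with h | h
  · exact key s ⟨hs.1, h⟩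
  · have := key 0 ⟨le_rfl, by linarith⟩
    rwa [← hp (0 + u), ← hp 0, zero_add, zero_add, add_comm u, ← h] at this

theorem ftc_bil {γ γ' : ℝ → ℂ} (hd : ∀ t, HasDerivAt γ (γ' t) t) (hc : Continuous γ')
    (s u : ℝ) : (u : ℂ) * ∫ r in (0 : ℝ)..1, γ' (s + r * u) = γ (s + u) - γ s := by
  have h : ∀ r : ℝ, HasDerivAt (fun r : ℝ => γ (s + r * u)) (u • γ' (s + r * u)) r := fun r =>
    (hd (s + r * u)).scomp r (by simpa using ((hasDerivAt_id r).mul_const u).const_add s)
  have := intervalIntegral.integral_eq_sub_of_hasDerivAt (a := 0) (b := 1) (fun r _ => h r)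
    (Continuous.intervalIntegrable (by fun_prop) _ _)
  rw [intervalIntegral.integral_smul, Complex.real_smul] at this
  simpa using this

theorem bil_st : BIL_st := by
  intro γ γ' hd hc h0 hp hi
  have hπ := Real.pi_pos
  have hH : Continuous fun z : ℝ × ℝ => ‖∫ r in (0 : ℝ)..1, γ' (z.1 + r * z.2)‖ :=
    (intervalIntegral.continuous_parametric_intervalIntegral_of_continuous'
      (f := fun (z : ℝ × ℝ) (r : ℝ) => γ' (z.1 + r * z.2)) (by fun_prop) 0 1).norm
  obtain ⟨z, hz, hm⟩ := ((isCompact_Icc (a := (0 : ℝ)) (b := 2 * π)).prod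
    (isCompact_Icc (a := (0 : ℝ)) (b := π))).exists_isMinOn
    ⟨(0, 0), ⟨le_rfl, by positivity⟩, le_rfl, hπ.le⟩ hH.continuousOn
  have hpos : 0 < ‖∫ r in (0 : ℝ)..1, γ' (z.1 + r * z.2)‖ := by
    rw [norm_pos_iff]
    rcases hz.2.1.lt_or_eq with h | h
    · intro e
      have := ftc_bil hd hc z.1 z.2
      rw [e, mul_zero, eq_comm, sub_eq_zero] at this
      exact ne_bil hp hi hz.1 h (by linarith [hz.2.2]) this
    · simpa [← h] using h0 z.1
  set c := ‖∫ r in (0 : ℝ)..1, γ' (z.1 + r * z.2)‖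
  have key : ∀ s ∈ Set.Icc 0 (2 * π), ∀ u ∈ Set.Icc 0 π, c * u ≤ ‖γ (s + u) - γ s‖ := by
    intro s hs u hu
    rw [← ftc_bil hd hc, norm_mul, Complex.norm_real, Real.norm_of_nonneg hu.1, mul_comm]
    exact mul_le_mul_of_nonneg_left (hm (a := (s, u)) ⟨hs, hu⟩) hu.1
  have key2 : ∀ s ∈ Set.Icc 0 (2 * π), ∀ t ∈ Set.Icc 0 (2 * π), s ≤ t →
      c * min |s - t| (2 * π - |s - t|) ≤ ‖γ s - γ t‖ := by
    intro s hs t ht hst
    rw [abs_sub_comm, abs_of_nonneg (sub_nonneg.2 hst)]
    rcases le_total (t - s) π with h | h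
    · have := key s hs (t - s) ⟨sub_nonneg.2 hst, h⟩
      rw [add_sub_cancel, norm_sub_rev] at this
      exact (mul_le_mul_of_nonneg_left (min_le_left _ _) hpos.le).trans this
    · have := key t ht (2 * π - (t - s)) ⟨by linarith [hs.1, ht.2], by linarith⟩
      rw [show t + (2 * π - (t - s)) = s + 2 * π by ring, hp s] at this
      exact (mul_le_mul_of_nonneg_left (min_le_right _ _) hpos.le).trans this
  refine ⟨c, hpos, fun s hs t ht => ?_⟩
  rcases le_total s t with h | h
  · exact key2 s hs t ht h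
  · rw [abs_sub_comm, norm_sub_rev]
    exact key2 t ht s hs h

end Pool.Agent.MP_334d28_an.K

end

section

/-!
From an injective parametrisation to a simple polygon.
-/

open Polynomial Finset
open scoped Real ComplexConjugate

namespace Pool.Agent.MP_334d28_an.K

theorem pe_ofFn_simp (m : ℕ) (f : ℕ → ℂ) :
    pe (f 0) (List.ofFn fun j : Fin m => f (j + 1)) (f (m + 1)) =
      List.ofFn fun j : Fin (m + 1) => (f j, f (j + 1)) := by
  induction m generalizing f with
  | zero => simp [pe]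
  | succ m ih =>
    rw [List.ofFn_succ, List.ofFn_succ (n := m + 1), pe]
    have := ih fun j => f (j + 1)
    simp only [Fin.val_succ, Fin.val_zero]
    rw [this]

theorem ce_ofFn_simp (n : ℕ) (f : ℕ → ℂ) (h : f n = f 0) :
    ce (List.ofFn fun j : Fin n => f j) = List.ofFn fun j : Fin n => (f j, f (j + 1)) := by
  cases n with
  | zero => simp [ce]
  | succ m =>
    rw [List.ofFn_succ, ce, ← pe_ofFn_simp m f, h]
    simp only [Fin.val_succ, Fin.val_zero]

theorem mem_open_simp {a b x : ℂ} (h : x ∈ openSegment ℝ a (a + b)) :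
    ∃ s : ℝ, 0 < s ∧ s < 1 ∧ x = a + s * b := by
  rw [openSegment_eq_image'] at h
  obtain ⟨s, hs, rfl⟩ := h
  exact ⟨s, hs.1, hs.2, by simp⟩

theorem simp_st : SIMP_st := by
  intro n d h0 hinj
  have hce := ce_ofFn_simp n (fun j => ∑ k ∈ range j, d k) (by simpa using h0)
  simp only [sum_range_succ] at hce
  have hz : (0 : ℝ) ∈ Set.Ico (0 : ℝ) 1 := ⟨le_rfl, zero_lt_one⟩
  refine ⟨⟨?_, ?_, ?_⟩, ?_⟩
  · refine List.nodup_ofFn.2 fun i j e => Fin.ext ?_
    exact (hinj i i.2 j j.2 0 hz 0 hz (by simpa using e)).1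
  · intro e he v hv hx
    rw [hce] at he
    obtain ⟨i, rfl⟩ := List.mem_ofFn.1 he
    obtain ⟨j, rfl⟩ := List.mem_ofFn.1 hv
    obtain ⟨s, hs0, hs1, hs⟩ := mem_open_simp hx
    exact hs0.ne' (hinj i i.2 j j.2 s ⟨hs0.le, hs1⟩ 0 hz (by simpa using hs.symm)).2
  · intro e he f hf hne
    rw [hce] at he hf
    obtain ⟨i, rfl⟩ := List.mem_ofFn.1 he
    obtain ⟨j, rfl⟩ := List.mem_ofFn.1 hf
    refine Set.disjoint_left.2 fun x hx hy => hne ?_
    obtain ⟨s, hs0, hs1, hs⟩ := mem_open_simp hx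
    obtain ⟨t, ht0, ht1, ht⟩ := mem_open_simp hy
    rw [(hinj i i.2 j j.2 s ⟨hs0.le, hs1⟩ t ⟨ht0.le, ht1⟩ (hs.symm.trans ht)).1]
  · rw [hce, dif, List.map_ofFn]
    congr 1
    funext j
    simp

end Pool.Agent.MP_334d28_an.K

end

section

/-!
The bound on a smaller disc.
-/

open Polynomial Finset
open scoped Real ComplexConjugate

namespace Pool.Agent.MP_334d28_an.K

theorem gap_key {F G : ℂ → ℂ} (hF : ContinuousOn F (Metric.closedBall 0 1))
    (hG : ContinuousOn G (Metric.closedBall 0 1)) (h : ∀ z : ℂ, ‖z‖ ≤ 1 → ‖G z‖ < ‖F z‖) :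
    ∃ μ : ℝ, 0 < μ ∧ ∀ z : ℂ, ‖z‖ ≤ 1 → ‖G z‖ + μ ≤ ‖F z‖ := by
  obtain ⟨x, hx, hm⟩ := (isCompact_closedBall (0 : ℂ) 1).exists_isMinOn
    ⟨0, Metric.mem_closedBall_self zero_le_one⟩ (hF.norm.sub hG.norm)
  refine ⟨‖F x‖ - ‖G x‖, sub_pos.2 (h x (mem_closedBall_zero_iff.1 hx)), fun z hz => ?_⟩
  have : ‖F x‖ - ‖G x‖ ≤ ‖F z‖ - ‖G z‖ := hm (mem_closedBall_zero_iff.2 hz)
  linarith

theorem key_st (hgeo : GEO_st) (hpgood : PGOOD_st) (hpmom : PMOM_st) (hbil : BIL_st)
    (hpli : PLI_st) (hsimp : SIMP_st) (hapx : APX_st) : KEY_st := by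
  intro F G R γ hR hF hG hlt hG0 hγ hper hinj
  have sub : Metric.closedBall (0 : ℂ) 1 ⊆ Metric.ball 0 R := Metric.closedBall_subset_ball hR
  have cF := hF.continuousOn.mono sub
  have cG := hG.continuousOn.mono sub
  have mem : ∀ t, ee t ∈ Metric.closedBall (0 : ℂ) 1 := fun t =>
    mem_closedBall_zero_iff.2 (norm_ee t).le
  have c1 : Continuous fun t => ee t * F (ee t) - conj (ee t * G (ee t)) :=
    (continuous_ee.mul (cF.comp_continuous continuous_ee mem)).sub
      (Complex.continuous_conj.comp (continuous_ee.mul (cG.comp_continuous continuous_ee mem)))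
  have n1 : ∀ t, ee t * F (ee t) - conj (ee t * G (ee t)) ≠ 0 := by
    intro t h
    have h1 := congrArg norm (sub_eq_zero.1 h)
    rw [Complex.norm_conj, norm_mul, norm_mul, norm_ee, one_mul, one_mul] at h1
    exact (hlt _ (norm_ee t).le).ne' h1
  obtain ⟨c, hc, hb⟩ := hbil γ _ hγ c1 n1 hper hinj
  obtain ⟨ε, hε, n₀, hp⟩ := hpli γ _ c hγ c1 (by simpa using hper 0) hc hb
  obtain ⟨μ, hμ, hgap⟩ := gap_key cF cG hlt
  have hη : 0 < min (ε / 2) (μ / 3) := lt_min (by linarith) (by linarith)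
  have η1 := min_le_left (ε / 2) (μ / 3)
  have η2 := min_le_right (ε / 2) (μ / 3)
  set η := min (ε / 2) (μ / 3)
  obtain ⟨A, a0, a1, a2⟩ := hapx F R η hR hη hF
  obtain ⟨B, b0, -, b2⟩ := hapx G R η hR hη hG
  rw [hG0] at b0
  have hAB : ∀ z : ℂ, ‖z‖ ≤ 1 → ‖B.eval z‖ < ‖A.eval z‖ := by
    intro z hz
    have h1 := norm_sub_norm_le (B.eval z) (G z)
    have h2 := norm_sub_norm_le (F z) (A.eval z)
    rw [norm_sub_rev] at h2
    linarith [a2 z hz, b2 z hz, hgap z hz]
  obtain ⟨n, hn0, hnA, hnB⟩ : ∃ n, n₀ ≤ n ∧ A.natDegree + 3 < n ∧ B.natDegree + 3 < n :=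
    ⟨n₀ + A.natDegree + B.natDegree + 4, by omega, by omega, by omega⟩
  obtain ⟨m0, m1, m2, m3⟩ := hpmom A B n b0 hnA hnB
  have hn : (n : ℂ) ≠ 0 := by exact_mod_cast (by omega : n ≠ 0)
  have hcl : ∀ j < n, ‖n * dd A B n j - (ee (2 * π * j / n) * F (ee (2 * π * j / n)) -
      conj (ee (2 * π * j / n) * G (ee (2 * π * j / n))))‖ ≤ ε := by
    intro j _
    rw [dd, mul_div_cancel₀ _ hn]
    generalize (2 * π * j / n : ℝ) = t
    have e : ee t * A.eval (ee t) - conj (ee t * B.eval (ee t)) -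
        (ee t * F (ee t) - conj (ee t * G (ee t))) =
        ee t * (A.eval (ee t) - F (ee t)) - conj (ee t * (B.eval (ee t) - G (ee t))) := by
      simp only [map_mul, map_sub]
      ring
    rw [e]
    refine (norm_sub_le _ _).trans ?_
    rw [Complex.norm_conj, norm_mul, norm_mul, norm_ee, one_mul, one_mul]
    linarith [a2 _ (norm_ee t).le, b2 _ (norm_ee t).le]
  obtain ⟨s1, s2⟩ := hsimp n (dd A B n) m0 (hp n hn0 (dd A B n) m0 hcl)
  have ok := hgeo _ s1 (by rw [List.length_ofFn]; omega)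
  rw [s2] at ok
  have bd := ok (LL A B n) (by rw [LL, List.map_ofFn]; rfl) (hpgood A B n hAB hnA hnB)
  have hA0 : 0 < ‖A.eval 0‖ := (norm_nonneg _).trans_lt (hAB 0 (by simp))
  have h := bd (by rw [m1, m2, norm_zero]; exact hA0)
  rw [m1, m2, m3, zero_mul, zero_mul, sub_zero, sub_zero, norm_mul, norm_mul, Complex.norm_conj,
    mul_left_comm] at h
  rw [← a0, ← a1]
  exact le_of_mul_le_mul_left h hA0

end Pool.Agent.MP_334d28_an.K

end

section

/-!
Assembly of the sharp bound for the second coefficient.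
-/

namespace Pool.Agent.MP_334d28_an.K

theorem five_all : NRM_st :=
  nrm_st (fin_st conv_st (sgn_st mon_st) (exa_st vdm_st lam_st)
    (gas_st (ens_st vdm_st) lam_st) res_st) fac_st hit_st drop_st

theorem tri_all : TRI_st :=
  tri_st (earw_st wnc_st (wnp_st wnc_st)) (diaga_st cut_st) (diagb_st cut_st)

theorem geo_all : GEO_st :=
  geo_st (ext_st (chain_st tri_all)) ear_st rok_st (alg_st five_all coef_st aff_st)

theorem all_st : MAIN_st :=
  main_st (key_st geo_all pgood_st pmom_st bil_st pli_st simp_st apx_st)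

end Pool.Agent.MP_334d28_an.K

end
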